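import Pool.Agent.SplLog.Mir

set_option autoImplicit false

/-!
# Block processes and players

`S : Sys` is the system of subtree intervals of a run of splays (`X t`, `lam t v`, `rho t v`).
The GAP `s` is the cut between `s` and `s + 1`; `0` and `S.top - 1` are the sentinel gaps.
`[u, v)` stands for the gaps between the keys `u < v`.

`B : Blk S` is a block process along the run (the leaf-oriented tree of an execution): heights
`B.om t s` of the gaps before the request `t`, with a unique maximum on every interval of gaps, and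
a finite set `B.tau t` of touched gaps; between two consecutive touched gaps nothing changes, and
the touched ends are higher than everything between them, before and after.

* `B.IsG t u v s`: `s` is the highest gap of `[u, v)`.
* `B.Fr t u v`: no gap of `[u, v)` is touched at time `t`.
* `B.P t s v`: `s` is the player of the node `v`, with sign `+` (`s` is the highest gap of
  `[v, rho v)` and lower than the highest gap of `[lam v, v)`);  `B.Q t s v`: the same, sign `-`.
* `B.Mt t g p a b`: the request `t` is a zig-zig on the right side (`g` killed by `p`), and the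
  player `a` of `g` and the player `b` of `p` are untouched: a MATCH.
* `B.LoR t a b`: a match on the right side with LOW player `a` and HIGH player `b`.
* `B.Bad t v`: `v` takes part in a zig-zig whose other node has a touched player (K4 or K5).
* `B.TR t s`: the untouched player `s` of a node on the right side of the search path, no K4, K5;
  `B.RR t s`: the same, but K4 or K5 (the player is RESET).
* `B.UpR t a b`: `a`, `b` are players (`TR`) of neighbours `v < rho v` on the right side.
* `B.NxR t a b`: `a`, `b` are kept and neighbours after the request.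
The left side is obtained from the mirror image `B.mir : Blk S.mir` (key `v` becomes
`S.top - v`, gap `s` becomes `S.top - 1 - s`).
-/

namespace Pool.Agent.SplPl

open Pool.Agent.SplLog

/-- A block process along a run. -/
structure Blk (S : Sys) where
  /-- the maximal height of the inner gaps -/
  H : ℕ
  /-- the heights of the gaps -/
  om : ℕ → ℕ → ℕ
  /-- the touched gaps -/
  tau : ℕ → Finset ℕ
  om_le : ∀ t, t ≤ S.m → ∀ s, 0 < s → s + 1 < S.top → om t s ≤ H
  om_zero : ∀ t, t ≤ S.m → om t 0 = H + 1
  om_last : ∀ t, t ≤ S.m → om t (S.top - 1) = H + 1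
  uniq : ∀ t, t ≤ S.m → ∀ s s', s < s' → s' < S.top → om t s = om t s' →
    (s = 0 ∧ s' + 1 = S.top) ∨ ∃ r, s < r ∧ r < s' ∧ om t s < om t r
  tau_lt : ∀ t, t < S.m → ∀ s ∈ tau t, s < S.top
  tau_zero : ∀ t, t < S.m → 0 ∈ tau t
  tau_last : ∀ t, t < S.m → S.top - 1 ∈ tau t
  tau_X : ∀ t, t < S.m → S.X t - 1 ∈ tau t ∧ S.X t ∈ tau t
  keep : ∀ t, t < S.m → ∀ s, s < S.top → s ∉ tau t → om (t + 1) s = om t s
  hole : ∀ t, t < S.m → ∀ s, s < S.top → s ∉ tau t → ∀ r ∈ tau t,
    (∀ q, (s < q ∧ q < r) ∨ (r < q ∧ q < s) → q ∉ tau t) →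
    om t s < om t r ∧ om (t + 1) s < om (t + 1) r

namespace Blk

variable {S : Sys} (B : Blk S)

/-- `s` is the highest gap of `[u, v)`. -/
def IsG (t u v s : ℕ) : Prop :=
  u ≤ s ∧ s < v ∧ ∀ r, u ≤ r → r < v → r ≠ s → B.om t r < B.om t s

/-- No gap of `[u, v)` is touched at time `t`. -/
def Fr (t u v : ℕ) : Prop := ∀ r, u ≤ r → r < v → r ∉ B.tau t

/-- `s` is the player of the node `v`, with sign `+`. -/
def P (t s v : ℕ) : Prop :=
  v ∈ S.K ∧ B.IsG t v (S.rho t v) s ∧ ∃ r, S.lam t v ≤ r ∧ r < v ∧ B.om t s < B.om t r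

/-- `s` is the player of the node `v`, with sign `-`. -/
def Q (t s v : ℕ) : Prop :=
  v ∈ S.K ∧ B.IsG t (S.lam t v) v s ∧ ∃ r, v ≤ r ∧ r < S.rho t v ∧ B.om t s < B.om t r

/-- A match on the right side: `g` is killed by `p`, the player `a` of `g` and the player `b` of
`p` are untouched. -/
def Mt (t g p a b : ℕ) : Prop :=
  S.Kl t g p ∧ B.Fr t p (S.rho t g) ∧ B.IsG t g (S.rho t g) a ∧ B.IsG t p g b

/-- A match on the right side, `a` is the LOW and `b` the HIGH player. -/
def LoR (t a b : ℕ) : Prop :=
  (∃ g p, B.Mt t g p a b ∨ B.Mt t g p b a) ∧ B.om t a < B.om t b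

/-- `v` is killed by a node with a touched player (K4), or it kills a node with a touched player
(K5). -/
def Bad (t v : ℕ) : Prop :=
  (∃ p, S.Kl t v p ∧ ¬ B.Fr t p v) ∨ ∃ g, S.Kl t g v ∧ ¬ B.Fr t g (S.rho t g)

/-- `s` is the untouched player of a node on the right side of the search path, no K4, K5. -/
def TR (t s : ℕ) : Prop :=
  ∃ v, S.R t v ∧ B.Fr t v (S.rho t v) ∧ B.IsG t v (S.rho t v) s ∧ ¬ B.Bad t v

/-- `s` is the untouched player of a node on the right side of the search path, K4 or K5. -/
def RR (t s : ℕ) : Prop :=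
  ∃ v, S.R t v ∧ B.Fr t v (S.rho t v) ∧ B.IsG t v (S.rho t v) s ∧ B.Bad t v

/-- `b` is the upper neighbour of `a` in a list on the right side. -/
def UpR (t a b : ℕ) : Prop :=
  B.TR t a ∧ B.TR t b ∧ ∃ v, S.R t v ∧ S.R t (S.rho t v) ∧ B.IsG t v (S.rho t v) a ∧
    B.IsG t (S.rho t v) (S.rho t (S.rho t v)) b

/-- `a` and `b` are kept at time `t` and neighbours (`b` the upper one) after the request. -/
def NxR (t a b : ℕ) : Prop :=
  B.TR t a ∧ B.TR t b ∧ ∃ v, S.rho (t + 1) v ∈ S.K ∧ B.P (t + 1) a v ∧
    B.P (t + 1) b (S.rho (t + 1) v) ∧ S.lam (t + 1) v = S.X t ∧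
    S.lam (t + 1) (S.rho (t + 1) v) = S.X t

/-- The number of touched gaps. -/
def tot : ℕ := ∑ t ∈ Finset.range S.m, (B.tau t).card

theorem fl_mem {T : Finset ℕ} {s top : ℕ} (hs : s < top) (hT : ∀ r ∈ T, r < top) :
    s ∈ T.image (fun s => top - 1 - s) ↔ top - 1 - s ∈ T := by
  rw [Finset.mem_image]
  constructor
  · rintro ⟨r, hr, rfl⟩
    have := hT r hr
    have e : top - 1 - (top - 1 - r) = r := by omega
    rw [e]
    exact hr
  · intro h
    exact ⟨_, h, by omega⟩

/-- The mirror image of a block process. -/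
def mir : Blk S.mir where
  H := B.H
  om t s := B.om t (S.top - 1 - s)
  tau t := (B.tau t).image (fun s => S.top - 1 - s)
  om_le := by
    intro t ht s h1 h2
    change s + 1 < S.top at h2
    exact B.om_le t ht _ (by omega) (by omega)
  om_zero := by
    intro t ht
    exact B.om_last t ht
  om_last := by
    intro t ht
    change B.om t (S.top - 1 - (S.top - 1)) = B.H + 1
    rw [Nat.sub_self]
    exact B.om_zero t ht
  uniq := by
    intro t ht s s' h1 h2 h3
    change s' < S.top at h2
    change (s = 0 ∧ s' + 1 = S.top) ∨ _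
    rcases B.uniq t ht (S.top - 1 - s') (S.top - 1 - s) (by omega) (by omega) h3.symm with
      h | ⟨r, h4, h5, h6⟩
    · left
      omega
    · right
      refine ⟨S.top - 1 - r, by omega, by omega, ?_⟩
      have e : S.top - 1 - (S.top - 1 - r) = r := by omega
      change B.om t (S.top - 1 - s) < B.om t (S.top - 1 - (S.top - 1 - r))
      rw [e, h3]
      exact h6
  tau_lt := by
    intro t ht s hs
    rw [Finset.mem_image] at hs
    obtain ⟨r, hr, rfl⟩ := hs
    have := B.tau_lt t ht r hr
    change S.top - 1 - r < S.top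
    omega
  tau_zero := by
    intro t ht
    rw [Finset.mem_image]
    exact ⟨_, B.tau_last t ht, by omega⟩
  tau_last := by
    intro t ht
    rw [Finset.mem_image]
    exact ⟨_, B.tau_zero t ht, rfl⟩
  tau_X := by
    intro t ht
    have h1 := S.key _ (S.req t ht)
    have h2 := B.tau_X t ht
    constructor
    · rw [Finset.mem_image]
      refine ⟨_, h2.2, ?_⟩
      change S.top - 1 - S.X t = S.top - S.X t - 1
      omega
    · rw [Finset.mem_image]
      refine ⟨_, h2.1, ?_⟩
      change S.top - 1 - (S.X t - 1) = S.top - S.X t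
      omega
  keep := by
    intro t ht s hs h
    change s < S.top at hs
    rw [fl_mem hs (B.tau_lt t ht)] at h
    exact B.keep t ht _ (by omega) h
  hole := by
    intro t ht s hs h r hr hq
    change s < S.top at hs
    rw [fl_mem hs (B.tau_lt t ht)] at h
    rw [Finset.mem_image] at hr
    obtain ⟨r0, hr0, rfl⟩ := hr
    have hr1 := B.tau_lt t ht r0 hr0
    have e : S.top - 1 - (S.top - 1 - r0) = r0 := by omega
    have := B.hole t ht (S.top - 1 - s) (by omega) h r0 hr0 (by
      intro q hq'
      have h1 : S.top - 1 - q ∉ (B.tau t).image (fun s => S.top - 1 - s) :=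
        hq (S.top - 1 - q) (by omega)
      rw [fl_mem (by omega) (B.tau_lt t ht)] at h1
      have e' : S.top - 1 - (S.top - 1 - q) = q := by omega
      rwa [e'] at h1)
    change B.om t (S.top - 1 - s) < B.om t (S.top - 1 - (S.top - 1 - r0)) ∧
      B.om (t + 1) (S.top - 1 - s) < B.om (t + 1) (S.top - 1 - (S.top - 1 - r0))
    rw [e]
    exact this
/-- The inner gaps. -/
def gs (S : Sys) : Finset ℕ := Finset.Ioo 0 (S.top - 1)

/-- The gap `s` seen from the left side. -/
def fl (S : Sys) (s : ℕ) : ℕ := S.top - 1 - s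

/-- `s` is touched by the search path (and not reset). -/
def Tc (t s : ℕ) : Prop := t < S.m ∧ s ∈ gs S ∧ (B.TR t s ∨ B.mir.TR t (fl S s))

/-- `s` is reset. -/
def Rs (t s : ℕ) : Prop :=
  t < S.m ∧ s ∈ gs S ∧ (s ∈ B.tau t ∨ B.RR t s ∨ B.mir.RR t (fl S s))

/-- A match with LOW player `a` and HIGH player `b`. -/
def Lo (t a b : ℕ) : Prop :=
  t < S.m ∧ a ∈ gs S ∧ b ∈ gs S ∧ (B.LoR t a b ∨ B.mir.LoR t (fl S a) (fl S b))

/-- `b` is the upper neighbour of `a`. -/
def Up (t a b : ℕ) : Prop :=
  t < S.m ∧ a ∈ gs S ∧ b ∈ gs S ∧ (B.UpR t a b ∨ B.mir.UpR t (fl S a) (fl S b))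

/-- `b` is the upper neighbour of `a` after the request, both are kept. -/
def Nx (t a b : ℕ) : Prop :=
  t < S.m ∧ a ∈ gs S ∧ b ∈ gs S ∧ (B.NxR t a b ∨ B.mir.NxR t (fl S a) (fl S b))

/-- The sign of a player after a match in which it is LOW. -/
def sg (t a : ℕ) : Prop := ∃ v, B.P (t + 1) a v

end Blk

end Pool.Agent.SplPl
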