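import Pool.Agent.SplPl.Defs
import Pool.Agent.SplLog.Run
import Pool.Agent.SplPly.Fin3

set_option autoImplicit false

/-!
# From Theorem A and Theorem B to the bound of the kills and alternations
-/

namespace Pool.Agent.SplPl

open Pool.Agent.SplLog BinaryTree Pool.Agent.MP_c42954_lc.Scan Pool.Agent.SplPly

/-- Theorem A. -/
def ThA (C : ℕ) : Prop := ∀ (S : Sys) (B : Blk S), S.KR ≤ S.NR + S.CR + S.CL + S.m →
    S.mir.KR ≤ S.mir.NR + S.mir.CR + S.mir.CL + S.m →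
    S.NR + S.mir.NR + S.CR + S.CL ≤ C * (Nat.log 2 (B.H + 1) + 1) ^ 6 * (S.top + S.m + B.tot)

/-- Theorem B. -/
def ThB (C : ℕ) : Prop := ∀ (L n : ℕ) (S : Sys), 1 ≤ L → n ≤ 2 ^ L → S.K = Finset.Icc 1 n →
    S.top = n + 1 → ∃ B : Blk S, B.H + 1 ≤ 8 * L ^ 2 ∧ B.tot ≤ C * (Nat.log 2 L + 2) *
      (SplAll.SW 2 L (fun _ i => 2 * i) ((List.range S.m).map (fun t => S.X t - 1)) + S.m)

theorem AB_of {C1 C2 : ℕ} (hA : ThA C1) (hB : ThB C2) : ∃ C, AB C := by
  refine ⟨C1 * 3 ^ 6 * (3 + C2), ?_⟩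
  intro L n S hL hn hK htop h1 h2
  obtain ⟨B, hH, ht⟩ := hB L n S hL hn hK htop
  have hA' := hA S B h1 h2
  set W := SplAll.SW 2 L (fun _ i => 2 * i) ((List.range S.m).map (fun t => S.X t - 1)) with hW
  set M := Nat.log 2 L + 2 with hM
  have hM1 : 1 ≤ M := by omega
  have hlog : Nat.log 2 (B.H + 1) + 1 ≤ 3 * M := by
    have h3 : B.H + 1 < 2 ^ (2 * Nat.log 2 L + 5) := by
      have h4 : L < 2 ^ (Nat.log 2 L + 1) := Nat.lt_pow_succ_log_self (by norm_num) L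
      calc B.H + 1 ≤ 8 * L ^ 2 := hH
        _ < 8 * (2 ^ (Nat.log 2 L + 1)) ^ 2 := by
            apply Nat.mul_lt_mul_of_pos_left (Nat.pow_lt_pow_left h4 (by norm_num)) (by norm_num)
        _ = 2 ^ (2 * Nat.log 2 L + 5) := by
            rw [← pow_mul, show (8 : ℕ) = 2 ^ 3 by norm_num, ← pow_add]
            congr 1
            ring
    have h5 : Nat.log 2 (B.H + 1) < 2 * Nat.log 2 L + 5 := Nat.log_lt_of_lt_pow (by omega) h3
    omega
  -- n may be zero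
  rcases Nat.eq_zero_or_pos S.m with hm | hm
  · -- no requests: everything is zero
    have hz : ∀ (S' : Sys), S'.m = 0 → ∀ P, S'.cnt P = 0 := by
      intro S' h P
      unfold Sys.cnt Sys.set
      rw [h]
      simp
    have e1 : S.NR = 0 := hz S hm _
    have e2 : S.mir.NR = 0 := hz S.mir hm _
    have e3 : S.CR = 0 := hz S hm _
    have e4 : S.CL = 0 := hz S hm _
    omega
  have hs : S.top + S.m + B.tot ≤ (3 + C2) * M * (n + S.m + W) := by
    have e1 : S.top + S.m ≤ 3 * (n + S.m + W) := by omega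
    have e2 : 3 * (n + S.m + W) ≤ 3 * M * (n + S.m + W) :=
      Nat.mul_le_mul_right _ (Nat.le_mul_of_pos_right 3 hM1)
    have e3 : B.tot ≤ C2 * M * (n + S.m + W) :=
      ht.trans (Nat.mul_le_mul_left _ (by omega))
    calc S.top + S.m + B.tot ≤ 3 * M * (n + S.m + W) + C2 * M * (n + S.m + W) :=
          Nat.add_le_add (e1.trans e2) e3
      _ = (3 + C2) * M * (n + S.m + W) := by ring
  calc S.NR + S.mir.NR + S.CR + S.CL
      ≤ C1 * (Nat.log 2 (B.H + 1) + 1) ^ 6 * (S.top + S.m + B.tot) := hA'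
    _ ≤ C1 * (3 * M) ^ 6 * ((3 + C2) * M * (n + S.m + W)) :=
        Nat.mul_le_mul (Nat.mul_le_mul_left _ (Nat.pow_le_pow_left hlog 6)) hs
    _ = C1 * 3 ^ 6 * (3 + C2) * M ^ 7 * (n + S.m + W) := by ring

/-- **The final theorem.** -/
theorem final_of (hA : ∃ C, ThA C) (hB : ∃ C, ThB C) : ∃ C : ℝ, 0 < C ∧
    ∀ (T : BinaryTree ℕ) (X : List ℕ) (c : ℕ), IsBST T → (∀ x ∈ X, x ∈ inorder T) →
    3 ≤ (inorder T).length → Exec T X c →
    (splayCost X T : ℝ) ≤ C * Real.log (Real.log (inorder T).length) ^ 7 * c := by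
  obtain ⟨C1, h1⟩ := hA
  obtain ⟨C2, h2⟩ := hB
  exact competitive (AB_of h1 h2)

end Pool.Agent.SplPl
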