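import Mathlib

set_option autoImplicit false

/-!
# Heap systems: the abstract counting problem

A heap system `S : HS` has tokens `s ∈ S.G` (the players = gaps) and times `t < S.m`:
* `S.om t s`: the height of the token `s`, constant except when `s` is reset;
* `S.Rs t s`: `s` is reset at time `t` (its life ends; every token begins a life at time `0`);
* `S.Tc t s`: `s` is touched at time `t` (and not reset);
* `S.Lo t a b`: the touched tokens `a` (LOW) and `b` (HIGH) are matched;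
* `S.Up t a b`: `b` is the upper neighbour of `a` in one of the lists of touched tokens;
* `S.Nx t a b`: `b` is the upper neighbour of `a` in the list of the kept (not LOW) tokens.
All axioms are invariant under reversal of `Up` and `Nx` (`HS.dual`).
-/

namespace Pool.Agent.SplPl

/-- A heap system. -/
structure HS where
  /-- the tokens -/
  G : Finset ℕ
  /-- the number of times -/
  m : ℕ
  /-- the maximal height of a token -/
  H : ℕ
  om : ℕ → ℕ → ℕ
  Rs : ℕ → ℕ → Prop
  Tc : ℕ → ℕ → Prop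
  Lo : ℕ → ℕ → ℕ → Prop
  Up : ℕ → ℕ → ℕ → Prop
  Nx : ℕ → ℕ → ℕ → Prop
  rs_lt : ∀ t s, Rs t s → t < m ∧ s ∈ G
  tc_lt : ∀ t s, Tc t s → t < m ∧ s ∈ G
  tc_rs : ∀ t s, Tc t s → ¬ Rs t s
  om_le : ∀ t s, t ≤ m → s ∈ G → om t s ≤ H
  om_keep : ∀ t s, t < m → s ∈ G → ¬ Rs t s → om (t + 1) s = om t s
  lo_tc : ∀ t a b, Lo t a b → Tc t a ∧ Tc t b
  lo_om : ∀ t a b, Lo t a b → om t a < om t b
  lo_up : ∀ t a b, Lo t a b → Up t a b ∨ Up t b a
  lo_r : ∀ t a b b', Lo t a b → Lo t a b' → b = b'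
  lo_l : ∀ t a a' b, Lo t a b → Lo t a' b → a = a'
  lo_n : ∀ t a b c, Lo t a b → ¬ Lo t b c
  up_tc : ∀ t a b, Up t a b → Tc t a ∧ Tc t b
  up_r : ∀ t a b b', Up t a b → Up t a b' → b = b'
  up_l : ∀ t a a' b, Up t a b → Up t a' b → a = a'
  nx_tc : ∀ t a b, Nx t a b → (Tc t a ∧ ∀ c, ¬ Lo t a c) ∧ (Tc t b ∧ ∀ c, ¬ Lo t b c)
  nx_r : ∀ t a b b', Nx t a b → Nx t a b' → b = b'
  nx_l : ∀ t a a' b, Nx t a b → Nx t a' b → a = a'
  nx_up : ∀ t a b, Nx t a b → Up t a b ∨ (∃ u, (∃ c, Lo t u c) ∧ Up t a u ∧ Up t u b) ∨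
    ∃ u v, (∃ c, Lo t u c) ∧ (∃ c, Lo t v c) ∧ Up t a u ∧ Up t u v ∧ Up t v b
  perm : ∀ t u a b, Nx t a b → t < u → u < m →
    (∀ r, t < r → r < u → ¬ Tc r a ∧ ¬ Rs r a ∧ ¬ Tc r b ∧ ¬ Rs r b) →
    ¬ Rs u a → ¬ Rs u b → (Tc u a ∨ Tc u b) → Up u a b

namespace HS

variable (S : HS)

/-- `s` is touched and not LOW. -/
def Kt (t s : ℕ) : Prop := S.Tc t s ∧ ∀ b, ¬ S.Lo t s b

/-- The last event of `a` before `t` is the match at time `l`, in which `a` is LOW and `q` HIGH. -/
def Last (l t a q : ℕ) : Prop :=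
  S.Lo l a q ∧ l < t ∧ ∀ r, l < r → r < t → ¬ S.Tc r a ∧ ¬ S.Rs r a

open scoped Classical in
/-- The number of pairs (time, token) with the property `P`. -/
noncomputable def cnt (P : ℕ → ℕ → Prop) : ℕ :=
  ((Finset.range S.m ×ˢ S.G).filter (fun q => P q.1 q.2)).card

/-- The number of matches. -/
noncomputable def N : ℕ := S.cnt (fun t a => ∃ b, S.Lo t a b)

/-- The number of resets. -/
noncomputable def NRs : ℕ := S.cnt S.Rs

/-- The number of touches. -/
noncomputable def NTc : ℕ := S.cnt S.Tc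

/-- The number of kept tokens without a kept upper neighbour. -/
noncomputable def NTop : ℕ := S.cnt (fun t a => S.Kt t a ∧ ∀ b, ¬ S.Nx t a b)

/-- The number of kept tokens without a kept lower neighbour. -/
noncomputable def NBot : ℕ := S.cnt (fun t b => S.Kt t b ∧ ∀ a, ¬ S.Nx t a b)

/-- The first touches after a match: if `a` is touched at `t` for the first time after it was LOW
(with HIGH player `q`, at time `l`), and `b` is its upper neighbour, then, outside the set `E` of
exceptions, `b` is also touched for the first time after it was LOW, with the same `q`, in the same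
life of `q`, later than `a`, and no player with the same sign was LOW with `q` in between. -/
def First (sg : ℕ → ℕ → Prop) (E : Finset (ℕ × ℕ)) : Prop :=
  ∀ t a b l q, S.Up t a b → S.Last l t a q → (t, a) ∉ E →
    ∃ l', l < l' ∧ S.Last l' t b q ∧ (∀ r, l ≤ r → r ≤ l' → ¬ S.Rs r q) ∧ (sg l a ↔ sg l' b) ∧
      ∀ r c, l < r → r < l' → S.Lo r c q → ¬ (sg r c ↔ sg l a)

/-- The number of levels. -/
def Mv : ℕ := Nat.log 2 (S.H + 1) + 1

end HS

end Pool.Agent.SplPl
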