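import Pool.Agent.SplPl.Tool
import Pool.Agent.SplPl.Heap

set_option autoImplicit false

/-!
# Counting: resets, tops, bottoms, kills, touches, turns (I3, I5, I6, I7)
-/

namespace Pool.Agent.SplPl

open Pool.Agent.SplLog

namespace Blk

variable {S : Sys} {B : Blk S} {t u v w s r a b g p u' v' s' g' p' : ℕ}

/-! ### geometry of one access, right side -/

theorem c74_kp_rho (h : S.Kp t v) (hn : ∀ g, ¬ S.Kl t g v) : S.rho (t + 1) v = S.rho t v := by
  obtain ⟨⟨ht, hv, hx, hl⟩, h2⟩ := h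
  rcases S.right t ht v hv hx with h4 | ⟨_, h4, h5⟩ | ⟨_, q, _, h5, _, h6, _⟩
  · omega
  · rcases h5 with h5 | ⟨c1, c2, c3, c4, c5⟩
    · exact h5
    · have h6 := S.lt_rho t ht.le v hv
      exact absurd ⟨⟨ht, c1, by omega, by omega⟩, hx, c3⟩ (hn (S.rho t v))
  · omega

theorem c74_kl_disj (h : S.Kl t g p) (h' : S.Kl t g' p') (hg : g < g') : S.rho t g ≤ p' := by
  obtain ⟨k1, k2, k3, k4, _, _⟩ := Sys.kl_facts h'
  rcases lt_trichotomy g p' with c | c | c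
  · exact (Sys.R_above h.1 k1.1 c).1
  · subst c
    exact (Sys.not_kp_kl k1 h).elim
  · have := (Sys.R_above k1.1 h.1 c).1
    omega

theorem c74_kp_disj (h : S.Kp t v) (h' : S.Kp t w) (hg : v < w) : S.rho (t + 1) v ≤ w := by
  have ht := h.1.1
  have hx := h.1.2.2.1
  have h1 := S.lt_rho (t + 1) ht v h.1.2.1
  have h2 := h'.2
  rcases S.lamin (t + 1) ht v h.1.2.1 w h'.1.2.1 hg with ⟨c1, c2, c3⟩ | ⟨c1, c2, c3⟩ | c1
  · omega
  · exact c2
  · omega

/-- the next node on the right spine after the access is kept or the end -/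
theorem c74_kp_next (h : S.Kp t w) (hr : S.rho (t + 1) w ∈ S.K) :
    S.Kp t (S.rho (t + 1) w) := by
  have ht := h.1.1
  have hx := h.1.2.2.1
  have h1 := S.lt_rho (t + 1) ht w h.1.2.1
  have hw := h.2
  have h2 : S.lam (t + 1) (S.rho (t + 1) w) = S.X t := by
    have a1 := S.rho_anc (t + 1) ht w h.1.2.1 hr
    have hX := S.req t ht
    have a2 := S.acc t ht
    have hk := S.key _ hr
    have hkx := S.key _ hX
    have a3 : S.X t ≤ S.lam (t + 1) (S.rho (t + 1) w) := by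
      rcases S.lamin (t + 1) ht (S.X t) hX (S.rho (t + 1) w) hr (by omega) with
        ⟨c1, c2, c3⟩ | ⟨c1, c2, c3⟩ | c1
      · exact c2
      · omega
      · have := S.lam_lt (t + 1) ht _ hr
        omega
    by_contra hne
    have a4 : S.X t < S.lam (t + 1) (S.rho (t + 1) w) := by omega
    have a5 : S.lam (t + 1) (S.rho (t + 1) w) ∈ S.K := by
      rcases S.lam_mem (t + 1) ht _ hr with c | c
      · omega
      · exact c
    have a6 := S.lam_anc (t + 1) ht _ hr a5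
    rcases S.lamin (t + 1) ht _ a5 w h.1.2.1 a1 with ⟨c1, c2, c3⟩ | ⟨c1, c2, c3⟩ | c1
    · omega
    · omega
    · omega
  have h3 : S.E t (S.rho (t + 1) w) := by
    by_cases hk : ∃ g, S.Kl t g w
    · obtain ⟨g, hg⟩ := hk
      obtain ⟨k1, k2, k3, k4, k5, _⟩ := Sys.kl_facts hg
      rw [k5] at hr ⊢
      have b1 := S.rho_anc t ht.le g hg.1.2.1 hr
      have b2 := S.lt_rho t ht.le g hg.1.2.1
      have b3 := S.lt_rho t ht.le _ hr
      exact Sys.E_up (Sys.R_E hg.1) hr b1 (by omega)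
    · have e := c74_kp_rho h (fun g hg => hk ⟨g, hg⟩)
      rw [e] at hr ⊢
      have b1 := S.rho_anc t ht.le w h.1.2.1 hr
      have b3 := S.lt_rho t ht.le _ hr
      have b2 := S.lt_rho t ht.le w h.1.2.1
      exact Sys.E_up (Sys.R_E h.1) hr b1 (by omega)
  have h4 := Sys.E_int h3
  exact ⟨⟨ht, hr, by omega, h4.1⟩, h2⟩

/-- the kept node next below a kept node -/
theorem c74_kp_below (h : S.Kp t v) (hex : ∃ w, w < v ∧ S.Kp t w) :
    ∃ w, S.Kp t w ∧ S.rho (t + 1) w = v := by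
  obtain ⟨w, h1, h2, h3⟩ := Sys.exists_prev (P := fun a => S.Kp t a) hex
  refine ⟨w, h2, ?_⟩
  have h4 := c74_kp_disj h2 h h1
  have ht := h.1.1
  have h5 : S.rho (t + 1) w ∈ S.K := by
    rcases S.rho_mem (t + 1) ht w h2.1.2.1 with c | c
    · have := S.key v h.1.2.1
      omega
    · exact c
  have h6 := c74_kp_next h2 h5
  have h7 := S.lt_rho (t + 1) ht w h2.1.2.1
  by_contra hne
  exact h3 _ h7 (by omega) h6

theorem c74_P_next (h : S.Kp t w) (hf : B.Fr t w (S.rho (t + 1) w))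
    (hb : B.IsG t w (S.rho (t + 1) w) b) : B.P (t + 1) b w := by
  have ht := h.1.1
  have h1 := rho_le (S := S) (t := t + 1) ht h.1.2.1
  refine ⟨h.1.2.1, (hf.IsG_iff ht h1).2 hb, ?_⟩
  obtain ⟨q, h2, h3, h4, _, h5⟩ := hf.high_left (w := S.X t) ht h1
    ⟨S.X t, (B.tau_X t ht).2, le_rfl, h.1.2.2.1⟩
  exact ⟨q, by rw [h.2]; exact h3, h4, (h5 b hb.1 hb.2.1).2⟩

theorem c74_kept_player (h : S.Kp t w) (hf : B.Fr t w (S.rho (t + 1) w)) :
    ∃ b, B.TR t b ∧ B.IsG t w (S.rho (t + 1) w) b ∧ B.P (t + 1) b w := by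
  have ht := h.1.1
  have h1 := rho_le (S := S) (t := t + 1) ht h.1.2.1
  have h2 := S.lt_rho (t + 1) ht w h.1.2.1
  have h3 := S.key w h.1.2.1
  have h4 : ¬ (w = 0 ∧ S.rho (t + 1) w = S.top) := by omega
  by_cases hk : ∃ g, S.Kl t g w
  · obtain ⟨g, hg⟩ := hk
    obtain ⟨k1, k2, k3, k4, k5, _⟩ := Sys.kl_facts hg
    obtain ⟨b, hb⟩ := B.exists_IsG ht.le h2 h1 h4
    refine ⟨b, ?_, hb, c74_P_next h hf hb⟩
    rw [k5] at hb hf
    have h5 := S.lt_rho t ht.le g hg.1.2.1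
    by_cases hbg : b < g
    · refine ⟨w, h.1, ?_, ?_, ?_⟩
      · rw [k4]
        exact hf.mono le_rfl h5.le
      · rw [k4]
        exact hb.sub le_rfl hb.1 hbg h5.le
      · rintro (⟨q, hq, _⟩ | ⟨g', hg', hn⟩)
        · exact Sys.not_kp_kl h hq
        · have e := Sys.kl_inj hg' hg
          rw [e] at hn
          exact hn (hf.mono k2.le le_rfl)
    · refine ⟨g, hg.1, hf.mono k2.le le_rfl, hb.sub k2.le (by omega) hb.2.1 le_rfl, ?_⟩
      rintro (⟨q, hq, hn⟩ | ⟨g', hg', hn⟩)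
      · have e : q = w := by
          have e1 := hq.2.2
          have e2 := hg.2.2
          omega
        rw [e] at hn
        exact hn (hf.mono le_rfl h5.le)
      · exact Sys.not_kp_kl (Sys.kl_facts hg').1 hg
  · have e := c74_kp_rho h (fun g hg => hk ⟨g, hg⟩)
    obtain ⟨b, hb⟩ := B.exists_IsG ht.le h2 h1 h4
    refine ⟨b, ?_, hb, c74_P_next h hf hb⟩
    rw [e] at hb hf
    refine ⟨w, h.1, hf, hb, ?_⟩
    rintro (⟨q, hq, hn⟩ | ⟨g', hg', hn⟩)
    · exact Sys.not_kp_kl h hq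
    · exact hk ⟨g', hg'⟩

/-- inner gaps of a free interval -/
theorem c74_gs (ht : t < S.m) (h : B.Fr t u v) (h1 : u ≤ s) (h2 : s < v) (h3 : 0 < u)
    (hv : v ≤ S.top) : s ∈ gs S := by
  have h4 := B.tau_last t ht
  have h5 := h s h1 h2
  have h6 : s ≠ S.top - 1 := by
    intro e
    rw [e] at h5
    exact h5 h4
  simp only [Blk.gs, Finset.mem_Ioo]
  omega

theorem c74_mt (h : S.Kl t g p) (hf : B.Fr t p (S.rho t g)) :
    ∃ a b, B.Mt t g p a b ∧ B.om t a ≠ B.om t b ∧ a ∈ gs S ∧ b ∈ gs S := by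
  obtain ⟨k1, k2, k3, k4, k5, _⟩ := Sys.kl_facts h
  have ht := h.1.1
  have h1 := rho_le (S := S) ht.le h.1.2.1
  have h2 := S.lt_rho t ht.le g h.1.2.1
  have h3 := S.key p k1.1.2.1
  obtain ⟨a, ha⟩ := B.exists_IsG ht.le h2 h1 (by omega)
  obtain ⟨b, hb⟩ := B.exists_IsG ht.le k2 (by omega) (by omega)
  have a1 := ha.1
  have a2 := hb.2.1
  exact ⟨a, b, ⟨h, hf, ha, hb⟩, (IsG.om_ne ht.le h1 hb ha (by omega)).symm,
    c74_gs ht hf (by omega) ha.2.1 h3.1 h1, c74_gs ht hf hb.1 (by omega) h3.1 h1⟩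

/-- A touched player is LOW or belongs to a kept node. -/
theorem c74_low_or_kept (h : B.TR t a) : (∃ c, c ∈ gs S ∧ B.LoR t a c) ∨
    ∃ v, S.Kp t v ∧ B.Fr t v (S.rho (t + 1) v) ∧ B.IsG t v (S.rho (t + 1) v) a := by
  obtain ⟨v, hR, hf, hG, hb⟩ := h
  have ht := hR.1
  rcases Sys.kp_or_kl hR with hk | ⟨p, hk⟩
  · by_cases hg : ∃ g, S.Kl t g v
    · obtain ⟨g, hg⟩ := hg
      obtain ⟨k1, k2, k3, k4, k5, _⟩ := Sys.kl_facts hg
      have hfg : B.Fr t g (S.rho t g) := by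
        by_contra hn
        exact hb (Or.inr ⟨g, hg, hn⟩)
      rw [k4] at hf hG
      have hff := hf.union hfg
      obtain ⟨a', b', hm, hne, ha', hb'⟩ := c74_mt hg hff
      have e : b' = a := hm.2.2.2.unique hG
      subst e
      rcases Nat.lt_or_gt_of_ne hne with c | c
      · right
        refine ⟨v, hk, ?_, ?_⟩
        · rw [k5]
          exact hff
        · rw [k5]
          exact hG.join_gt hm.2.2.1 c
      · left
        exact ⟨a', ha', ⟨g, v, Or.inr hm⟩, c⟩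
    · right
      have e := c74_kp_rho hk (fun g hg' => hg ⟨g, hg'⟩)
      refine ⟨v, hk, ?_, ?_⟩
      · rw [e]
        exact hf
      · rw [e]
        exact hG
  · have hfp : B.Fr t p v := by
      by_contra hn
      exact hb (Or.inl ⟨p, hk, hn⟩)
    have hff := hfp.union hf
    obtain ⟨k1, k2, k3, k4, k5, _⟩ := Sys.kl_facts hk
    obtain ⟨a', b', hm, hne, ha', hb'⟩ := c74_mt hk hff
    have e : a' = a := hm.2.2.1.unique hG
    subst e
    rcases Nat.lt_or_gt_of_ne hne with c | c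
    · left
      exact ⟨b', hb', ⟨v, p, Or.inl hm⟩, c⟩
    · right
      refine ⟨p, k1, ?_, ?_⟩
      · rw [k5]
        exact hff
      · rw [k5]
        exact hm.2.2.2.join_lt hG c

/-! ### counting -/

open scoped Classical in
/-- The number of pairs (time, inner gap) with the property `Pr`. -/
noncomputable def ct (S : Sys) (Pr : ℕ → ℕ → Prop) : ℕ :=
  ((Finset.range S.m ×ˢ gs S).filter (fun q => Pr q.1 q.2)).card

/-- The pairs (time, touched gap). -/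
def tset (B : Blk S) : Finset (Σ _ : ℕ, ℕ) := (Finset.range S.m).sigma (fun t => B.tau t)

theorem card_tset (B : Blk S) : B.tset.card = B.tot := by
  unfold tset tot
  rw [Finset.card_sigma]

theorem mem_tset {B : Blk S} : (⟨t, r⟩ : Σ _ : ℕ, ℕ) ∈ B.tset ↔ t < S.m ∧ r ∈ B.tau t := by
  simp [tset]

theorem c74_card {α β : Type*} (s : Finset α) (t : Finset β) (R : α → β → Prop)
    (h1 : ∀ a ∈ s, ∃ b ∈ t, R a b) (h2 : ∀ a ∈ s, ∀ a' ∈ s, ∀ b ∈ t, R a b → R a' b → a = a') :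
    s.card ≤ t.card := by
  classical
  refine Finset.card_le_card_of_forall_subsingleton R (fun a ha => ?_) (fun b hb => ?_)
  · obtain ⟨b, hb1, hb2⟩ := h1 a ha
    exact ⟨b, hb1, hb2⟩
  · intro a ha a' ha'
    exact h2 a ha.1 a' ha'.1 b hb ha.2 ha'.2

theorem ct_mono {P Q : ℕ → ℕ → Prop} (h : ∀ t s, t < S.m → s ∈ gs S → P t s → Q t s) :
    ct S P ≤ ct S Q := by
  classical
  unfold ct
  apply Finset.card_le_card
  intro q hq
  simp only [Finset.mem_filter, Finset.mem_product, Finset.mem_range] at hq ⊢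
  exact ⟨hq.1, h _ _ hq.1.1 hq.1.2 hq.2⟩

theorem ct_or (P Q : ℕ → ℕ → Prop) : ct S (fun t s => P t s ∨ Q t s) ≤ ct S P + ct S Q := by
  classical
  unfold ct
  refine le_trans (Finset.card_le_card ?_) (Finset.card_union_le _ _)
  intro q hq
  simp only [Finset.mem_filter, Finset.mem_product, Finset.mem_range, Finset.mem_union] at hq ⊢
  rcases hq.2 with h | h
  · exact Or.inl ⟨hq.1, h⟩
  · exact Or.inr ⟨hq.1, h⟩

theorem ct_add {P Q R : ℕ → ℕ → Prop} (h1 : ∀ t s, t < S.m → s ∈ gs S → P t s → R t s)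
    (h2 : ∀ t s, t < S.m → s ∈ gs S → Q t s → R t s)
    (h3 : ∀ t s, t < S.m → s ∈ gs S → P t s → Q t s → False) :
    ct S P + ct S Q ≤ ct S R := by
  classical
  unfold ct
  rw [← Finset.card_union_of_disjoint]
  · apply Finset.card_le_card
    intro q hq
    simp only [Finset.mem_filter, Finset.mem_product, Finset.mem_range, Finset.mem_union] at hq ⊢
    rcases hq with h | h
    · exact ⟨h.1, h1 _ _ h.1.1 h.1.2 h.2⟩
    · exact ⟨h.1, h2 _ _ h.1.1 h.1.2 h.2⟩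
  · rw [Finset.disjoint_left]
    intro q hq hq'
    simp only [Finset.mem_filter, Finset.mem_product, Finset.mem_range] at hq hq'
    exact h3 _ _ hq.1.1 hq.1.2 hq.2 hq'.2

theorem c74_fl_gs (h : s ∈ gs S) : fl S s ∈ gs S ∧ fl S (fl S s) = s := by
  unfold gs fl at *
  rw [Finset.mem_Ioo] at h ⊢
  omega

theorem ct_mir (Pr : ℕ → ℕ → Prop) : ct S (fun t s => Pr t (fl S s)) = ct S.mir Pr := by
  classical
  have e1 : gs S.mir = gs S := rfl
  have e2 : S.mir.m = S.m := rfl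
  unfold ct
  rw [e1, e2]
  apply le_antisymm
  · refine Finset.card_le_card_of_injOn (fun q => (q.1, fl S q.2)) ?_ ?_
    · intro q hq
      simp only [Finset.coe_filter, Finset.mem_product, Finset.mem_range,
        Set.mem_ofPred_eq] at hq ⊢
      exact ⟨⟨hq.1.1, (c74_fl_gs hq.1.2).1⟩, hq.2⟩
    · intro q hq q' hq' e
      simp only [Finset.coe_filter, Finset.mem_product, Finset.mem_range,
        Set.mem_ofPred_eq] at hq hq'
      simp only [Prod.mk.injEq] at e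
      have e3 := congrArg (fl S) e.2
      rw [(c74_fl_gs hq.1.2).2, (c74_fl_gs hq'.1.2).2] at e3
      exact Prod.ext e.1 e3
  · refine Finset.card_le_card_of_injOn (fun q => (q.1, fl S q.2)) ?_ ?_
    · intro q hq
      simp only [Finset.coe_filter, Finset.mem_product, Finset.mem_range,
        Set.mem_ofPred_eq] at hq ⊢
      refine ⟨⟨hq.1.1, (c74_fl_gs hq.1.2).1⟩, ?_⟩
      rw [(c74_fl_gs hq.1.2).2]
      exact hq.2
    · intro q hq q' hq' e
      simp only [Finset.coe_filter, Finset.mem_product, Finset.mem_range,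
        Set.mem_ofPred_eq] at hq hq'
      simp only [Prod.mk.injEq] at e
      have e3 := congrArg (fl S) e.2
      rw [(c74_fl_gs hq.1.2).2, (c74_fl_gs hq'.1.2).2] at e3
      exact Prod.ext e.1 e3

theorem mir_tot (B : Blk S) : B.mir.tot ≤ B.tot := by
  unfold tot
  have e : S.mir.m = S.m := rfl
  rw [e]
  exact Finset.sum_le_sum fun t _ => Finset.card_image_le

/-- counting by a relation into the touched gaps -/
theorem ct_le_tot (B : Blk S) {Pr : ℕ → ℕ → Prop} (R : ℕ → ℕ → ℕ → Prop)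
    (h1 : ∀ t s, t < S.m → s ∈ gs S → Pr t s → ∃ r ∈ B.tau t, R t s r)
    (h2 : ∀ t s s' r, t < S.m → R t s r → R t s' r → s = s') : ct S Pr ≤ B.tot := by
  classical
  rw [← card_tset]
  unfold ct
  refine c74_card _ _ (fun q z => q.1 = z.1 ∧ R q.1 q.2 z.2) ?_ ?_
  · intro q hq
    simp only [Finset.mem_filter, Finset.mem_product, Finset.mem_range] at hq
    obtain ⟨r, hr1, hr2⟩ := h1 _ _ hq.1.1 hq.1.2 hq.2
    exact ⟨⟨q.1, r⟩, mem_tset.2 ⟨hq.1.1, hr1⟩, rfl, hr2⟩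
  · intro q hq q' hq' z _ h3 h4
    simp only [Finset.mem_filter, Finset.mem_product, Finset.mem_range] at hq hq'
    have e : q.1 = q'.1 := h3.1.trans h4.1.symm
    refine Prod.ext e (h2 q.1 _ _ z.2 hq.1.1 h3.2 ?_)
    rw [e]
    exact h4.2

/-! ### I3 -/

theorem ct_RR (B : Blk S) : ct S B.RR ≤ 2 * B.tot := by
  have h1 : ct S (fun t s => ∃ v, B.IsG t v (S.rho t v) s ∧ ∃ p, S.Kl t v p ∧ ¬ B.Fr t p v) ≤
      B.tot := by
    refine ct_le_tot B (fun t s r => ∃ v p, S.Kl t v p ∧ B.IsG t v (S.rho t v) s ∧ p ≤ r ∧ r < v)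
      ?_ ?_
    · rintro t s _ _ ⟨v, h2, p, h3, h4⟩
      obtain ⟨r, h5, h6, h7⟩ := not_Fr h4
      exact ⟨r, h5, v, p, h3, h2, h6, h7⟩
    · rintro t s s' r ht ⟨v, p, h3, h2, h6, h7⟩ ⟨v', p', h3', h2', h6', h7'⟩
      have a1 := S.lt_rho t ht.le v h3.1.2.1
      have a2 := S.lt_rho t ht.le v' h3'.1.2.1
      rcases lt_trichotomy v v' with c | c | c
      · have := c74_kl_disj h3 h3' c
        omega
      · subst c
        exact h2.unique h2'
      · have := c74_kl_disj h3' h3 c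
        omega
  have h2 : ct S (fun t s => ∃ v, B.IsG t v (S.rho t v) s ∧
      ∃ g, S.Kl t g v ∧ ¬ B.Fr t g (S.rho t g)) ≤ B.tot := by
    refine ct_le_tot B (fun t s r => ∃ v g, S.Kl t g v ∧ B.IsG t v (S.rho t v) s ∧ g ≤ r ∧
      r < S.rho t g) ?_ ?_
    · rintro t s _ _ ⟨v, h2, p, h3, h4⟩
      obtain ⟨r, h5, h6, h7⟩ := not_Fr h4
      exact ⟨r, h5, v, p, h3, h2, h6, h7⟩
    · rintro t s s' r ht ⟨v, g, h3, h2, h6, h7⟩ ⟨v', g', h3', h2', h6', h7'⟩
      have k1 := (Sys.kl_facts h3).2.1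
      have k2 := (Sys.kl_facts h3').2.1
      rcases lt_trichotomy g g' with c | c | c
      · have := c74_kl_disj h3 h3' c
        omega
      · subst c
        have e : v = v' := by
          have e1 := h3.2.2
          have e2 := h3'.2.2
          omega
        subst e
        exact h2.unique h2'
      · have := c74_kl_disj h3' h3 c
        omega
  have h3 : ct S B.RR ≤ ct S (fun t s =>
      (∃ v, B.IsG t v (S.rho t v) s ∧ ∃ p, S.Kl t v p ∧ ¬ B.Fr t p v) ∨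
      (∃ v, B.IsG t v (S.rho t v) s ∧ ∃ g, S.Kl t g v ∧ ¬ B.Fr t g (S.rho t g))) := by
    apply ct_mono
    rintro t s _ _ ⟨v, h4, h5, h6, h7 | h7⟩
    · exact Or.inl ⟨v, h6, h7⟩
    · exact Or.inr ⟨v, h6, h7⟩
  have h4 := ct_or (S := S) (fun t s => ∃ v, B.IsG t v (S.rho t v) s ∧
    ∃ p, S.Kl t v p ∧ ¬ B.Fr t p v) (fun t s => ∃ v, B.IsG t v (S.rho t v) s ∧
    ∃ g, S.Kl t g v ∧ ¬ B.Fr t g (S.rho t g))
  omega

theorem ct_Rs (B : Blk S) : ct S B.Rs ≤ 5 * B.tot := by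
  have h1 : ct S (fun t s => s ∈ B.tau t) ≤ B.tot :=
    ct_le_tot B (fun t s r => s = r) (fun t s _ _ h => ⟨s, h, rfl⟩)
      (fun t s s' r _ h h' => h.trans h'.symm)
  have h2 := ct_RR B
  have h3 := ct_RR B.mir
  have h4 := mir_tot B
  have h5 := ct_mir (S := S) B.mir.RR
  have h6 : ct S B.Rs ≤ ct S (fun t s => s ∈ B.tau t ∨ (B.RR t s ∨ B.mir.RR t (fl S s))) :=
    ct_mono fun t s _ _ h => h.2.2
  have h7 := ct_or (S := S) (fun t s => s ∈ B.tau t)
    (fun t s => B.RR t s ∨ B.mir.RR t (fl S s))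
  have h8 := ct_or (S := S) B.RR (fun t s => B.mir.RR t (fl S s))
  omega

/-- `a` is kept without a kept upper neighbour, right side -/
def TopR (B : Blk S) (t a : ℕ) : Prop :=
  B.TR t a ∧ (∀ c, c ∈ gs S → ¬ B.LoR t a c) ∧ ∀ b, b ∈ gs S → ¬ B.NxR t a b

/-- `b` is kept without a kept lower neighbour, right side -/
def BotR (B : Blk S) (t b : ℕ) : Prop :=
  B.TR t b ∧ (∀ c, c ∈ gs S → ¬ B.LoR t b c) ∧ ∀ a, a ∈ gs S → ¬ B.NxR t a b

theorem ct_TopR (B : Blk S) : ct S B.TopR ≤ B.tot := by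
  refine ct_le_tot B (fun t s r => ∃ v, S.Kp t v ∧ B.IsG t v (S.rho (t + 1) v) s ∧
    S.Kp t (S.rho (t + 1) v) ∧ S.rho (t + 1) v ≤ r ∧ r < S.rho (t + 1) (S.rho (t + 1) v)) ?_ ?_
  · rintro t a ht _ ⟨h1, h2, h3⟩
    rcases c74_low_or_kept h1 with ⟨c, hc, h4⟩ | ⟨v, hv, hf, hG⟩
    · exact absurd h4 (h2 c hc)
    · have b1 := S.lt_rho (t + 1) ht v hv.1.2.1
      have b2 := S.key v hv.1.2.1
      have hK : S.rho (t + 1) v ∈ S.K := by
        rcases S.rho_mem (t + 1) ht v hv.1.2.1 with e | e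
        · exfalso
          exact hf (S.top - 1) (by omega) (by omega) (B.tau_last t ht)
        · exact e
      have hw := c74_kp_next hv hK
      have hn : ¬ B.Fr t (S.rho (t + 1) v) (S.rho (t + 1) (S.rho (t + 1) v)) := by
        intro hf'
        obtain ⟨b, hb1, hb2, hb3⟩ := c74_kept_player hw hf'
        exact h3 b (hb3.gs ht) ⟨h1, hb1, v, hK, c74_P_next hv hf hG, hb3, hv.2, hw.2⟩
      obtain ⟨r, h5, h6, h7⟩ := not_Fr hn
      exact ⟨r, h5, v, hv, hG, hw, h6, h7⟩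
  · rintro t s s' r ht ⟨v, a1, a2, a3, a4, a5⟩ ⟨v', b1, b2, b3, b4, b5⟩
    have e : S.rho (t + 1) v = S.rho (t + 1) v' := by
      rcases lt_trichotomy (S.rho (t + 1) v) (S.rho (t + 1) v') with c | c | c
      · have := c74_kp_disj a3 b3 c
        omega
      · exact c
      · have := c74_kp_disj b3 a3 c
        omega
    have k1 := S.lt_rho (t + 1) ht v a1.1.2.1
    have k2 := S.lt_rho (t + 1) ht v' b1.1.2.1
    rcases lt_trichotomy v v' with c | c | c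
    · have := c74_kp_disj a1 b1 c
      omega
    · subst c
      exact a2.unique b2
    · have := c74_kp_disj b1 a1 c
      omega

theorem ct_BotR (B : Blk S) : ct S B.BotR ≤ B.tot := by
  refine ct_le_tot B (fun t s r => ∃ v, S.Kp t v ∧ B.IsG t v (S.rho (t + 1) v) s ∧
    ((r = S.X t ∧ ∀ w, w < v → ¬ S.Kp t w) ∨
      ∃ w, S.Kp t w ∧ S.rho (t + 1) w = v ∧ w ≤ r ∧ r < v)) ?_ ?_
  · rintro t a ht _ ⟨h1, h2, h3⟩
    rcases c74_low_or_kept h1 with ⟨c, hc, h4⟩ | ⟨v, hv, hf, hG⟩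
    · exact absurd h4 (h2 c hc)
    · by_cases hex : ∃ w, w < v ∧ S.Kp t w
      · obtain ⟨w, hw, hwv⟩ := c74_kp_below hv hex
        have hn : ¬ B.Fr t w (S.rho (t + 1) w) := by
          intro hf'
          obtain ⟨b, hb1, hb2, hb3⟩ := c74_kept_player hw hf'
          refine h3 b (hb3.gs ht) ⟨hb1, h1, w, ?_, hb3, ?_, hw.2, ?_⟩
          · rw [hwv]
            exact hv.1.2.1
          · rw [hwv]
            exact c74_P_next hv hf hG
          · rw [hwv]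
            exact hv.2
        obtain ⟨r, h5, h6, h7⟩ := not_Fr hn
        rw [hwv] at h7
        exact ⟨r, h5, v, hv, hG, Or.inr ⟨w, hw, hwv, h6, h7⟩⟩
      · exact ⟨S.X t, (B.tau_X t ht).2, v, hv, hG, Or.inl ⟨rfl, fun w hw hw' =>
          hex ⟨w, hw, hw'⟩⟩⟩
  · rintro t s s' r ht ⟨v, a1, a2, a3⟩ ⟨v', b1, b2, b3⟩
    have e : v = v' := by
      rcases a3 with ⟨a3, a4⟩ | ⟨w, a3, a4, a5, a6⟩
      · rcases b3 with ⟨b3, b4⟩ | ⟨w', b3, b4, b5, b6⟩
        · rcases lt_trichotomy v v' with c | c | c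
          · exact absurd a1 (b4 v c)
          · exact c
          · exact absurd b1 (a4 v' c)
        · have := b3.1.2.2.1
          omega
      · rcases b3 with ⟨b3, b4⟩ | ⟨w', b3, b4, b5, b6⟩
        · have := a3.1.2.2.1
          omega
        · rcases lt_trichotomy w w' with c | c | c
          · have := c74_kp_disj a3 b3 c
            omega
          · subst c
            omega
          · have := c74_kp_disj b3 a3 c
            omega
    subst e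
    exact a2.unique b2

/-- a touched token which is not LOW -/
def Kt' (B : Blk S) (t a : ℕ) : Prop := B.Tc t a ∧ ∀ b, ¬ B.Lo t a b

theorem c74_side (h : B.Kt' t a) : (B.TR t a ∧ ∀ c, c ∈ gs S → ¬ B.LoR t a c) ∨
    (B.mir.TR t (fl S a) ∧ ∀ c, c ∈ gs S.mir → ¬ B.mir.LoR t (fl S a) c) := by
  obtain ⟨⟨h1, h2, h3⟩, h4⟩ := h
  rcases h3 with h3 | h3
  · left
    exact ⟨h3, fun c hc hl => h4 c ⟨h1, h2, hc, Or.inl hl⟩⟩
  · right
    refine ⟨h3, fun c hc hl => ?_⟩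
    have hc' : c ∈ gs S := hc
    refine h4 (fl S c) ⟨h1, h2, (c74_fl_gs hc').1, Or.inr ?_⟩
    rw [(c74_fl_gs hc').2]
    exact hl

theorem ct_top (B : Blk S) : ct S (fun t a => B.Kt' t a ∧ ∀ b, ¬ B.Nx t a b) ≤ 2 * B.tot := by
  have h1 : ct S (fun t a => B.Kt' t a ∧ ∀ b, ¬ B.Nx t a b) ≤
      ct S (fun t a => B.TopR t a ∨ B.mir.TopR t (fl S a)) := by
    apply ct_mono
    rintro t a ht ha ⟨h1, h2⟩
    rcases c74_side h1 with ⟨h3, h4⟩ | ⟨h3, h4⟩
    · exact Or.inl ⟨h3, h4, fun b hb hn => h2 b ⟨ht, ha, hb, Or.inl hn⟩⟩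
    · refine Or.inr ⟨h3, h4, fun b hb hn => ?_⟩
      have hb' : b ∈ gs S := hb
      refine h2 (fl S b) ⟨ht, ha, (c74_fl_gs hb').1, Or.inr ?_⟩
      rw [(c74_fl_gs hb').2]
      exact hn
  have h2 := ct_or (S := S) B.TopR (fun t a => B.mir.TopR t (fl S a))
  have h3 := ct_mir (S := S) B.mir.TopR
  have h4 := ct_TopR B
  have h5 := ct_TopR B.mir
  have h6 := mir_tot B
  omega

theorem ct_bot (B : Blk S) : ct S (fun t b => B.Kt' t b ∧ ∀ a, ¬ B.Nx t a b) ≤ 2 * B.tot := by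
  have h1 : ct S (fun t b => B.Kt' t b ∧ ∀ a, ¬ B.Nx t a b) ≤
      ct S (fun t a => B.BotR t a ∨ B.mir.BotR t (fl S a)) := by
    apply ct_mono
    rintro t a ht ha ⟨h1, h2⟩
    rcases c74_side h1 with ⟨h3, h4⟩ | ⟨h3, h4⟩
    · exact Or.inl ⟨h3, h4, fun b hb hn => h2 b ⟨ht, hb, ha, Or.inl hn⟩⟩
    · refine Or.inr ⟨h3, h4, fun b hb hn => ?_⟩
      have hb' : b ∈ gs S := hb
      refine h2 (fl S b) ⟨ht, (c74_fl_gs hb').1, ha, Or.inr ?_⟩
      rw [(c74_fl_gs hb').2]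
      exact hn
  have h2 := ct_or (S := S) B.BotR (fun t a => B.mir.BotR t (fl S a))
  have h3 := ct_mir (S := S) B.mir.BotR
  have h4 := ct_BotR B
  have h5 := ct_BotR B.mir
  have h6 := mir_tot B
  omega

/-! ### I6 -/

/-- `a` is LOW in a match on the right side -/
def LowR (B : Blk S) (t a : ℕ) : Prop := ∃ c, c ∈ gs S ∧ B.LoR t a c

theorem cnt_le_tot (B : Blk S) {Pr : ℕ → ℕ → Prop} (R : ℕ → ℕ → ℕ → Prop)
    (h1 : ∀ t v, t < S.m → v ∈ S.K → Pr t v → ∃ r ∈ B.tau t, R t v r)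
    (h2 : ∀ t v v' r, t < S.m → R t v r → R t v' r → v = v') : S.cnt Pr ≤ B.tot := by
  classical
  rw [← card_tset]
  unfold Sys.cnt
  refine c74_card _ _ (fun q z => q.1 = z.1 ∧ R q.1 q.2 z.2) ?_ ?_
  · intro q hq
    rw [Sys.mem_set] at hq
    obtain ⟨r, hr1, hr2⟩ := h1 _ _ hq.1 hq.2.1 hq.2.2
    exact ⟨⟨q.1, r⟩, mem_tset.2 ⟨hq.1, hr1⟩, rfl, hr2⟩
  · intro q hq q' hq' z _ h3 h4
    rw [Sys.mem_set] at hq hq'
    have e : q.1 = q'.1 := h3.1.trans h4.1.symm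
    refine Prod.ext e (h2 q.1 _ _ z.2 hq.1 h3.2 ?_)
    rw [e]
    exact h4.2

theorem cnt_le_ct {Pr Qr : ℕ → ℕ → Prop} (R : ℕ → ℕ → ℕ → Prop)
    (h1 : ∀ t v, t < S.m → v ∈ S.K → Pr t v → ∃ r ∈ gs S, Qr t r ∧ R t v r)
    (h2 : ∀ t v v' r, t < S.m → R t v r → R t v' r → v = v') : S.cnt Pr ≤ ct S Qr := by
  classical
  unfold Sys.cnt ct
  refine c74_card _ _ (fun q z => q.1 = z.1 ∧ R q.1 q.2 z.2) ?_ ?_
  · intro q hq
    rw [Sys.mem_set] at hq
    obtain ⟨r, hr1, hr2, hr3⟩ := h1 _ _ hq.1 hq.2.1 hq.2.2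
    refine ⟨(q.1, r), ?_, rfl, hr3⟩
    simp only [Finset.mem_filter, Finset.mem_product, Finset.mem_range]
    exact ⟨⟨hq.1, hr1⟩, hr2⟩
  · intro q hq q' hq' z _ h3 h4
    rw [Sys.mem_set] at hq hq'
    have e : q.1 = q'.1 := h3.1.trans h4.1.symm
    refine Prod.ext e (h2 q.1 _ _ z.2 hq.1 h3.2 ?_)
    rw [e]
    exact h4.2

theorem cnt_or (P Q : ℕ → ℕ → Prop) : S.cnt (fun t s => P t s ∨ Q t s) ≤ S.cnt P + S.cnt Q := by
  classical
  unfold Sys.cnt
  refine le_trans (Finset.card_le_card ?_) (Finset.card_union_le _ _)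
  intro q hq
  rw [Finset.mem_union, Sys.mem_set, Sys.mem_set]
  rw [Sys.mem_set] at hq
  rcases hq.2.2 with h | h
  · exact Or.inl ⟨hq.1, hq.2.1, h⟩
  · exact Or.inr ⟨hq.1, hq.2.1, h⟩

theorem cnt_mono {P Q : ℕ → ℕ → Prop} (h : ∀ t s, t < S.m → s ∈ S.K → P t s → Q t s) :
    S.cnt P ≤ S.cnt Q := by
  classical
  unfold Sys.cnt
  apply Finset.card_le_card
  intro q hq
  rw [Sys.mem_set] at hq ⊢
  exact ⟨hq.1, hq.2.1, h _ _ hq.1 hq.2.1 hq.2.2⟩

theorem NR_le (B : Blk S) : S.NR ≤ ct S B.LowR + B.tot := by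
  have h1 : S.cnt (fun t g => ∃ p, S.Kl t g p ∧ B.Fr t p (S.rho t g)) ≤ ct S B.LowR := by
    refine cnt_le_ct (fun t g r => ∃ p, S.Kl t g p ∧ p ≤ r ∧ r < S.rho t g) ?_ ?_
    · rintro t g ht _ ⟨p, hk, hf⟩
      obtain ⟨a, b, hm, hne, ha, hb⟩ := c74_mt hk hf
      have k1 := (Sys.kl_facts hk).2.1
      have k2 := S.lt_rho t ht.le g hk.1.2.1
      have a1 := hm.2.2.1.1
      have a2 := hm.2.2.1.2.1
      have b1 := hm.2.2.2.1
      have b2 := hm.2.2.2.2.1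
      rcases Nat.lt_or_gt_of_ne hne with c | c
      · exact ⟨a, ha, ⟨b, hb, ⟨g, p, Or.inl hm⟩, c⟩, p, hk, by omega, by omega⟩
      · exact ⟨b, hb, ⟨a, ha, ⟨g, p, Or.inr hm⟩, c⟩, p, hk, by omega, by omega⟩
    · rintro t g g' r ht ⟨p, hk, h3, h4⟩ ⟨p', hk', h3', h4'⟩
      rcases lt_trichotomy g g' with c | c | c
      · have := c74_kl_disj hk hk' c
        omega
      · exact c
      · have := c74_kl_disj hk' hk c
        omega
  have h2 : S.cnt (fun t g => ∃ p, S.Kl t g p ∧ ¬ B.Fr t p (S.rho t g)) ≤ B.tot := by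
    refine cnt_le_tot B (fun t g r => ∃ p, S.Kl t g p ∧ p ≤ r ∧ r < S.rho t g) ?_ ?_
    · rintro t g ht _ ⟨p, hk, hf⟩
      obtain ⟨r, h5, h6, h7⟩ := not_Fr hf
      exact ⟨r, h5, p, hk, h6, h7⟩
    · rintro t g g' r ht ⟨p, hk, h3, h4⟩ ⟨p', hk', h3', h4'⟩
      rcases lt_trichotomy g g' with c | c | c
      · have := c74_kl_disj hk hk' c
        omega
      · exact c
      · have := c74_kl_disj hk' hk c
        omega
  have h3 : S.NR ≤ S.cnt (fun t g => (∃ p, S.Kl t g p ∧ B.Fr t p (S.rho t g)) ∨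
      (∃ p, S.Kl t g p ∧ ¬ B.Fr t p (S.rho t g))) := by
    unfold Sys.NR
    apply cnt_mono
    rintro t g _ _ ⟨p, hk⟩
    by_cases hf : B.Fr t p (S.rho t g)
    · exact Or.inl ⟨p, hk, hf⟩
    · exact Or.inr ⟨p, hk, hf⟩
  have h4 := cnt_or (S := S) (fun t g => ∃ p, S.Kl t g p ∧ B.Fr t p (S.rho t g))
    (fun t g => ∃ p, S.Kl t g p ∧ ¬ B.Fr t p (S.rho t g))
  omega

theorem LowR_gt (h : B.LowR t a) : S.X t < a := by
  obtain ⟨c, _, ⟨g, p, hm | hm⟩, _⟩ := h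
  · have h1 := hm.2.2.1.1
    have h2 := hm.1.1.2.2.1
    omega
  · have h1 := hm.2.2.2.1
    have h2 := hm.1.2.1
    omega

theorem ct_kills (B : Blk S) :
    S.NR + S.mir.NR ≤ ct S (fun t a => ∃ b, B.Lo t a b) + 2 * B.tot := by
  have h1 := NR_le B
  have h2 := NR_le B.mir
  have h3 := mir_tot B
  have h4 := ct_mir (S := S) B.mir.LowR
  have h5 : ct S B.LowR + ct S (fun t a => B.mir.LowR t (fl S a)) ≤
      ct S (fun t a => ∃ b, B.Lo t a b) := by
    apply ct_add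
    · rintro t a ht ha ⟨c, hc, h⟩
      exact ⟨c, ht, ha, hc, Or.inl h⟩
    · rintro t a ht ha ⟨c, hc, h⟩
      have hc' : c ∈ gs S := hc
      refine ⟨fl S c, ht, ha, (c74_fl_gs hc').1, Or.inr ?_⟩
      rw [(c74_fl_gs hc').2]
      exact h
    · intro t a ht ha h h'
      have a1 := LowR_gt h
      have a2 := LowR_gt h'
      change S.top - S.X t < fl S a at a2
      have a3 := S.key _ (S.req t ht)
      unfold fl at a2
      omega
  omega

/-! ### I7 -/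

theorem ct_TR (B : Blk S) : ct S B.TR ≤ S.NR + S.KR := by
  classical
  have h1 : ct S B.TR ≤ S.cnt S.R := by
    unfold Sys.cnt ct
    refine c74_card _ _ (fun q z => q.1 = z.1 ∧ B.IsG q.1 z.2 (S.rho q.1 z.2) q.2) ?_ ?_
    · intro q hq
      simp only [Finset.mem_filter, Finset.mem_product, Finset.mem_range] at hq
      obtain ⟨v, hR, hf, hG, _⟩ := hq.2
      exact ⟨(q.1, v), Sys.mem_set.2 ⟨hq.1.1, hR.2.1, hR⟩, rfl, hG⟩
    · intro q _ q' _ z _ h3 h4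
      have e : q.1 = q'.1 := h3.1.trans h4.1.symm
      refine Prod.ext e (h3.2.unique ?_)
      rw [e]
      exact h4.2
  have h2 : S.cnt S.R ≤ S.cnt (fun t g => (∃ p, S.Kl t g p) ∨ S.Kp t g) := by
    apply cnt_mono
    intro t g _ _ h
    rcases Sys.kp_or_kl h with h | h
    · exact Or.inr h
    · exact Or.inl h
  have h3 := cnt_or (S := S) (fun t g => ∃ p, S.Kl t g p) S.Kp
  unfold Sys.NR Sys.KR
  omega

theorem ct_Tc (B : Blk S) : ct S B.Tc ≤ (S.NR + S.KR) + (S.mir.NR + S.mir.KR) := by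
  have h1 : ct S B.Tc ≤ ct S (fun t a => B.TR t a ∨ B.mir.TR t (fl S a)) :=
    ct_mono fun t s _ _ h => h.2.2
  have h2 := ct_or (S := S) B.TR (fun t a => B.mir.TR t (fl S a))
  have h3 := ct_mir (S := S) B.mir.TR
  have h4 := ct_TR B
  have h5 := ct_TR B.mir
  omega

/-! ### I5 -/

theorem c74_P_step (ht : t < S.m) (h : B.P t s v) (hs : s ∉ B.tau t) (hE : ¬ S.E t v) :
    B.P (t + 1) s v := by
  obtain ⟨hv, h1, r, h2, h3, h4⟩ := h
  have e := Sys.untouched ht hv hE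
  have h5 := rho_le (S := S) ht.le hv
  have hf := h1.free ht h5 hs
  unfold P
  rw [e.1, e.2]
  refine ⟨hv, (hf.IsG_iff ht h5).2 h1, ?_⟩
  have h6 := S.key v hv
  by_cases hq : ∃ q ∈ B.tau t, S.lam t v ≤ q ∧ q < v
  · obtain ⟨q, a1, a2, a3, _, a4⟩ := hf.high_left ht h5 hq
    exact ⟨q, a2, a3, (a4 s h1.1 h1.2.1).2⟩
  · refine ⟨r, h2, h3, ?_⟩
    have hr : r ∉ B.tau t := fun hr => hq ⟨r, hr, h2, h3⟩
    have h7 := h1.2.1
    rw [B.keep t ht r (by omega) hr, B.keep t ht s (by omega) hs]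
    exact h4

theorem c74_Q_step (ht : t < S.m) (h : B.Q t s v) (hs : s ∉ B.tau t) (hE : ¬ S.E t v) :
    B.Q (t + 1) s v := by
  obtain ⟨hv, h1, r, h2, h3, h4⟩ := h
  have e := Sys.untouched ht hv hE
  have h5 := rho_le (S := S) ht.le hv
  have h6 := S.key v hv
  have hf := h1.free ht h6.2.le hs
  unfold Q
  rw [e.1, e.2]
  refine ⟨hv, (hf.IsG_iff ht h6.2.le).2 h1, ?_⟩
  by_cases hq : ∃ q ∈ B.tau t, v ≤ q ∧ q < S.rho t v
  · obtain ⟨q, a1, a2, a3, _, a4⟩ := hf.high_right ht h6.2.le hq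
    exact ⟨q, a2, a3, (a4 s h1.1 h1.2.1).2⟩
  · refine ⟨r, h2, h3, ?_⟩
    have hr : r ∉ B.tau t := fun hr => hq ⟨r, hr, h2, h3⟩
    have h7 := h1.2.1
    rw [B.keep t ht r (by omega) hr, B.keep t ht s (by omega) hs]
    exact h4

/-- the player stays, with its sign, as long as nothing happens -/
theorem c74_stay (hst : s ≤ t) (ht : t ≤ S.m) (hE : S.NE v s t)
    (hs : ∀ r, s ≤ r → r < t → a ∉ B.tau r) :
    (B.P s a v → B.P t a v) ∧ (B.Q s a v → B.Q t a v) := by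
  induction t, hst using Nat.le_induction with
  | base => exact ⟨id, id⟩
  | succ t hst ih =>
    have h1 := ih (by omega) (hE.mono le_rfl (by omega)) (fun r hr1 hr2 => hs r hr1 (by omega))
    have h2 := hE t hst (by omega)
    have h3 := hs t hst (by omega)
    exact ⟨fun h => c74_P_step (by omega) (h1.1 h) h3 h2,
      fun h => c74_Q_step (by omega) (h1.2 h) h3 h2⟩

theorem c74_next_unique (h1 : s ≤ t) (h2 : S.NE v s t) (h3 : S.E t v) (h1' : s ≤ u)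
    (h2' : S.NE v s u) (h3' : S.E u v) : t = u := by
  rcases lt_trichotomy t u with c | c | c
  · exact absurd h3 (h2' t h1 c)
  · exact c
  · exact absurd h3' (h2 u h1' c)

/-- The left phases. -/
theorem QL_le (B : Blk S) :
    S.QL ≤ S.K.card + S.m + 2 * B.tot + ct S B.LowR + ct S B.RR := by
  classical
  -- no event before
  have c1 : S.cnt (fun t v => S.L t v ∧ S.NE v 0 t) ≤ S.K.card := by
    unfold Sys.cnt
    refine c74_card _ _ (fun q v => q.2 = v) ?_ ?_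
    · intro q hq
      rw [Sys.mem_set] at hq
      exact ⟨q.2, hq.2.1, rfl⟩
    · intro q hq q' hq' v _ h3 h4
      rw [Sys.mem_set] at hq hq'
      have e : q.2 = q'.2 := h3.trans h4.symm
      refine Prod.ext ?_ e
      have h5 := hq.2.2.2
      rw [e] at h5
      have h6 := Sys.L_E hq.2.2.1
      rw [e] at h6
      exact c74_next_unique (Nat.zero_le _) h5 h6 (Nat.zero_le _) hq'.2.2.2
        (Sys.L_E hq'.2.2.1)
  -- an access before
  have c2 : S.cnt (fun t v => S.L t v ∧ ∃ s, s < t ∧ S.Ac s v ∧ S.NE v (s + 1) t) ≤ S.m := by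
    unfold Sys.cnt
    have e0 : S.m = (Finset.range S.m).card := (Finset.card_range _).symm
    rw [e0]
    refine c74_card _ _ (fun q s => s < q.1 ∧ S.Ac s q.2 ∧ S.NE q.2 (s + 1) q.1 ∧
      S.L q.1 q.2) ?_ ?_
    · intro q hq
      rw [Sys.mem_set] at hq
      obtain ⟨h1, s, h2, h3, h4⟩ := hq.2.2
      exact ⟨s, Finset.mem_range.2 h3.1, h2, h3, h4, h1⟩
    · rintro q hq q' hq' s _ ⟨h3, h4, h5, h6⟩ ⟨h3', h4', h5', h6'⟩
      have e : q.2 = q'.2 := h4.2.2.trans h4'.2.2.symm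
      refine Prod.ext ?_ e
      rw [e] at h5 h6
      exact c74_next_unique h3 h5 (Sys.L_E h6) h3' h5' (Sys.L_E h6')
  -- the player is touched by the block process
  have c3 : S.cnt (fun t v => S.L t v ∧ ∃ r k, r ≤ t ∧ S.NE v r t ∧ k ∈ B.tau r ∧
      (B.P r k v ∨ B.Q r k v)) ≤ B.tot := by
    rw [← card_tset]
    unfold Sys.cnt
    refine c74_card _ _ (fun q z => z.1 ≤ q.1 ∧ S.NE q.2 z.1 q.1 ∧ S.L q.1 q.2 ∧
      (B.P z.1 z.2 q.2 ∨ B.Q z.1 z.2 q.2)) ?_ ?_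
    · intro q hq
      rw [Sys.mem_set] at hq
      obtain ⟨h1, r, k, h2, h3, h4, h5⟩ := hq.2.2
      exact ⟨⟨r, k⟩, mem_tset.2 ⟨by omega, h4⟩, h2, h3, h1, h5⟩
    · rintro q hq q' hq' z _ ⟨h3, h4, h5, h6⟩ ⟨h3', h4', h5', h6'⟩
      have e : q.2 = q'.2 := PQ.inj (by have := h5.1; omega) h6 h6'
      refine Prod.ext ?_ e
      rw [e] at h4 h5
      exact c74_next_unique h3 h4 (Sys.L_E h5) h3' h4' (Sys.L_E h5')
  -- the player was touched at the last event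
  have key : ∀ q q' : ℕ × ℕ, ∀ s k : ℕ,
      (s < q.1 ∧ S.NE q.2 (s + 1) q.1 ∧ S.L q.1 q.2 ∧ B.Q (s + 1) k q.2) →
      (s < q'.1 ∧ S.NE q'.2 (s + 1) q'.1 ∧ S.L q'.1 q'.2 ∧ B.Q (s + 1) k q'.2) → q = q' := by
    rintro q q' s k ⟨h3, h4, h5, h6⟩ ⟨h3', h4', h5', h6'⟩
    have e : q.2 = q'.2 := Q.inj (by have := h5.1; omega) h6 h6'
    refine Prod.ext ?_ e
    rw [e] at h4 h5
    exact c74_next_unique h3 h4 (Sys.L_E h5) h3' h4' (Sys.L_E h5')
  have c4 : S.cnt (fun t v => S.L t v ∧ ∃ s k, s < t ∧ S.NE v (s + 1) t ∧ k ∈ B.tau s ∧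
      B.Q (s + 1) k v) ≤ B.tot := by
    rw [← card_tset]
    unfold Sys.cnt
    refine c74_card _ _ (fun q z => z.1 < q.1 ∧ S.NE q.2 (z.1 + 1) q.1 ∧ S.L q.1 q.2 ∧
      B.Q (z.1 + 1) z.2 q.2) ?_ ?_
    · intro q hq
      rw [Sys.mem_set] at hq
      obtain ⟨h1, r, k, h2, h3, h4, h5⟩ := hq.2.2
      exact ⟨⟨r, k⟩, mem_tset.2 ⟨by omega, h4⟩, h2, h3, h1, h5⟩
    · rintro q hq q' hq' z _ h h'
      exact key q q' z.1 z.2 h h'
  have c5 : S.cnt (fun t v => S.L t v ∧ ∃ s k, s < t ∧ S.NE v (s + 1) t ∧ B.LowR s k ∧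
      B.Q (s + 1) k v) ≤ ct S B.LowR := by
    unfold Sys.cnt ct
    refine c74_card _ _ (fun q z => z.1 < q.1 ∧ S.NE q.2 (z.1 + 1) q.1 ∧ S.L q.1 q.2 ∧
      B.Q (z.1 + 1) z.2 q.2) ?_ ?_
    · intro q hq
      rw [Sys.mem_set] at hq
      obtain ⟨h1, r, k, h2, h3, h4, h5⟩ := hq.2.2
      refine ⟨(r, k), ?_, h2, h3, h1, h5⟩
      simp only [Finset.mem_filter, Finset.mem_product, Finset.mem_range]
      exact ⟨⟨by omega, h5.gs (by omega)⟩, h4⟩
    · rintro q hq q' hq' z _ h h'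
      exact key q q' z.1 z.2 h h'
  have c6 : S.cnt (fun t v => S.L t v ∧ ∃ s k, s < t ∧ S.NE v (s + 1) t ∧ B.RR s k ∧
      B.Q (s + 1) k v) ≤ ct S B.RR := by
    unfold Sys.cnt ct
    refine c74_card _ _ (fun q z => z.1 < q.1 ∧ S.NE q.2 (z.1 + 1) q.1 ∧ S.L q.1 q.2 ∧
      B.Q (z.1 + 1) z.2 q.2) ?_ ?_
    · intro q hq
      rw [Sys.mem_set] at hq
      obtain ⟨h1, r, k, h2, h3, h4, h5⟩ := hq.2.2
      refine ⟨(r, k), ?_, h2, h3, h1, h5⟩
      simp only [Finset.mem_filter, Finset.mem_product, Finset.mem_range]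
      exact ⟨⟨by omega, h5.gs (by omega)⟩, h4⟩
    · rintro q hq q' hq' z _ h h'
      exact key q q' z.1 z.2 h h'
  -- the case distinction
  have main : ∀ t v, t < S.m → v ∈ S.K → S.LS t v →
      (S.L t v ∧ S.NE v 0 t) ∨
      ((S.L t v ∧ ∃ s, s < t ∧ S.Ac s v ∧ S.NE v (s + 1) t) ∨
      ((S.L t v ∧ ∃ r k, r ≤ t ∧ S.NE v r t ∧ k ∈ B.tau r ∧ (B.P r k v ∨ B.Q r k v)) ∨
      ((S.L t v ∧ ∃ s k, s < t ∧ S.NE v (s + 1) t ∧ k ∈ B.tau s ∧ B.Q (s + 1) k v) ∨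
      ((S.L t v ∧ ∃ s k, s < t ∧ S.NE v (s + 1) t ∧ B.LowR s k ∧ B.Q (s + 1) k v) ∨
      (S.L t v ∧ ∃ s k, s < t ∧ S.NE v (s + 1) t ∧ B.RR s k ∧ B.Q (s + 1) k v))))) := by
    intro t v ht hv hLS
    have hL := hLS.1
    by_cases h0 : S.NE v 0 t
    · exact Or.inl ⟨hL, h0⟩
    right
    have hex : ∃ s, s < t ∧ S.E s v := by
      by_contra hc
      apply h0
      intro s _ hs he
      exact hc ⟨s, hs, he⟩
    obtain ⟨s, hst, hs, hlast⟩ := Sys.exists_prev (P := fun a => S.E a v) hex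
    have hNE : S.NE v (s + 1) t := fun a ha hb => hlast a (by omega) hb
    rcases hs with hR | hLs | hAc
    · right
      have hsm := hR.1
      have hm1 := Sys.R_mono hR
      obtain ⟨k, hk⟩ := B.exists_PQ (t := s + 1) hsm hv (by omega)
      by_cases hr : ∃ r, s + 1 ≤ r ∧ r ≤ t ∧ k ∈ B.tau r
      · left
        have hr' := Nat.find_spec hr
        have hmin : ∀ a, a < Nat.find hr → ¬ (s + 1 ≤ a ∧ a ≤ t ∧ k ∈ B.tau a) :=
          fun a ha => Nat.find_min hr ha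
        refine ⟨hL, Nat.find hr, k, hr'.2.1, hNE.mono hr'.1 le_rfl, hr'.2.2, ?_⟩
        have h5 := c74_stay (B := B) (a := k) hr'.1 (by omega)
          (hNE.mono le_rfl hr'.2.1) (fun r h6 h7 h8 => hmin r h7 ⟨h6, by omega, h8⟩)
        rcases hk with hk | hk
        · exact Or.inl (h5.1 hk)
        · exact Or.inr (h5.2 hk)
      · right
        have h5 := c74_stay (B := B) (a := k) (s := s + 1) (t := t) hst (by omega) hNE
          (fun r h6 h7 h8 => hr ⟨r, h6, by omega, h8⟩)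
        have hkt : k ∉ B.tau t := fun h8 => hr ⟨t, hst, le_rfl, h8⟩
        have hQ : B.Q (s + 1) k v := by
          rcases hk with hk | hk
          · exfalso
            have h6 := (h5.1 hk).E_R hkt (Sys.L_E hL)
            exact Sys.not_R_L h6 hL
          · exact hk
        by_cases hks : k ∈ B.tau s
        · exact Or.inl ⟨hL, s, k, hst, hNE, hks, hQ⟩
        right
        have hG := hQ.2.1
        have hvt := (S.key v hv).2.le
        have hf := hG.free' hsm hvt hks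
        have hG' := (hf.IsG_iff hsm hvt).1 hG
        rcases Sys.kp_or_kl hR with hkp | ⟨p, hkl⟩
        · exfalso
          rw [hkp.2] at hf
          exact hf (S.X s) le_rfl hR.2.2.1 (B.tau_X s hsm).2
        · obtain ⟨k1, k2, k3, k4, k5, k6⟩ := Sys.kl_facts hkl
          rw [hkl.2.2] at hf hG'
          by_cases hf2 : B.Fr s v (S.rho s v)
          · left
            refine ⟨hL, s, k, hst, hNE, ?_, hQ⟩
            obtain ⟨a, b, hm, hne, ha, hb⟩ := c74_mt hkl (hf.union hf2)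
            have e : b = k := hm.2.2.2.unique hG'
            subst e
            refine ⟨a, ha, ⟨v, p, Or.inr hm⟩, ?_⟩
            obtain ⟨_, _, r, r1, r2, r3⟩ := hQ
            rw [k6] at r2
            have hrt := rho_le (S := S) hsm.le hv
            rw [hf2.om_eq hsm hrt r1 r2, hf.om_eq hsm hvt hG'.1 hG'.2.1] at r3
            have := hm.2.2.1.max r1 r2
            omega
          · right
            refine ⟨hL, s, k, hst, hNE, ?_, hQ⟩
            refine ⟨p, k1.1, ?_, ?_, Or.inr ⟨v, hkl, hf2⟩⟩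
            · rw [k4]
              exact hf
            · rw [k4]
              exact hG'
    · exact absurd ⟨s, hst, hLs, hNE⟩ hLS.2
    · exact Or.inl ⟨hL, s, hst, hAc, hNE⟩
  have d0 := cnt_mono (S := S) main
  have d1 := cnt_or (S := S) (fun t v => S.L t v ∧ S.NE v 0 t)
    (fun t v => (S.L t v ∧ ∃ s, s < t ∧ S.Ac s v ∧ S.NE v (s + 1) t) ∨
      ((S.L t v ∧ ∃ r k, r ≤ t ∧ S.NE v r t ∧ k ∈ B.tau r ∧ (B.P r k v ∨ B.Q r k v)) ∨
      ((S.L t v ∧ ∃ s k, s < t ∧ S.NE v (s + 1) t ∧ k ∈ B.tau s ∧ B.Q (s + 1) k v) ∨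
      ((S.L t v ∧ ∃ s k, s < t ∧ S.NE v (s + 1) t ∧ B.LowR s k ∧ B.Q (s + 1) k v) ∨
      (S.L t v ∧ ∃ s k, s < t ∧ S.NE v (s + 1) t ∧ B.RR s k ∧ B.Q (s + 1) k v)))))
  have d2 := cnt_or (S := S) (fun t v => S.L t v ∧ ∃ s, s < t ∧ S.Ac s v ∧ S.NE v (s + 1) t)
    (fun t v => (S.L t v ∧ ∃ r k, r ≤ t ∧ S.NE v r t ∧ k ∈ B.tau r ∧
        (B.P r k v ∨ B.Q r k v)) ∨
      ((S.L t v ∧ ∃ s k, s < t ∧ S.NE v (s + 1) t ∧ k ∈ B.tau s ∧ B.Q (s + 1) k v) ∨
      ((S.L t v ∧ ∃ s k, s < t ∧ S.NE v (s + 1) t ∧ B.LowR s k ∧ B.Q (s + 1) k v) ∨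
      (S.L t v ∧ ∃ s k, s < t ∧ S.NE v (s + 1) t ∧ B.RR s k ∧ B.Q (s + 1) k v))))
  have d3 := cnt_or (S := S)
    (fun t v => S.L t v ∧ ∃ r k, r ≤ t ∧ S.NE v r t ∧ k ∈ B.tau r ∧ (B.P r k v ∨ B.Q r k v))
    (fun t v => (S.L t v ∧ ∃ s k, s < t ∧ S.NE v (s + 1) t ∧ k ∈ B.tau s ∧ B.Q (s + 1) k v) ∨
      ((S.L t v ∧ ∃ s k, s < t ∧ S.NE v (s + 1) t ∧ B.LowR s k ∧ B.Q (s + 1) k v) ∨
      (S.L t v ∧ ∃ s k, s < t ∧ S.NE v (s + 1) t ∧ B.RR s k ∧ B.Q (s + 1) k v)))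
  have d4 := cnt_or (S := S)
    (fun t v => S.L t v ∧ ∃ s k, s < t ∧ S.NE v (s + 1) t ∧ k ∈ B.tau s ∧ B.Q (s + 1) k v)
    (fun t v => (S.L t v ∧ ∃ s k, s < t ∧ S.NE v (s + 1) t ∧ B.LowR s k ∧
        B.Q (s + 1) k v) ∨
      (S.L t v ∧ ∃ s k, s < t ∧ S.NE v (s + 1) t ∧ B.RR s k ∧ B.Q (s + 1) k v))
  have d5 := cnt_or (S := S)
    (fun t v => S.L t v ∧ ∃ s k, s < t ∧ S.NE v (s + 1) t ∧ B.LowR s k ∧ B.Q (s + 1) k v)
    (fun t v => S.L t v ∧ ∃ s k, s < t ∧ S.NE v (s + 1) t ∧ B.RR s k ∧ B.Q (s + 1) k v)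
  unfold Sys.QL
  omega

theorem ct_turns (B : Blk S) :
    S.QR ≤ S.K.card + S.m + 2 * B.tot + ct S (fun t a => ∃ b, B.Lo t a b) + ct S B.Rs ∧
    S.QL ≤ S.K.card + S.m + 2 * B.tot + ct S (fun t a => ∃ b, B.Lo t a b) + ct S B.Rs := by
  constructor
  · have h1 := QL_le B.mir
    rw [Sys.mir_QL] at h1
    have h2 : S.mir.K.card ≤ S.K.card := Finset.card_image_le
    have h3 := mir_tot B
    have h4 := ct_mir (S := S) B.mir.LowR
    have h5 := ct_mir (S := S) B.mir.RR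
    have h6 : ct S (fun t a => B.mir.LowR t (fl S a)) ≤ ct S (fun t a => ∃ b, B.Lo t a b) := by
      apply ct_mono
      rintro t a ht ha ⟨c, hc, h⟩
      have hc' : c ∈ gs S := hc
      refine ⟨fl S c, ht, ha, (c74_fl_gs hc').1, Or.inr ?_⟩
      rw [(c74_fl_gs hc').2]
      exact h
    have h7 : ct S (fun t a => B.mir.RR t (fl S a)) ≤ ct S B.Rs :=
      ct_mono fun t a ht ha h => ⟨ht, ha, Or.inr (Or.inr h)⟩
    have h8 : S.mir.m = S.m := rfl
    omega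
  · have h1 := QL_le B
    have h6 : ct S B.LowR ≤ ct S (fun t a => ∃ b, B.Lo t a b) := by
      apply ct_mono
      rintro t a ht ha ⟨c, hc, h⟩
      exact ⟨c, ht, ha, hc, Or.inl h⟩
    have h7 : ct S B.RR ≤ ct S B.Rs :=
      ct_mono fun t a ht ha h => ⟨ht, ha, Or.inr (Or.inl h)⟩
    omega

end Blk

end Pool.Agent.SplPl
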