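import Pool.Agent.SplPl.Step
import Pool.Agent.SplPl.Heap

set_option autoImplicit false

/-!
# The heap system of a block process (I2)
-/

namespace Pool.Agent.SplPl

open Pool.Agent.SplLog

variable {S : Sys} {B : Blk S} {t u v w s r a b c g p x y a' b' : ℕ}

namespace Blk

/-! ### the right side -/

theorem UpR.right_unique (h : B.UpR t a b) (h' : B.UpR t a b') : b = b' := by
  obtain ⟨_, _, v, h1, h2, h3, h4⟩ := h
  obtain ⟨_, _, v', h1', h2', h3', h4'⟩ := h'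
  have ht := h1.1.le
  have e : v = v' := by
    have i1 : B.IsG t v (S.rho t v) a := h3
    by_contra hne
    rcases Nat.lt_or_gt_of_ne hne with hlt | hlt
    · have := (Sys.R_above h1 h1' hlt).1
      have := h3.2.1
      have := h3'.1
      omega
    · have := (Sys.R_above h1' h1 hlt).1
      have := h3.1
      have := h3'.2.1
      omega
  subst e
  exact h4.unique h4'

theorem UpR.left_unique (h : B.UpR t a b) (h' : B.UpR t a' b) : a = a' := by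
  obtain ⟨_, _, v, h1, h2, h3, h4⟩ := h
  obtain ⟨_, _, v', h1', h2', h3', h4'⟩ := h'
  have ht := h1.1.le
  have e0 : S.rho t v = S.rho t v' := by
    by_contra hne
    rcases Nat.lt_or_gt_of_ne hne with hlt | hlt
    · have := (Sys.R_above h2 h2' hlt).1
      have := h4.2.1
      have := h4'.1
      omega
    · have := (Sys.R_above h2' h2 hlt).1
      have := h4.1
      have := h4'.2.1
      omega
  have e : v = v' := by
    by_contra hne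
    rcases Nat.lt_or_gt_of_ne hne with hlt | hlt
    · have := (Sys.R_above h1 h1' hlt).1
      have := S.lt_rho t ht v' h1'.2.1
      omega
    · have := (Sys.R_above h1' h1 hlt).1
      have := S.lt_rho t ht v h1.2.1
      omega
  subst e
  exact h3.unique h3'

/-- After the request a LOW player is not the player of a node with `lam = X t`. -/
theorem LoR.lam_ne (h : B.LoR t a b) (hv : B.P (t + 1) a v) (hl : S.lam (t + 1) v = S.X t) :
    False := by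
  obtain ⟨g, p, h1, h2, _⟩ := h.after
  have ht := h1.1.1
  have e := PQ.inj (B := B) (t := t + 1) ht (Or.inl hv) h2
  subst e
  have h3 := h1.2.1
  have h4 := h1.2.2
  omega

theorem NxR.not_low (h : B.NxR t a b) : (∀ c, ¬ B.LoR t a c) ∧ ∀ c, ¬ B.LoR t b c := by
  obtain ⟨_, _, v, h1, h2, h3, h4, h5⟩ := h
  exact ⟨fun c hc => hc.lam_ne h2 h4, fun c hc => hc.lam_ne h3 h5⟩

theorem NxR.lt (h : B.NxR t a b) : t < S.m := TR_lt h.1

theorem NxR.right_unique (h : B.NxR t a b) (h' : B.NxR t a b') : b = b' := by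
  have ht : t + 1 ≤ S.m := h.lt
  obtain ⟨_, _, v, h1, h2, h3, h4, h5⟩ := h
  obtain ⟨_, _, v', h1', h2', h3', h4', h5'⟩ := h'
  have e := h2.inj ht h2'
  subst e
  exact PQ.unique ht (Or.inl h3) (Or.inl h3')

theorem NxR.left_unique (h : B.NxR t a b) (h' : B.NxR t a' b) : a = a' := by
  have ht : t + 1 ≤ S.m := h.lt
  obtain ⟨_, _, v, h1, h2, h3, h4, h5⟩ := h
  obtain ⟨_, _, v', h1', h2', h3', h4', h5'⟩ := h'
  have e := h3.inj ht h3'
  have key : ∀ {v v' : ℕ}, v ∈ S.K → v' ∈ S.K → S.lam (t + 1) v = S.X t →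
      S.lam (t + 1) v' = S.X t → S.rho (t + 1) v = S.rho (t + 1) v' → ¬ v < v' := by
    intro v v' hv hv' c1 c2 c3 hlt
    have d1 := S.lam_lt (t + 1) ht v hv
    have d2 := S.lt_rho (t + 1) ht v' hv'
    rcases S.lamin (t + 1) ht v hv v' hv' hlt with ⟨f1, f2, f3⟩ | ⟨f1, f2, f3⟩ | f1 <;> omega
  have e' : v = v' := by
    have k1 := key h2.1 h2'.1 h4 h4' e
    have k2 := key h2'.1 h2.1 h4' h4 e.symm
    omega
  subst e'
  exact PQ.unique ht (Or.inl h2) (Or.inl h2')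

/-- the top of the part of a kept player -/
theorem kept_top (h : B.TR t a) (hn : ∀ c, ¬ B.LoR t a c) (hv : B.P (t + 1) a v) :
    ∃ z y, S.R t z ∧ B.IsG t z (S.rho t z) y ∧ B.TR t y ∧ S.rho t z = S.rho (t + 1) v ∧
      (y = a ∨ (B.UpR t a y ∧ ∃ c, B.LoR t y c)) := by
  have ht : t + 1 ≤ S.m := TR_lt h
  obtain ⟨z, h1, h2, h3, h4 | ⟨g, a', h4⟩ | ⟨p, b', h4⟩⟩ := TR_cases h
  · have e := hv.inj ht h4.2.2.2
    subst e
    exact ⟨v, a, h2, h1.2.1, h, h4.2.1.symm, Or.inl rfl⟩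
  · have hlt : B.om t a' < B.om t a := by
      rcases Nat.lt_or_gt_of_ne h4.ne with h5 | h5
      · exact h5
      · exact absurd ⟨⟨g, z, Or.inr h4⟩, h5⟩ (hn a')
    have e := hv.inj ht (h4.step_lt hlt).2
    subst e
    have htr := h4.tree
    refine ⟨g, a', by tauto, h4.2.2.1, h4.TR.1, ?_, Or.inr ⟨h4.Up, a, ⟨g, v, Or.inl h4⟩, hlt⟩⟩
    exact htr.2.2.2.2.2.2.2.2.1.symm
  · have hlt : B.om t b' < B.om t a := by
      rcases Nat.lt_or_gt_of_ne h4.ne with h5 | h5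
      · exact absurd ⟨⟨z, p, Or.inl h4⟩, h5⟩ (hn b')
      · exact h5
    have e := hv.inj ht (h4.step_gt hlt).2
    subst e
    have htr := h4.tree
    refine ⟨z, a, h2, h1.2.1, h, ?_, Or.inl rfl⟩
    exact htr.2.2.2.2.2.2.2.2.1.symm

/-- the bottom of the part of a kept player -/
theorem kept_bot (h : B.TR t b) (hn : ∀ c, ¬ B.LoR t b c) (hw : B.P (t + 1) b w) :
    ∃ y, S.R t w ∧ B.IsG t w (S.rho t w) y ∧ B.TR t y ∧
      (y = b ∨ (B.UpR t y b ∧ ∃ c, B.LoR t y c)) := by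
  have ht : t + 1 ≤ S.m := TR_lt h
  obtain ⟨z, h1, h2, h3, h4 | ⟨g, a', h4⟩ | ⟨p, b', h4⟩⟩ := TR_cases h
  · have e := hw.inj ht h4.2.2.2
    subst e
    exact ⟨b, h2, h1.2.1, h, Or.inl rfl⟩
  · have hlt : B.om t a' < B.om t b := by
      rcases Nat.lt_or_gt_of_ne h4.ne with h5 | h5
      · exact h5
      · exact absurd ⟨⟨g, z, Or.inr h4⟩, h5⟩ (hn a')
    have e := hw.inj ht (h4.step_lt hlt).2
    subst e
    exact ⟨b, h2, h1.2.1, h, Or.inl rfl⟩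
  · have hlt : B.om t b' < B.om t b := by
      rcases Nat.lt_or_gt_of_ne h4.ne with h5 | h5
      · exact absurd ⟨⟨z, p, Or.inl h4⟩, h5⟩ (hn b')
      · exact h5
    have e := hw.inj ht (h4.step_gt hlt).2
    subst e
    have htr := h4.tree
    refine ⟨b', by tauto, ?_, h4.TR.2, Or.inr ⟨h4.Up, b, ⟨z, w, Or.inr h4⟩, hlt⟩⟩
    rw [htr.2.2.2.2.1]
    exact h4.2.2.2

theorem NxR.up (h : B.NxR t a b) : B.UpR t a b ∨
    (∃ u, (∃ c, B.LoR t u c) ∧ B.UpR t a u ∧ B.UpR t u b) ∨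
      ∃ u v, (∃ c, B.LoR t u c) ∧ (∃ c, B.LoR t v c) ∧ B.UpR t a u ∧ B.UpR t u v ∧
        B.UpR t v b := by
  have hn := h.not_low
  obtain ⟨h1, h2, v, h3, h4, h5, h6, h7⟩ := h
  obtain ⟨z, y, k1, k2, k3, k4, k5⟩ := kept_top h1 hn.1 h4
  obtain ⟨y', l1, l2, l3, l4⟩ := kept_bot h2 hn.2 h5
  have hup : B.UpR t y y' := by
    refine ⟨k3, l3, z, k1, ?_, k2, ?_⟩
    · rw [k4]
      exact l1
    · rw [k4]
      exact l2
  rcases k5 with rfl | ⟨k5, k6⟩ <;> rcases l4 with rfl | ⟨l4, l5⟩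
  · exact Or.inl hup
  · exact Or.inr (Or.inl ⟨y', l5, hup, l4⟩)
  · exact Or.inr (Or.inl ⟨y, k6, k5, hup⟩)
  · exact Or.inr (Or.inr ⟨y, y', k6, l5, k5, hup, l4⟩)

/-- an untouched step of a player with sign `+` -/
theorem P_step (ht : t < S.m) (h : B.P t s v) (h1 : s ∉ B.tau t) (h2 : ¬ B.TR t s)
    (h3 : ¬ B.RR t s) : ¬ S.E t v ∧ B.P (t + 1) s v := by
  have he : ¬ S.E t v := by
    intro he
    rcases TR_or_RR (h.E_R h1 he) (Or.inl h) h1 with h4 | h4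
    · exact h2 h4
    · exact h3 h4
  exact ⟨he, step_off_P ht h h1 he⟩

/-- the state between `t` and the next event of two kept neighbours -/
theorem NxR.state (h : B.NxR t a b) (htu : t < u) (hu : u < S.m)
    (hn : ∀ r, t < r → r < u → ¬ B.TR r a ∧ a ∉ B.tau r ∧ ¬ B.RR r a ∧ ¬ B.TR r b ∧
      b ∉ B.tau r ∧ ¬ B.RR r b) :
    ∃ v, B.P u a v ∧ B.P u b (S.rho u v) ∧ S.lam u v = S.X t ∧
      S.lam u (S.rho u v) = S.X t := by
  obtain ⟨_, _, v, _, h4, h5, h6, h7⟩ := h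
  refine ⟨v, ?_⟩
  induction u, htu using Nat.le_induction with
  | base => exact ⟨h4, h5, h6, h7⟩
  | succ u htu ih =>
    obtain ⟨c1, c2, c3, c4⟩ := ih (by omega) (fun r hr1 hr2 => hn r hr1 (by omega))
    obtain ⟨d1, d2, d3, d4, d5, d6⟩ := hn u htu (by omega)
    have e1 := P_step (by omega) c1 d2 d1 d3
    have e2 := P_step (by omega) c2 d5 d4 d6
    have f1 := Sys.untouched (by omega) c1.1 e1.1
    have f2 := Sys.untouched (by omega) c2.1 e2.1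
    rw [f1.2, f1.1, f2.1]
    exact ⟨e1.2, e2.2, c3, c4⟩

theorem perm_end (hu : u < S.m) (h1 : B.P u a v) (h2 : B.P u b (S.rho u v))
    (h3 : S.lam u v = S.lam u (S.rho u v)) (ha : a ∉ B.tau u) (hb : b ∉ B.tau u)
    (ha' : ¬ B.RR u a) (hb' : ¬ B.RR u b) (h : B.TR u a ∨ B.TR u b) : B.UpR u a b := by
  have hvw := S.lt_rho u hu.le v h1.1
  have key : S.R u v ∧ S.R u (S.rho u v) := by
    rcases h with h | h
    · obtain ⟨v', c1, _, _, c4, _⟩ := TR_node h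
      have e := h1.inj hu.le c4
      subst e
      exact ⟨c1, hu, h2.1, by have := c1.2.2.1; omega, by have := c1.2.2.2; omega⟩
    · obtain ⟨v', c1, _, _, c4, _⟩ := TR_node h
      have e := h2.inj hu.le c4
      have c2 : S.R u (S.rho u v) := by
        rw [e]
        exact c1
      refine ⟨h1.E_R ha ((Sys.E_iff hu h1.1).2 ⟨?_, ?_⟩), c2⟩
      · have := c2.2.2.2
        omega
      · exact c2.2.2.1
  have t1 : B.TR u a := (TR_or_RR key.1 (Or.inl h1) ha).resolve_right ha'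
  have t2 : B.TR u b := (TR_or_RR key.2 (Or.inl h2) hb).resolve_right hb'
  exact ⟨t1, t2, v, key.1, key.2, h1.2.1, h2.2.1⟩

/-! ### both sides -/

theorem TR_mir_TR (h : B.TR t s) (h' : B.mir.TR t (fl S s)) : False := by
  have h1 := TR_X h
  have h2 := mir_TR_X h'
  omega

theorem TR_mir_RR (h : B.TR t s) (h' : B.mir.RR t (fl S s)) : False := by
  have h1 := TR_X h
  have h2 := mir_RR_X h'
  omega

theorem RR_mir_TR (h : B.RR t s) (h' : B.mir.TR t (fl S s)) : False := by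
  have h1 := RR_X h
  have h2 := mir_TR_X h'
  omega

theorem mir_TR_Q (hs : s < S.top) (h : B.mir.TR t (fl S s)) : ∃ v, B.Q t s v := by
  obtain ⟨v', h1, _, _, h4, _⟩ := TR_node h
  obtain ⟨v, hv, rfl⟩ := Sys.mir_mem.1 h4.1
  have ht : t < S.m := h1.1
  exact ⟨v, (mir_P ht.le hv hs).1 h4⟩

theorem TR_mir_Q (h : B.TR t s) : ∃ v, B.mir.Q t (fl S s) v := by
  obtain ⟨v, h1, _, _, h4, _⟩ := TR_node h
  exact ⟨S.top - v, (mir_Q h1.1.le h4.1 (gs_lt (TR_gs h))).2 h4⟩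

/-- **I2.** The heap system of a block process. -/
def heap (B : Blk S) : HS where
  G := gs S
  m := S.m
  H := B.H
  om := B.om
  Rs := B.Rs
  Tc := B.Tc
  Lo := B.Lo
  Up := B.Up
  Nx := B.Nx
  rs_lt := fun t s h => ⟨h.1, h.2.1⟩
  tc_lt := fun t s h => ⟨h.1, h.2.1⟩
  tc_rs := by
    rintro t s ⟨h1, h2, h3⟩ ⟨_, _, h4⟩
    rcases h3 with h3 | h3
    · rcases h4 with h4 | h4 | h4
      · exact TR_not_tau h3 h4
      · exact TR_not_RR h3 h4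
      · exact TR_mir_RR h3 h4
    · rcases h4 with h4 | h4 | h4
      · exact TR_not_tau h3 ((mir_tau h1 (gs_lt h2)).2 h4)
      · exact RR_mir_TR h4 h3
      · exact TR_not_RR h3 h4
  om_le := by
    intro t s ht hs
    unfold gs at hs
    rw [Finset.mem_Ioo] at hs
    exact B.om_le t ht s hs.1 (by omega)
  om_keep := by
    intro t s ht hs h
    exact B.keep t ht s (gs_lt hs) (fun h1 => h ⟨ht, hs, Or.inl h1⟩)
  lo_tc := by
    rintro t a b ⟨h1, h2, h3, h4 | h4⟩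
    · exact ⟨⟨h1, h2, Or.inl h4.TR.1⟩, ⟨h1, h3, Or.inl h4.TR.2⟩⟩
    · exact ⟨⟨h1, h2, Or.inr h4.TR.1⟩, ⟨h1, h3, Or.inr h4.TR.2⟩⟩
  lo_om := by
    rintro t a b ⟨h1, h2, h3, h4 | h4⟩
    · exact h4.2
    · have := h4.2
      rwa [mir_om' (gs_lt h2), mir_om' (gs_lt h3)] at this
  lo_up := by
    rintro t a b ⟨h1, h2, h3, h4 | h4⟩
    · rcases h4.Up with h5 | h5
      · exact Or.inl ⟨h1, h2, h3, Or.inl h5⟩
      · exact Or.inr ⟨h1, h3, h2, Or.inl h5⟩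
    · rcases h4.Up with h5 | h5
      · exact Or.inl ⟨h1, h2, h3, Or.inr h5⟩
      · exact Or.inr ⟨h1, h3, h2, Or.inr h5⟩
  lo_r := by
    rintro t a b b' ⟨h1, h2, h3, h4 | h4⟩ ⟨_, _, h3', h4' | h4'⟩
    · exact h4.right_unique h4'
    · exact (TR_mir_TR h4.TR.1 h4'.TR.1).elim
    · exact (TR_mir_TR h4'.TR.1 h4.TR.1).elim
    · exact fl_inj (gs_lt h3) (gs_lt h3') (h4.right_unique h4')
  lo_l := by
    rintro t a a' b ⟨h1, h2, h3, h4 | h4⟩ ⟨_, h2', _, h4' | h4'⟩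
    · exact h4.left_unique h4'
    · exact (TR_mir_TR h4.TR.2 h4'.TR.2).elim
    · exact (TR_mir_TR h4'.TR.2 h4.TR.2).elim
    · exact fl_inj (gs_lt h2) (gs_lt h2') (h4.left_unique h4')
  lo_n := by
    rintro t a b c ⟨h1, h2, h3, h4 | h4⟩ ⟨_, h2', _, h4' | h4'⟩
    · exact h4.not_low h4'
    · exact TR_mir_TR h4.TR.2 h4'.TR.1
    · exact TR_mir_TR h4'.TR.1 h4.TR.2
    · exact h4.not_low h4'
  up_tc := by
    rintro t a b ⟨h1, h2, h3, h4 | h4⟩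
    · exact ⟨⟨h1, h2, Or.inl h4.1⟩, ⟨h1, h3, Or.inl h4.2.1⟩⟩
    · exact ⟨⟨h1, h2, Or.inr h4.1⟩, ⟨h1, h3, Or.inr h4.2.1⟩⟩
  up_r := by
    rintro t a b b' ⟨h1, h2, h3, h4 | h4⟩ ⟨_, _, h3', h4' | h4'⟩
    · exact h4.right_unique h4'
    · exact (TR_mir_TR h4.1 h4'.1).elim
    · exact (TR_mir_TR h4'.1 h4.1).elim
    · exact fl_inj (gs_lt h3) (gs_lt h3') (h4.right_unique h4')
  up_l := by
    rintro t a a' b ⟨h1, h2, h3, h4 | h4⟩ ⟨_, h2', _, h4' | h4'⟩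
    · exact h4.left_unique h4'
    · exact (TR_mir_TR h4.2.1 h4'.2.1).elim
    · exact (TR_mir_TR h4'.2.1 h4.2.1).elim
    · exact fl_inj (gs_lt h2) (gs_lt h2') (h4.left_unique h4')
  nx_tc := by
    rintro t a b ⟨h1, h2, h3, h4 | h4⟩
    · have h5 := h4.not_low
      refine ⟨⟨⟨h1, h2, Or.inl h4.1⟩, ?_⟩, ⟨h1, h3, Or.inl h4.2.1⟩, ?_⟩
      · rintro c ⟨_, _, _, h6 | h6⟩
        · exact h5.1 c h6
        · exact TR_mir_TR h4.1 h6.TR.1
      · rintro c ⟨_, _, _, h6 | h6⟩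
        · exact h5.2 c h6
        · exact TR_mir_TR h4.2.1 h6.TR.1
    · have h5 := h4.not_low
      refine ⟨⟨⟨h1, h2, Or.inr h4.1⟩, ?_⟩, ⟨h1, h3, Or.inr h4.2.1⟩, ?_⟩
      · rintro c ⟨_, _, _, h6 | h6⟩
        · exact TR_mir_TR h6.TR.1 h4.1
        · exact h5.1 _ h6
      · rintro c ⟨_, _, _, h6 | h6⟩
        · exact TR_mir_TR h6.TR.1 h4.2.1
        · exact h5.2 _ h6
  nx_r := by
    rintro t a b b' ⟨h1, h2, h3, h4 | h4⟩ ⟨_, _, h3', h4' | h4'⟩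
    · exact h4.right_unique h4'
    · exact (TR_mir_TR h4.1 h4'.1).elim
    · exact (TR_mir_TR h4'.1 h4.1).elim
    · exact fl_inj (gs_lt h3) (gs_lt h3') (h4.right_unique h4')
  nx_l := by
    rintro t a a' b ⟨h1, h2, h3, h4 | h4⟩ ⟨_, h2', _, h4' | h4'⟩
    · exact h4.left_unique h4'
    · exact (TR_mir_TR h4.2.1 h4'.2.1).elim
    · exact (TR_mir_TR h4'.2.1 h4.2.1).elim
    · exact fl_inj (gs_lt h2) (gs_lt h2') (h4.left_unique h4')
  nx_up := by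
    rintro t a b ⟨h1, h2, h3, h4 | h4⟩
    · rcases h4.up with h5 | ⟨u, ⟨c, h5⟩, h6, h7⟩ | ⟨u, v, ⟨c, h5⟩, ⟨c', h6⟩, h7, h8, h9⟩
      · exact Or.inl ⟨h1, h2, h3, Or.inl h5⟩
      · have g1 := TR_gs h5.TR.1
        have g2 := TR_gs h5.TR.2
        exact Or.inr (Or.inl ⟨u, ⟨c, h1, g1, g2, Or.inl h5⟩, ⟨h1, h2, g1, Or.inl h6⟩,
          ⟨h1, g1, h3, Or.inl h7⟩⟩)
      · have g1 := TR_gs h5.TR.1
        have g2 := TR_gs h5.TR.2
        have g3 := TR_gs h6.TR.1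
        have g4 := TR_gs h6.TR.2
        exact Or.inr (Or.inr ⟨u, v, ⟨c, h1, g1, g2, Or.inl h5⟩, ⟨c', h1, g3, g4, Or.inl h6⟩,
          ⟨h1, h2, g1, Or.inl h7⟩, ⟨h1, g1, g3, Or.inl h8⟩, ⟨h1, g3, h3, Or.inl h9⟩⟩)
    · have key : ∀ {x : ℕ}, x ∈ gs S.mir → ∃ x0 ∈ gs S, x = fl S x0 := by
        intro x hx
        exact ⟨fl S x, fl_gs hx, (fl_fl (gs_lt hx)).symm⟩
      rcases h4.up with h5 | ⟨u', ⟨c', h5⟩, h6, h7⟩ |
        ⟨u', v', ⟨c', h5⟩, ⟨d', h6⟩, h7, h8, h9⟩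
      · exact Or.inl ⟨h1, h2, h3, Or.inr h5⟩
      · obtain ⟨u, g1, rfl⟩ := key (TR_gs h5.TR.1)
        obtain ⟨c, g2, rfl⟩ := key (TR_gs h5.TR.2)
        exact Or.inr (Or.inl ⟨u, ⟨c, h1, g1, g2, Or.inr h5⟩, ⟨h1, h2, g1, Or.inr h6⟩,
          ⟨h1, g1, h3, Or.inr h7⟩⟩)
      · obtain ⟨u, g1, rfl⟩ := key (TR_gs h5.TR.1)
        obtain ⟨c, g2, rfl⟩ := key (TR_gs h5.TR.2)
        obtain ⟨v, g3, rfl⟩ := key (TR_gs h6.TR.1)
        obtain ⟨d, g4, rfl⟩ := key (TR_gs h6.TR.2)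
        exact Or.inr (Or.inr ⟨u, v, ⟨c, h1, g1, g2, Or.inr h5⟩, ⟨d, h1, g3, g4, Or.inr h6⟩,
          ⟨h1, h2, g1, Or.inr h7⟩, ⟨h1, g1, g3, Or.inr h8⟩, ⟨h1, g3, h3, Or.inr h9⟩⟩)
  perm := by
    rintro t u a b ⟨h1, h2, h3, h4⟩ htu hu hn ha hb hc
    rcases h4 with h4 | h4
    · obtain ⟨v, c1, c2, c3, c4⟩ := h4.state htu hu (by
        intro r hr1 hr2
        obtain ⟨n1, n2, n3, n4⟩ := hn r hr1 hr2
        have hr : r < S.m := by omega
        exact ⟨fun h => n1 ⟨hr, h2, Or.inl h⟩, fun h => n2 ⟨hr, h2, Or.inl h⟩,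
          fun h => n2 ⟨hr, h2, Or.inr (Or.inl h)⟩, fun h => n3 ⟨hr, h3, Or.inl h⟩,
          fun h => n4 ⟨hr, h3, Or.inl h⟩, fun h => n4 ⟨hr, h3, Or.inr (Or.inl h)⟩⟩)
      refine ⟨hu, h2, h3, Or.inl ?_⟩
      refine perm_end hu c1 c2 (by omega) (fun h => ha ⟨hu, h2, Or.inl h⟩)
        (fun h => hb ⟨hu, h3, Or.inl h⟩) (fun h => ha ⟨hu, h2, Or.inr (Or.inl h)⟩)
        (fun h => hb ⟨hu, h3, Or.inr (Or.inl h)⟩) ?_
      rcases hc with ⟨_, _, hc | hc⟩ | ⟨_, _, hc | hc⟩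
      · exact Or.inl hc
      · obtain ⟨v', hv'⟩ := mir_TR_Q (gs_lt h2) hc
        exact (c1.not_Q hu.le hv').elim
      · exact Or.inr hc
      · obtain ⟨v', hv'⟩ := mir_TR_Q (gs_lt h3) hc
        exact (c2.not_Q hu.le hv').elim
    · obtain ⟨v, c1, c2, c3, c4⟩ := h4.state htu hu (by
        intro r hr1 hr2
        obtain ⟨n1, n2, n3, n4⟩ := hn r hr1 hr2
        have hr : r < S.m := by omega
        exact ⟨fun h => n1 ⟨hr, h2, Or.inr h⟩,
          fun h => n2 ⟨hr, h2, Or.inl ((mir_tau hr (gs_lt h2)).1 h)⟩,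
          fun h => n2 ⟨hr, h2, Or.inr (Or.inr h)⟩, fun h => n3 ⟨hr, h3, Or.inr h⟩,
          fun h => n4 ⟨hr, h3, Or.inl ((mir_tau hr (gs_lt h3)).1 h)⟩,
          fun h => n4 ⟨hr, h3, Or.inr (Or.inr h)⟩⟩)
      refine ⟨hu, h2, h3, Or.inr ?_⟩
      refine perm_end (S := S.mir) hu c1 c2 (by omega)
        (fun h => ha ⟨hu, h2, Or.inl ((mir_tau hu (gs_lt h2)).1 h)⟩)
        (fun h => hb ⟨hu, h3, Or.inl ((mir_tau hu (gs_lt h3)).1 h)⟩)
        (fun h => ha ⟨hu, h2, Or.inr (Or.inr h)⟩)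
        (fun h => hb ⟨hu, h3, Or.inr (Or.inr h)⟩) ?_
      rcases hc with ⟨_, _, hc | hc⟩ | ⟨_, _, hc | hc⟩
      · obtain ⟨v', hv'⟩ := TR_mir_Q hc
        exact (P.not_Q (S := S.mir) (B := B.mir) hu.le c1 hv').elim
      · exact Or.inl hc
      · obtain ⟨v', hv'⟩ := TR_mir_Q hc
        exact (P.not_Q (S := S.mir) (B := B.mir) hu.le c2 hv').elim
      · exact Or.inr hc

end Blk

end Pool.Agent.SplPl
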