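import Pool.Agent.SplPl.FirstT
import Pool.Agent.SplPl.Heap2

set_option autoImplicit false

/-!
# The first touches after a match, both sides (I4)
-/

namespace Pool.Agent.SplPl

open Pool.Agent.SplLog

namespace Blk

variable {S : Sys} (B : Blk S)

private theorem first_Lo {t a b : ℕ} (h : B.Lo t a b) :
    Pair.Lo S.top S.m B.mir B t (fl S a) (fl S b) := by
  obtain ⟨h1, h2, h3, h4⟩ := h
  have e1 : S.top - 1 - fl S a = a := fl_fl (gs_lt h2)
  have e2 : S.top - 1 - fl S b = b := fl_fl (gs_lt h3)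
  refine ⟨h1, fl_gs h2, fl_gs h3, ?_⟩
  rw [e1, e2]
  exact h4.symm

private theorem first_Lo' {t a b : ℕ} (ha : a ∈ gs S) (hb : b ∈ gs S)
    (h : Pair.Lo S.top S.m B.mir B t (fl S a) (fl S b)) : B.Lo t a b := by
  obtain ⟨h1, h2, h3, h4⟩ := h
  have e1 : S.top - 1 - fl S a = a := fl_fl (gs_lt ha)
  have e2 : S.top - 1 - fl S b = b := fl_fl (gs_lt hb)
  rw [e1, e2] at h4
  exact ⟨h1, ha, hb, h4.symm⟩

private theorem first_Tc {t a : ℕ} (h : B.Tc t a) :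
    Pair.Tc S.top S.m B.mir B t (fl S a) := by
  obtain ⟨h1, h2, h4⟩ := h
  have e1 : S.top - 1 - fl S a = a := fl_fl (gs_lt h2)
  refine ⟨h1, fl_gs h2, ?_⟩
  rw [e1]
  exact h4.symm

private theorem first_Tc' {t a : ℕ} (ha : a ∈ gs S)
    (h : Pair.Tc S.top S.m B.mir B t (fl S a)) : B.Tc t a := by
  obtain ⟨h1, h2, h4⟩ := h
  have e1 : S.top - 1 - fl S a = a := fl_fl (gs_lt ha)
  rw [e1] at h4
  exact ⟨h1, ha, h4.symm⟩

private theorem first_Rs {t a : ℕ} (h : B.Rs t a) :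
    Pair.Rs S.top S.m B.mir B t (fl S a) := by
  obtain ⟨h1, h2, h4⟩ := h
  have e1 : S.top - 1 - fl S a = a := fl_fl (gs_lt h2)
  refine ⟨h1, fl_gs h2, ?_⟩
  rw [e1]
  rcases h4 with h4 | h4 | h4
  · exact Or.inl ((mir_tau h1 (gs_lt h2)).2 h4)
  · exact Or.inr (Or.inr h4)
  · exact Or.inr (Or.inl h4)

private theorem first_Rs' {t a : ℕ} (ha : a ∈ gs S)
    (h : Pair.Rs S.top S.m B.mir B t (fl S a)) : B.Rs t a := by
  obtain ⟨h1, h2, h4⟩ := h
  have e1 : S.top - 1 - fl S a = a := fl_fl (gs_lt ha)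
  rw [e1] at h4
  refine ⟨h1, ha, ?_⟩
  rcases h4 with h4 | h4 | h4
  · exact Or.inl ((mir_tau h1 (gs_lt ha)).1 h4)
  · exact Or.inr (Or.inr h4)
  · exact Or.inr (Or.inl h4)

private theorem first_sg {t a : ℕ} (ht : t < S.m) (ha : a ∈ gs S)
    (h : ∃ v, B.mir.P (t + 1) (fl S a) v) : ¬ B.sg t a := by
  rintro ⟨w, hw⟩
  obtain ⟨v, hv⟩ := h
  have h1 := (pair_mir B).P21 (t + 1) _ v ht hv
  have e1 : S.top - 1 - fl S a = a := fl_fl (gs_lt ha)
  rw [e1] at h1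
  exact hw.not_Q ht h1

private theorem first_sg' {t a q : ℕ} (h : B.Lo t a q)
    (hn : ¬ ∃ v, B.mir.P (t + 1) (fl S a) v) : B.sg t a := by
  rcases ((pair_mir B).side).loPQ t a q h with ⟨v, hv⟩ | ⟨v, hv⟩
  · exact ⟨v, hv⟩
  · exact absurd ⟨_, (pair_mir B).Q12 (t + 1) a v h.1 hv⟩ hn

/-- I4. -/
theorem first : ∃ E : Finset (ℕ × ℕ), B.heap.First B.sg E ∧
    E.card ≤ 4 * B.heap.NRs + 2 * S.m + 2 * B.tot := by
  classical
  set R0 : Finset (ℕ × ℕ) := (Finset.range S.m ×ˢ gs S).filter (fun q => B.Rs q.1 q.2) with hR0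
  have cR0 : R0.card = B.heap.NRs := by
    rw [hR0]
    unfold HS.NRs HS.cnt
    apply congrArg
    ext q
    simp only [Finset.mem_filter]
    rfl
  obtain ⟨E1, c1, h1⟩ := ((pair_mir B).side).main R0 (by
    intro t s h
    rw [hR0, Finset.mem_filter, Finset.mem_product]
    exact ⟨⟨Finset.mem_range.2 h.1, h.2.1⟩, h⟩)
  obtain ⟨E2, c2, h2⟩ := ((pair_mir B).symm.side).main (R0.image (fun x => (x.1, fl S x.2))) (by
    intro t s h
    have hs : s ∈ gs S := h.2.1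
    have e : fl S (fl S s) = s := fl_fl (gs_lt hs)
    rw [Finset.mem_image]
    refine ⟨(t, fl S s), ?_, by rw [e]⟩
    rw [hR0, Finset.mem_filter, Finset.mem_product]
    exact ⟨⟨Finset.mem_range.2 h.1, fl_gs hs⟩, B.first_Rs' (fl_gs hs) (by rw [e]; exact h)⟩)
  have cI := Finset.card_image_le (s := R0) (f := fun x => (x.1, fl S x.2))
  have cT : B.mir.tot ≤ B.tot := by
    unfold tot
    exact Finset.sum_le_sum fun t _ => Finset.card_image_le
  have cM : S.mir.m = S.m := rfl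
  refine ⟨E1 ∪ E2.image (fun x => (x.1, fl S x.2)), ?_, ?_⟩
  · rintro t a b l q ⟨htm, ha, hb, hU⟩ ⟨hlo, hlt, hn⟩ hE
    rw [Finset.mem_union, not_or] at hE
    have hlo' : B.Lo l a q := hlo
    have hq : q ∈ gs S := hlo'.2.2.1
    rcases hU with hU | hU
    · have hT : B.Tc t a := ⟨htm, ha, Or.inl hU.1⟩
      obtain ⟨l', g1, g2, g3, g4, g5, g6, g7, g8⟩ := h1 t a b l q hU hlo hlt hn hT hE.1
      refine ⟨l', g1, ⟨g2, g3, g4⟩, g5, ⟨fun _ => g7, fun _ => g6⟩, ?_⟩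
      intro r c k1 k2 k3 k4
      exact g8 r c k1 k2 k3 (k4.2 g6)
    · have hT : B.Tc t a := ⟨htm, ha, Or.inr hU.1⟩
      have hE2 : (t, fl S a) ∉ E2 := by
        intro hc
        apply hE.2
        rw [Finset.mem_image]
        exact ⟨(t, fl S a), hc, by rw [fl_fl (gs_lt ha)]⟩
      obtain ⟨l', g1, g2, g3, g4, g5, g6, g7, g8⟩ := h2 t (fl S a) (fl S b) l (fl S q) hU
        (B.first_Lo hlo) hlt
        (fun r k1 k2 => ⟨fun k3 => (hn r k1 k2).1 (B.first_Tc' ha k3),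
          fun k3 => (hn r k1 k2).2 (B.first_Rs' ha k3)⟩) (B.first_Tc hT) hE2
      have hlo2 : B.Lo l' b q := B.first_Lo' hb hq g2
      have s1 : ¬ B.sg l a := B.first_sg hlo'.1 ha g6
      have s2 : ¬ B.sg l' b := B.first_sg hlo2.1 hb g7
      refine ⟨l', g1, ⟨hlo2, g3, ?_⟩, ?_, ⟨fun h => absurd h s1, fun h => absurd h s2⟩, ?_⟩
      · intro r k1 k2
        exact ⟨fun k3 => (g4 r k1 k2).1 (B.first_Tc k3), fun k3 => (g4 r k1 k2).2 (B.first_Rs k3)⟩
      · intro r k1 k2 k3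
        exact g5 r k1 k2 (B.first_Rs k3)
      · intro r c k1 k2 k3 k4
        exact s1 (k4.1 (B.first_sg' k3 (g8 r (fl S c) k1 k2 (B.first_Lo k3))))
  · have c3 := Finset.card_union_le E1 (E2.image (fun x => (x.1, fl S x.2)))
    have c4 := Finset.card_image_le (s := E2) (f := fun x => (x.1, fl S x.2))
    omega

end Blk

end Pool.Agent.SplPl
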