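import Pool.Agent.SplPl.Step

set_option autoImplicit false

/-!
# One access: the right and the left end of the interval of a player; the two sides as a pair
-/

namespace Pool.Agent.SplPl

open Pool.Agent.SplLog

namespace Blk

variable {S : Sys} {B : Blk S} {t s u v w r l a b c q g p z : ℕ}

/-- The right end of the interval on which `q` is the highest gap. -/
def RE (B : Blk S) (t q z : ℕ) : Prop := (∃ w, B.P t q w ∧ S.rho t w = z) ∨ B.Q t q z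

/-- The left end of the interval on which `q` is the highest gap. -/
def LE (B : Blk S) (t q z : ℕ) : Prop := (∃ w, B.Q t q w ∧ S.lam t w = z) ∨ B.P t q z

theorem R_top (h : B.LoR l a q) (hP : B.P (l + 1) a v) :
    B.IsG (l + 1) (S.lam (l + 1) v) v q := by
  have ht : l + 1 ≤ S.m := (TR_lt h.TR.1)
  obtain ⟨⟨g, p, h1 | h1⟩, h2⟩ := h
  · have e := (h1.step_lt h2).1.inj ht hP
    subst e
    have h3 := h1.tree
    rw [h3.2.2.2.2.2.1]
    exact ((h1.2.1.mono le_rfl (by omega : g ≤ S.rho l g)).IsG_iff (by omega) (by omega)).2 h1.2.2.2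
  · exact (hP.not_Q ht (h1.step_gt h2).1).elim

theorem R_topQ (h : B.LoR l a q) (hQ : B.Q (l + 1) a v) :
    B.IsG (l + 1) v (S.rho (l + 1) v) q := by
  have ht : l + 1 ≤ S.m := (TR_lt h.TR.1)
  obtain ⟨⟨g, p, h1 | h1⟩, h2⟩ := h
  · exact ((h1.step_lt h2).1.not_Q ht hQ).elim
  · have e := (h1.step_gt h2).1.inj ht hQ
    subst e
    have h3 := h1.tree
    rw [h3.2.2.2.2.2.2.1]
    exact (h1.free_g.IsG_iff (by omega) (by omega)).2 h1.2.2.1

theorem R1 (h : B.LoR l a q) (hP : B.P (l + 1) a v) : B.RE (l + 1) q (S.rho (l + 1) v) := by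
  have ht : l + 1 ≤ S.m := (TR_lt h.TR.1)
  obtain ⟨⟨g, p, h1 | h1⟩, h2⟩ := h
  · have e := (h1.step_lt h2).1.inj ht hP
    subst e
    have h3 := h1.tree
    refine Or.inl ⟨p, (h1.step_lt h2).2, ?_⟩
    rw [h3.2.2.2.2.2.2.1, h3.2.2.2.2.2.2.2.2.1]
  · exact (hP.not_Q ht (h1.step_gt h2).1).elim

theorem R2 (h : B.LoR l a q) (hQ : B.Q (l + 1) a v) : B.LE (l + 1) q (S.lam (l + 1) v) := by
  have ht : l + 1 ≤ S.m := (TR_lt h.TR.1)
  obtain ⟨⟨g, p, h1 | h1⟩, h2⟩ := h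
  · exact ((h1.step_lt h2).1.not_Q ht hQ).elim
  · have e := (h1.step_gt h2).1.inj ht hQ
    subst e
    have h3 := h1.tree
    rw [h3.2.2.2.2.2.1]
    exact Or.inr (h1.step_gt h2).2

theorem R3 (h : B.TR t q) (hz : B.RE t q z)
    (hn : ∀ c, B.LoR t c q → ¬ ∃ v, B.P (t + 1) c v) : B.RE (t + 1) q z := by
  obtain ⟨w, hw, hR, hF, hc⟩ := TR_cases h
  have ht := hR.1.le
  have hzw : S.rho t w = z := by
    rcases hz with ⟨w', h1, h2⟩ | h1
    · rw [hw.inj ht h1]; exact h2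
    · exact (hw.not_Q ht h1).elim
  rcases hc with ⟨_, c2, _, c4⟩ | ⟨g, a, hm⟩ | ⟨p, b, hm⟩
  · exact Or.inl ⟨w, c4, by rw [c2, hzw]⟩
  · have h3 := hm.tree
    rcases lt_or_gt_of_ne hm.ne with h4 | h4
    · exact absurd ⟨g, (hm.step_lt h4).1⟩ (hn a ⟨⟨g, w, Or.inl hm⟩, h4⟩)
    · refine Or.inr ?_
      rw [← hzw, h3.2.2.2.2.1]
      exact (hm.step_gt h4).1
  · have h3 := hm.tree
    rcases lt_or_gt_of_ne hm.ne with h4 | h4
    · exact Or.inl ⟨w, (hm.step_lt h4).1, by rw [h3.2.2.2.2.2.2.1, hzw]⟩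
    · exact Or.inl ⟨p, (hm.step_gt h4).2, by rw [h3.2.2.2.2.2.2.2.2.1, hzw]⟩

theorem R4 (h : B.TR t q) (hz : B.LE t q z)
    (hn : ∀ c, B.LoR t c q → ¬ ∃ v, B.Q (t + 1) c v) : B.LE (t + 1) q z := by
  obtain ⟨w, hw, hR, hF, hc⟩ := TR_cases h
  have ht := hR.1.le
  have hzw : w = z := by
    rcases hz with ⟨w', h1, h2⟩ | h1
    · exact (hw.not_Q ht h1).elim
    · exact hw.inj ht h1
  subst hzw
  rcases hc with ⟨_, c2, _, c4⟩ | ⟨g, a, hm⟩ | ⟨p, b, hm⟩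
  · exact Or.inr c4
  · have h3 := hm.tree
    rcases lt_or_gt_of_ne hm.ne with h4 | h4
    · exact Or.inr (hm.step_lt h4).2
    · exact Or.inl ⟨g, (hm.step_gt h4).1, h3.2.2.2.2.2.1⟩
  · rcases lt_or_gt_of_ne hm.ne with h4 | h4
    · exact Or.inr (hm.step_lt h4).1
    · exact absurd ⟨w, (hm.step_gt h4).1⟩ (hn b ⟨⟨w, p, Or.inr hm⟩, h4⟩)

theorem R5 (h : B.LoR t c q) (hz : B.RE t q z) (hP : B.P (t + 1) c v) : v = z := by
  have ht : t + 1 ≤ S.m := (TR_lt h.TR.1)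
  obtain ⟨⟨g, p, h1 | h1⟩, h2⟩ := h
  · have e := (h1.step_lt h2).1.inj ht hP
    subst e
    have h3 := h1.tree
    rcases hz with ⟨w', h4, h5⟩ | h4
    · have := h1.P_p.inj (by omega) h4
      subst this
      rw [← h5, h3.2.2.2.2.1]
    · exact (h1.P_p.not_Q (by omega) h4).elim
  · exact (hP.not_Q ht (h1.step_gt h2).1).elim

theorem R6 (h : B.LoR t c q) (hz : B.LE t q z) (hQ : B.Q (t + 1) c v) : v = z := by
  have ht : t + 1 ≤ S.m := (TR_lt h.TR.1)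
  obtain ⟨⟨g, p, h1 | h1⟩, h2⟩ := h
  · exact ((h1.step_lt h2).1.not_Q ht hQ).elim
  · have e := (h1.step_gt h2).1.inj ht hQ
    subst e
    rcases hz with ⟨w', h4, h5⟩ | h4
    · exact (h1.P_g.not_Q (by omega) h4).elim
    · exact h1.P_g.inj (by omega) h4

end Blk

end Pool.Agent.SplPl
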