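import Pool.Agent.SplPl.FirstP

set_option autoImplicit false

/-!
# The two sides of a block process as a symmetric pair; the axioms of one side
-/

namespace Pool.Agent.SplPl

open Pool.Agent.SplLog

/-- `B1` and `B2` are mirror images of each other. -/
structure Pair (N M : ℕ) {S1 S2 : Sys} (B1 : Blk S1) (B2 : Blk S2) : Prop where
  top1 : S1.top = N
  top2 : S2.top = N
  m1 : S1.m = M
  m2 : S2.m = M
  P12 : ∀ t s v, t ≤ M → B1.P t s v → B2.Q t (N - 1 - s) (N - v)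
  P21 : ∀ t s v, t ≤ M → B2.P t s v → B1.Q t (N - 1 - s) (N - v)
  Q12 : ∀ t s v, t ≤ M → B1.Q t s v → B2.P t (N - 1 - s) (N - v)
  Q21 : ∀ t s v, t ≤ M → B2.Q t s v → B1.P t (N - 1 - s) (N - v)
  L12 : ∀ t v, S1.L t v → S2.R t (N - v)
  L21 : ∀ t v, S2.L t v → S1.R t (N - v)
  lam12 : ∀ t v, t ≤ M → v ∈ S1.K → S2.lam t (N - v) = N - S1.rho t v
  lam21 : ∀ t v, t ≤ M → v ∈ S2.K → S1.lam t (N - v) = N - S2.rho t v
  rho12 : ∀ t v, t ≤ M → v ∈ S1.K → S2.rho t (N - v) = N - S1.lam t v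
  rho21 : ∀ t v, t ≤ M → v ∈ S2.K → S1.rho t (N - v) = N - S2.lam t v
  G12 : ∀ t u v s, v ≤ N → s < N → B1.IsG t (N - v) (N - u) (N - 1 - s) → B2.IsG t u v s
  G21 : ∀ t u v s, v ≤ N → s < N → B2.IsG t (N - v) (N - u) (N - 1 - s) → B1.IsG t u v s
  tau12 : ∀ t s, t < M → s < N → N - 1 - s ∈ B1.tau t → s ∈ B2.tau t
  tau21 : ∀ t s, t < M → s < N → N - 1 - s ∈ B2.tau t → s ∈ B1.tau t

namespace Pair

variable {N M : ℕ} {S1 S2 : Sys} {B1 : Blk S1} {B2 : Blk S2} {t s u v w r l a b c q g p z : ℕ}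

theorem symm (h : Pair N M B1 B2) : Pair N M B2 B1 :=
  ⟨h.top2, h.top1, h.m2, h.m1, h.P21, h.P12, h.Q21, h.Q12, h.L21, h.L12, h.lam21, h.lam12,
    h.rho21, h.rho12, h.G21, h.G12, h.tau21, h.tau12⟩

/-- The inner gaps. -/
def G (N : ℕ) : Finset ℕ := Finset.Ioo 0 (N - 1)

theorem mem_G : s ∈ G N ↔ 0 < s ∧ s < N - 1 := by
  rw [G, Finset.mem_Ioo]

theorem G_fl (h : s ∈ G N) : N - 1 - s ∈ G N := by
  rw [mem_G] at *
  omega

/-- A match (both sides). -/
def Lo (N M : ℕ) {S1 S2 : Sys} (B1 : Blk S1) (B2 : Blk S2) (t a b : ℕ) : Prop :=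
  t < M ∧ a ∈ G N ∧ b ∈ G N ∧ (B1.LoR t a b ∨ B2.LoR t (N - 1 - a) (N - 1 - b))

/-- A reset (both sides). -/
def Rs (N M : ℕ) {S1 S2 : Sys} (B1 : Blk S1) (B2 : Blk S2) (t s : ℕ) : Prop :=
  t < M ∧ s ∈ G N ∧ (s ∈ B1.tau t ∨ B1.RR t s ∨ B2.RR t (N - 1 - s))

/-- A touch (both sides). -/
def Tc (N M : ℕ) {S1 S2 : Sys} (B1 : Blk S1) (B2 : Blk S2) (t s : ℕ) : Prop :=
  t < M ∧ s ∈ G N ∧ (B1.TR t s ∨ B2.TR t (N - 1 - s))

end Pair

/-- The facts which are used for the first touches on one side. -/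
structure Side {S : Sys} (B : Blk S) (Lo : ℕ → ℕ → ℕ → Prop) (Rs Tc : ℕ → ℕ → Prop) : Prop where
  lo_tc : ∀ t a q, Lo t a q → Tc t a ∧ Tc t q
  lo_r : ∀ t a b b', Lo t a b → Lo t a b' → b = b'
  lo_l : ∀ t a a' b, Lo t a b → Lo t a' b → a = a'
  tc_rs : ∀ t s, Tc t s → ¬ Rs t s
  tc_lt : ∀ t s, Tc t s → t < S.m ∧ s ∈ Blk.gs S
  tau_rs : ∀ t s, t < S.m → s ∈ Blk.gs S → s ∈ B.tau t → Rs t s
  evP : ∀ t s v, t < S.m → B.P t s v → ¬ Tc t s → ¬ Rs t s → ¬ S.E t v
  evQ : ∀ t s v, t < S.m → B.Q t s v → ¬ Tc t s → ¬ Rs t s → ¬ S.E t v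
  tcR : ∀ t s v, Tc t s → B.P t s v → S.R t v
  loPQ : ∀ t a q, Lo t a q → (∃ v, B.P (t + 1) a v) ∨ ∃ v, B.Q (t + 1) a v
  loTop : ∀ t a q v, Lo t a q → B.P (t + 1) a v → B.IsG (t + 1) (S.lam (t + 1) v) v q
  re0 : ∀ t a q v, Lo t a q → B.P (t + 1) a v → B.RE (t + 1) q (S.rho (t + 1) v)
  re1 : ∀ t q z, t < S.m → B.RE t q z → ¬ Rs t q →
    (∀ c, Lo t c q → ¬ ∃ v, B.P (t + 1) c v) → B.RE (t + 1) q z
  re2 : ∀ t q z c v, B.RE t q z → Lo t c q → B.P (t + 1) c v → v = z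

namespace Pair

variable {N M : ℕ} {S1 S2 : Sys} {B1 : Blk S1} {B2 : Blk S2} {t s u v w r l a b c q g p z : ℕ}

theorem K12 (h : Pair N M B1 B2) (ht : t ≤ M) (hP : B1.P t s v) : N - v ∈ S2.K :=
  (h.P12 t s v ht hP).1

theorem tcR' (h : Pair N M B1 B2) (hT : Tc N M B1 B2 t s) (hP : B1.P t s v) : S1.R t v := by
  obtain ⟨ht, hG, h1 | h1⟩ := hT
  · obtain ⟨w, hw, _, _, hw2, _⟩ := Blk.TR_node h1
    rw [hP.inj (by rw [h.m1]; omega) hw2]
    exact hw
  · exfalso
    obtain ⟨w, hw, _, _, hw2, _⟩ := Blk.TR_node h1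
    have h2 := h.P21 t _ w ht.le hw2
    rw [mem_G] at hG
    have e : N - 1 - (N - 1 - s) = s := by omega
    rw [e] at h2
    exact hP.not_Q (by rw [h.m1]; omega) h2

theorem RE_LE (h : Pair N M B1 B2) (ht : t ≤ M) (hz : z ≤ N) (hR : B1.RE t q z) :
    B2.LE t (N - 1 - q) (N - z) := by
  rcases hR with ⟨w, h1, h2⟩ | h1
  · refine Or.inl ⟨N - w, h.P12 t q w ht h1, ?_⟩
    rw [h.lam12 t w ht h1.1, h2]
  · exact Or.inr (h.Q12 t q z ht h1)

theorem LE_RE (h : Pair N M B1 B2) (ht : t ≤ M) (hz : z ≤ N) (hq : q < N)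
    (hR : B2.LE t (N - 1 - q) (N - z)) : B1.RE t q z := by
  have e : N - 1 - (N - 1 - q) = q := by omega
  have e' : N - (N - z) = z := by omega
  rcases hR with ⟨w, h1, h2⟩ | h1
  · have h3 := h.Q21 t _ w ht h1
    rw [e] at h3
    refine Or.inl ⟨N - w, h3, ?_⟩
    rw [h.rho21 t w ht h1.1, h2, e']
  · have h3 := h.P21 t _ _ ht h1
    rw [e, e'] at h3
    exact Or.inr h3

theorem RE_le (h : Pair N M B1 B2) (ht : t ≤ M) (hR : B1.RE t q z) : z ≤ N ∧ q ∈ G N := by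
  have hm := h.m1
  have htop := h.top1
  rcases hR with ⟨w, h1, h2⟩ | h1
  · have h3 := Blk.rho_le (S := S1) (t := t) (by omega) h1.1
    have h4 := h1.inner (by omega)
    rw [mem_G]
    omega
  · have h3 := S1.key z h1.1
    have h4 := h1.inner (by omega)
    rw [mem_G]
    omega

theorem P_key (h : Pair N M B1 B2) (hP : B1.P t s v) : 0 < v ∧ v < N := by
  have := S1.key v hP.1
  rw [h.top1] at this
  exact this

theorem not_both (h : Pair N M B1 B2) (hs : s ∈ G N) (h1 : B1.P t s v)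
    (h2 : B2.P t (N - 1 - s) w) (ht : t < M) : False := by
  have hm := h.m1
  have h3 := h.P21 t _ w ht.le h2
  rw [mem_G] at hs
  have e : N - 1 - (N - 1 - s) = s := by omega
  rw [e] at h3
  exact h1.not_Q (by omega) h3

theorem side (h : Pair N M B1 B2) :
    Side B1 (Lo N M B1 B2) (Rs N M B1 B2) (Tc N M B1 B2) := by
  have hm := h.m1
  have htop := h.top1
  have hm2 := h.m2
  have htop2 := h.top2
  have hgs : Blk.gs S1 = G N := by
    unfold Blk.gs G
    rw [htop]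
  have tau_rs : ∀ t s, t < S1.m → s ∈ Blk.gs S1 → s ∈ B1.tau t → Rs N M B1 B2 t s := by
    intro t s ht hs hs2
    exact ⟨by omega, by rwa [hgs] at hs, Or.inl hs2⟩
  refine ⟨?_, ?_, ?_, ?_, ?_, tau_rs, ?_, ?_, fun t s v => h.tcR', ?_, ?_, ?_, ?_, ?_⟩
  · rintro t a q ⟨h1, h2, h3, h4 | h4⟩
    · exact ⟨⟨h1, h2, Or.inl h4.TR.1⟩, ⟨h1, h3, Or.inl h4.TR.2⟩⟩
    · exact ⟨⟨h1, h2, Or.inr h4.TR.1⟩, ⟨h1, h3, Or.inr h4.TR.2⟩⟩
  · rintro t a b b' ⟨h1, h2, h3, h4 | h4⟩ ⟨h1', h2', h3', h4' | h4'⟩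
    · exact h4.right_unique h4'
    · obtain ⟨v, _, _, _, hv, _⟩ := Blk.TR_node h4.TR.1
      obtain ⟨w, _, _, _, hw, _⟩ := Blk.TR_node h4'.TR.1
      exact (h.not_both h2 hv hw h1).elim
    · obtain ⟨v, _, _, _, hv, _⟩ := Blk.TR_node h4.TR.1
      obtain ⟨w, _, _, _, hw, _⟩ := Blk.TR_node h4'.TR.1
      exact (h.not_both h2 hw hv h1).elim
    · have := h4.right_unique h4'
      rw [mem_G] at h3 h3'
      omega
  · rintro t a a' b ⟨h1, h2, h3, h4 | h4⟩ ⟨h1', h2', h3', h4' | h4'⟩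
    · exact h4.left_unique h4'
    · obtain ⟨v, _, _, _, hv, _⟩ := Blk.TR_node h4.TR.2
      obtain ⟨w, _, _, _, hw, _⟩ := Blk.TR_node h4'.TR.2
      exact (h.not_both h3 hv hw h1).elim
    · obtain ⟨v, _, _, _, hv, _⟩ := Blk.TR_node h4.TR.2
      obtain ⟨w, _, _, _, hw, _⟩ := Blk.TR_node h4'.TR.2
      exact (h.not_both h3 hw hv h1).elim
    · have := h4.left_unique h4'
      rw [mem_G] at h2 h2'
      omega
  · rintro t s ⟨h1, h2, h3⟩ ⟨_, _, h4⟩
    have h2' := mem_G.1 h2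
    rcases h3 with h3 | h3
    · rcases h4 with h4 | h4 | h4
      · exact Blk.TR_not_tau h3 h4
      · exact Blk.TR_not_RR h3 h4
      · obtain ⟨v, _, _, _, hv, _⟩ := Blk.TR_node h3
        obtain ⟨w, _, _, _, hw, _⟩ := Blk.RR_node h4
        exact h.not_both h2 hv hw h1
    · rcases h4 with h4 | h4 | h4
      · refine Blk.TR_not_tau h3 (h.tau12 t _ h1 (by omega) ?_)
        have e : N - 1 - (N - 1 - s) = s := by omega
        rwa [e]
      · obtain ⟨v, _, _, _, hv, _⟩ := Blk.TR_node h3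
        obtain ⟨w, _, _, _, hw, _⟩ := Blk.RR_node h4
        exact h.not_both h2 hw hv h1
      · exact Blk.TR_not_RR h3 h4
  · rintro t s ⟨h1, h2, _⟩
    rw [hgs]
    exact ⟨by omega, h2⟩
  · intro t s v ht hP hT hR hE
    have hs : s ∉ B1.tau t := fun hs => hR (tau_rs t s ht (hP.gs ht.le) hs)
    have hG : s ∈ G N := by
      rw [← hgs]
      exact hP.gs ht.le
    rcases Blk.TR_or_RR (hP.E_R hs hE) (Or.inl hP) hs with h1 | h1
    · exact hT ⟨by omega, hG, Or.inl h1⟩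
    · exact hR ⟨by omega, hG, Or.inr (Or.inl h1)⟩
  · intro t s v ht hP hT hR hE
    have hs : s ∉ B1.tau t := fun hs => hR (tau_rs t s ht (hP.gs ht.le) hs)
    have hG : s ∈ G N := by
      rw [← hgs]
      exact hP.gs ht.le
    have hL := hP.E_L hs hE
    have h2 := h.L12 t v hL
    have h3 := h.Q12 t s v (by omega) hP
    have hG' := mem_G.1 hG
    have hs2 : N - 1 - s ∉ B2.tau t := by
      intro hc
      exact hs (h.tau21 t s (by omega) (by omega) hc)
    rcases Blk.TR_or_RR h2 (Or.inl h3) hs2 with h1 | h1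
    · exact hT ⟨by omega, hG, Or.inr h1⟩
    · exact hR ⟨by omega, hG, Or.inr (Or.inr h1)⟩
  · rintro t a q ⟨h1, h2, h3, h4 | h4⟩
    · obtain ⟨g, p, _, h5 | h5, _⟩ := h4.after
      · exact Or.inl ⟨g, h5⟩
      · exact Or.inr ⟨g, h5⟩
    · rw [mem_G] at h2
      have e : N - 1 - (N - 1 - a) = a := by omega
      obtain ⟨g, p, _, h5 | h5, _⟩ := h4.after
      · have h6 := h.P21 _ _ _ (by omega) h5
        rw [e] at h6
        exact Or.inr ⟨_, h6⟩
      · have h6 := h.Q21 _ _ _ (by omega) h5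
        rw [e] at h6
        exact Or.inl ⟨_, h6⟩
  · rintro t a q v ⟨h1, h2, h3, h4 | h4⟩ hP
    · exact Blk.R_top h4 hP
    · have h5 := h.P12 _ _ _ (by omega) hP
      have h6 := Blk.R_topQ h4 h5
      have hk := h.P_key hP
      have hl := S1.lam_lt (t + 1) (by omega) v hP.1
      rw [h.rho12 _ _ (by omega) hP.1] at h6
      rw [mem_G] at h3
      exact h.G21 _ _ _ _ hk.2.le (by omega) h6
  · rintro t a q v ⟨h1, h2, h3, h4 | h4⟩ hP
    · exact Blk.R1 h4 hP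
    · have h5 := h.P12 _ _ _ (by omega) hP
      have h6 := Blk.R2 h4 h5
      have hk := h.P_key hP
      have hl := Blk.rho_le (S := S1) (t := t + 1) (by omega) hP.1
      rw [h.lam12 _ _ (by omega) hP.1] at h6
      rw [mem_G] at h3
      exact h.LE_RE (by omega) (by omega) (by omega) h6
  · intro t q z ht hRE hR hn
    obtain ⟨hz, hq⟩ := h.RE_le (by omega) hRE
    have hq' := mem_G.1 hq
    have hs : q ∉ B1.tau t := fun hs => hR (tau_rs t q ht (by rwa [hgs]) hs)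
    by_cases h1 : B1.TR t q
    · refine Blk.R3 h1 hRE ?_
      intro c hc
      refine hn c ⟨by omega, ?_, hq, Or.inl hc⟩
      rw [← hgs]
      exact Blk.TR_gs hc.TR.1
    by_cases h2 : B2.TR t (N - 1 - q)
    · have h3 := h.RE_LE (by omega) hz hRE
      refine h.LE_RE (by omega) hz (by omega) (Blk.R4 h2 h3 ?_)
      rintro c hc ⟨v, hv⟩
      have hcg : c ∈ Blk.gs S2 := Blk.TR_gs hc.TR.1
      have hcG : c ∈ G N := by
        unfold Blk.gs at hcg
        rw [htop2] at hcg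
        exact hcg
      have hcG' := mem_G.1 hcG
      have e : N - 1 - (N - 1 - c) = c := by omega
      refine hn (N - 1 - c) ⟨by omega, G_fl hcG, hq, Or.inr ?_⟩ ⟨_, h.Q21 _ _ _ (by omega) hv⟩
      rw [e]
      exact hc
    have hT : ¬ Tc N M B1 B2 t q := by
      rintro ⟨_, _, h3 | h3⟩
      · exact h1 h3
      · exact h2 h3
    rcases hRE with ⟨w, h3, h4⟩ | h3
    · have hE : ¬ S1.E t w := by
        intro hE
        rcases Blk.TR_or_RR (h3.E_R hs hE) (Or.inl h3) hs with h5 | h5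
        · exact h1 h5
        · exact hR ⟨by omega, hq, Or.inr (Or.inl h5)⟩
      refine Or.inl ⟨w, Blk.step_off_P ht h3 hs hE, ?_⟩
      rw [(Sys.untouched ht h3.1 hE).2, h4]
    · have hE : ¬ S1.E t z := by
        intro hE
        have hL := h3.E_L hs hE
        have h6 := h.L12 t z hL
        have h7 := h.Q12 t q z (by omega) h3
        have hs2 : N - 1 - q ∉ B2.tau t := by
          intro hc
          exact hs (h.tau21 t q (by omega) (by omega) hc)
        rcases Blk.TR_or_RR h6 (Or.inl h7) hs2 with h5 | h5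
        · exact h2 h5
        · exact hR ⟨by omega, hq, Or.inr (Or.inr h5)⟩
      exact Or.inr (Blk.step_off_Q ht h3 hs hE)
  · rintro t q z c v hRE ⟨h1, h2, h3, h4 | h4⟩ hP
    · exact Blk.R5 h4 hRE hP
    · obtain ⟨hz, hq⟩ := h.RE_le (by omega) hRE
      have h5 := h.RE_LE (by omega) hz hRE
      have h6 := h.P12 _ _ _ (by omega) hP
      have h7 := Blk.R6 h4 h5 h6
      have hk := h.P_key hP
      omega

end Pair

theorem fl_lt' {S : Sys} {s : ℕ} (h : 0 < S.top) : Blk.fl S s < S.top := by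
  unfold Blk.fl
  omega

/-- A block process and its mirror image form a pair. -/
theorem pair_mir {S : Sys} (B : Blk S) : Pair S.top S.m B B.mir where
  top1 := rfl
  top2 := rfl
  m1 := rfl
  m2 := rfl
  P12 t s v ht h := by
    have hs := h.inner ht
    exact (Blk.mir_Q ht h.1 (by omega)).2 h
  P21 t s v ht h := by
    have hs := h.inner (S := S.mir) ht
    change 0 < s ∧ s + 1 < S.top at hs
    obtain ⟨u, hu, rfl⟩ := Sys.mir_mem.1 h.1
    have hk := S.key u hu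
    have e : s = Blk.fl S (Blk.fl S s) := (Blk.fl_fl (by omega)).symm
    have e' : S.top - (S.top - u) = u := by omega
    rw [e] at h
    rw [e']
    exact (Blk.mir_P ht hu (fl_lt' (by omega))).1 h
  Q12 t s v ht h := by
    have hs := h.inner ht
    exact (Blk.mir_P ht h.1 (by omega)).2 h
  Q21 t s v ht h := by
    have hs := h.inner (S := S.mir) ht
    change 0 < s ∧ s + 1 < S.top at hs
    obtain ⟨u, hu, rfl⟩ := Sys.mir_mem.1 h.1
    have hk := S.key u hu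
    have e : s = Blk.fl S (Blk.fl S s) := (Blk.fl_fl (by omega)).symm
    have e' : S.top - (S.top - u) = u := by omega
    rw [e] at h
    rw [e']
    exact (Blk.mir_Q ht hu (fl_lt' (by omega))).1 h
  L12 t v h := (Sys.mir_R h.2.1).2 h
  L21 t v h := by
    obtain ⟨u, hu, rfl⟩ := Sys.mir_mem.1 h.2.1
    have hk := S.key u hu
    have e' : S.top - (S.top - u) = u := by omega
    rw [e']
    exact (Sys.mir_L hu).1 h
  lam12 t v _ hv := Sys.mir_lam hv
  lam21 t v ht hv := by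
    obtain ⟨u, hu, rfl⟩ := Sys.mir_mem.1 hv
    have hk := S.key u hu
    have e' : S.top - (S.top - u) = u := by omega
    have h1 := S.lam_lt t ht u hu
    rw [e', Sys.mir_rho hu]
    omega
  rho12 t v _ hv := Sys.mir_rho hv
  rho21 t v ht hv := by
    obtain ⟨u, hu, rfl⟩ := Sys.mir_mem.1 hv
    have hk := S.key u hu
    have e' : S.top - (S.top - u) = u := by omega
    have h1 := S.rho_le_top ht hu
    rw [e', Sys.mir_lam hu]
    omega
  G12 t u v s hv hs h := by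
    have h1 := h.1
    have h2 := h.2.1
    have h3 := (Blk.mir_IsG (B := B) (t := t) (u := S.top - v) (v := S.top - u)
      (s := S.top - 1 - s) (by omega) (by omega)).2 h
    have e1 : S.top - (S.top - u) = u := by omega
    have e2 : S.top - (S.top - v) = v := by omega
    have e3 : Blk.fl S (S.top - 1 - s) = s := by
      unfold Blk.fl
      omega
    rwa [e1, e2, e3] at h3
  G21 t u v s hv hs h := (Blk.mir_IsG hs hv).1 h
  tau12 t s ht hs h := by
    have h3 := (Blk.mir_tau (B := B) (t := t) (s := S.top - 1 - s) ht (by omega)).2 h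
    have e3 : Blk.fl S (S.top - 1 - s) = s := by
      unfold Blk.fl
      omega
    rwa [e3] at h3
  tau21 t s ht hs h := (Blk.mir_tau ht hs).1 h

end Pool.Agent.SplPl
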