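import Pool.Agent.SplPl.FirstQ

set_option autoImplicit false

/-!
# The first touches after a match (one side)
-/

namespace Pool.Agent.SplPl

open Pool.Agent.SplLog

namespace Side

variable {S : Sys} {B : Blk S} {Lo : ℕ → ℕ → ℕ → Prop} {Rs Tc : ℕ → ℕ → Prop}
  {t s u v w r l a b c q g p z s0 : ℕ}

theorem not_tau (h : Side B Lo Rs Tc) (ht : t < S.m) (hg : s ∈ Blk.gs S) (hR : ¬ Rs t s) :
    s ∉ B.tau t := fun hs => hR (h.tau_rs t s ht hg hs)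

/-- A player without events stays at its node, and the subtree interval of the node is frozen. -/
theorem stayP (h : Side B Lo Rs Tc) (h0 : B.P s0 a v) (hst : s0 ≤ t) (ht : t ≤ S.m)
    (hn : ∀ r, s0 ≤ r → r < t → ¬ Tc r a ∧ ¬ Rs r a) :
    B.P t a v ∧ S.lam t v = S.lam s0 v ∧ S.rho t v = S.rho s0 v := by
  induction t, hst using Nat.le_induction with
  | base => exact ⟨h0, rfl, rfl⟩
  | succ t hst ih =>
    obtain ⟨h1, h2, h3⟩ := ih (by omega) (fun r hr1 hr2 => hn r hr1 (by omega))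
    obtain ⟨h4, h5⟩ := hn t hst (by omega)
    have hE := h.evP t a v (by omega) h1 h4 h5
    have hs := h.not_tau (by omega) (h1.gs (by omega)) h5
    obtain ⟨e1, e2⟩ := Sys.untouched (S := S) (t := t) (by omega) h1.1 hE
    exact ⟨Blk.step_off_P (by omega) h1 hs hE, by rw [e1, h2], by rw [e2, h3]⟩

theorem stayQ (h : Side B Lo Rs Tc) (h0 : B.Q s0 a v) (hst : s0 ≤ t) (ht : t ≤ S.m)
    (hn : ∀ r, s0 ≤ r → r < t → ¬ Tc r a ∧ ¬ Rs r a) : B.Q t a v := by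
  induction t, hst using Nat.le_induction with
  | base => exact h0
  | succ t hst ih =>
    have h1 := ih (by omega) (fun r hr1 hr2 => hn r hr1 (by omega))
    obtain ⟨h4, h5⟩ := hn t hst (by omega)
    have hE := h.evQ t a v (by omega) h1 h4 h5
    have hs := h.not_tau (by omega) (h1.gs (by omega)) h5
    exact Blk.step_off_Q (by omega) h1 hs hE

/-- The node of a player without events is not touched. -/
theorem stayE (h : Side B Lo Rs Tc) (h0 : B.P s0 a v) (ht : t ≤ S.m)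
    (hn : ∀ r, s0 ≤ r → r < t → ¬ Tc r a ∧ ¬ Rs r a) (hr : s0 ≤ r) (hrt : r < t) :
    ¬ S.E r v := by
  have h1 := (h.stayP h0 hr (by omega) (fun r' h1 h2 => hn r' h1 (by omega))).1
  exact h.evP r a v (by omega) h1 (hn r hr hrt).1 (hn r hr hrt).2

/-- (CHAIN) -/
theorem stayRE (h : Side B Lo Rs Tc) (h0 : B.RE s0 q z) (hst : s0 ≤ t) (ht : t ≤ S.m)
    (hn : ∀ r, s0 ≤ r → r < t → ¬ Rs r q)
    (hv : ∀ r c, s0 ≤ r → r < t → Lo r c q → ¬ ∃ v, B.P (r + 1) c v) : B.RE t q z := by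
  induction t, hst using Nat.le_induction with
  | base => exact h0
  | succ t hst ih =>
    have h1 := ih (by omega) (fun r hr1 hr2 => hn r hr1 (by omega))
      (fun r c hr1 hr2 => hv r c hr1 (by omega))
    exact h.re1 t q z (by omega) h1 (hn t hst (by omega)) (fun c hc => hv t c hst (by omega) hc)

/-- The highest gap of an interval stays the highest gap as long as it is untouched. -/
theorem stayG (h0 : B.IsG s0 u v q) (hv : v ≤ S.top) (hst : s0 ≤ t) (ht : t ≤ S.m)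
    (hn : ∀ r, s0 ≤ r → r < t → q ∉ B.tau r) : B.IsG t u v q := by
  induction t, hst using Nat.le_induction with
  | base => exact h0
  | succ t hst ih =>
    have h1 := ih (by omega) (fun r hr1 hr2 => hn r hr1 (by omega))
    have h2 := h1.free (by omega) hv (hn t hst (by omega))
    exact (h2.IsG_iff (by omega) hv).2 h1

/-- (DORM): before the first touch of a LOW player `a` its partner `q` is reset. -/
theorem dorm (h : Side B Lo Rs Tc) (hlo : Lo l a q) (hP : B.P (l + 1) a v) (hlt : l < t)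
    (hn : ∀ r, l < r → r < t → ¬ Tc r a ∧ ¬ Rs r a) (hT : Tc t a) :
    ∃ e, l < e ∧ e ≤ t ∧ Rs e q ∧ q ∈ B.tau e := by
  have ht := (h.tc_lt t a hT).1
  have hq := (h.tc_lt l q (h.lo_tc l a q hlo).2).2
  by_contra hc
  push Not at hc
  have hk := S.key v hP.1
  have htau : ∀ r, l < r → r ≤ t → q ∉ B.tau r := by
    intro r h1 h2 h3
    exact hc r h1 h2 (h.tau_rs r q (by omega) hq h3) h3
  have h1 := h.loTop l a q v hlo hP
  have h2 := stayG (t := t) h1 (by omega) (by omega) ht.le (fun r h3 h4 => htau r (by omega) (by omega))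
  have h3 := h.stayP (t := t) hP (by omega) ht.le (fun r h3 h4 => hn r (by omega) h4)
  have h4 := h.tcR t a v hT h3.1
  rw [← h3.2.1] at h2
  have h5 := h2.free ht (by omega) (htau t hlt le_rfl)
  obtain ⟨x, hx1, hx2, hx3⟩ := Blk.R_tau (B := B) h4
  exact h5 x hx2 hx3 hx1

/-- `a` is touched at `t` for the first time after the match `l` with `q`; its node is `v`. -/
def Base (B : Blk S) (Lo : ℕ → ℕ → ℕ → Prop) (Rs Tc : ℕ → ℕ → Prop) (t a l q v : ℕ) : Prop :=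
  Lo l a q ∧ l < t ∧ t < S.m ∧ (∀ r, l < r → r < t → ¬ Tc r a ∧ ¬ Rs r a) ∧ Tc t a ∧
    B.P (l + 1) a v

/-- No partner of `q` with sign `+` between `l` and `l'`. -/
def NoV (B : Blk S) (Lo : ℕ → ℕ → ℕ → Prop) (l l' q : ℕ) : Prop :=
  ∀ r c, l < r → r < l' → Lo r c q → ¬ ∃ v, B.P (r + 1) c v

/-- `a'` is the next partner of `q` with sign `+`, without event until `u`. -/
def Nxt (B : Blk S) (Lo : ℕ → ℕ → ℕ → Prop) (Rs Tc : ℕ → ℕ → Prop) (l q l' a' z u : ℕ) : Prop :=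
  l < l' ∧ Lo l' a' q ∧ B.P (l' + 1) a' z ∧ NoV B Lo l l' q ∧ l' < u ∧
    ∀ r, l' < r → r < u → ¬ Tc r a' ∧ ¬ Rs r a'

theorem uniq_t (_h : Side B Lo Rs Tc) {t' v' : ℕ} (h1 : Base B Lo Rs Tc t a l q v)
    (h2 : Base B Lo Rs Tc t' a l q v') : t = t' := by
  obtain ⟨_, a2, _, a4, a5, _⟩ := h1
  obtain ⟨_, b2, _, b4, b5, _⟩ := h2
  rcases lt_trichotomy t t' with h3 | h3 | h3
  · exact absurd a5 (b4 t a2 h3).1
  · exact h3
  · exact absurd b5 (a4 t' b2 h3).1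

/-- The previous partner is unique. -/
theorem uniq_l (h : Side B Lo Rs Tc) {l' r0 a' t' v' : ℕ} (h1 : Base B Lo Rs Tc t a l q v)
    (h2 : Base B Lo Rs Tc t' a' l' q v') (h3 : l < r0) (h4 : l' < r0) (h5 : NoV B Lo l r0 q)
    (h6 : NoV B Lo l' r0 q) : t = t' ∧ a = a' := by
  have e : l = l' := by
    rcases lt_trichotomy l l' with h7 | h7 | h7
    · exact absurd ⟨v', h2.2.2.2.2.2⟩ (h5 l' a' h7 h4 h2.1)
    · exact h7
    · exact absurd ⟨v, h1.2.2.2.2.2⟩ (h6 l a h7 h3 h1.1)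
  subst e
  have e2 := h.lo_l l a a' q h1.1 h2.1
  subst e2
  exact ⟨h.uniq_t h1 h2, rfl⟩

theorem uniq_n (h : Side B Lo Rs Tc) {l1 q1 l1' z1 l2 q2 l2' z2 a' : ℕ}
    (h1 : Nxt B Lo Rs Tc l1 q1 l1' a' z1 u) (h2 : Nxt B Lo Rs Tc l2 q2 l2' a' z2 u) :
    l1' = l2' ∧ q1 = q2 := by
  obtain ⟨a1, a2, a3, a4, a5, a6⟩ := h1
  obtain ⟨b1, b2, b3, b4, b5, b6⟩ := h2
  have e : l1' = l2' := by
    rcases lt_trichotomy l1' l2' with h7 | h7 | h7
    · exact absurd (h.lo_tc _ _ _ b2).1 (a6 l2' h7 b5).1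
    · exact h7
    · exact absurd (h.lo_tc _ _ _ a2).1 (b6 l1' h7 a5).1
  subst e
  exact ⟨rfl, h.lo_r _ _ _ _ a2 b2⟩

/-- The whole chain of conclusions: from `a'` and `u` back to `(t, a)`. -/
theorem uniq_all (h : Side B Lo Rs Tc) {t1 a1 l1 q1 v1 l1' z1 t2 a2 l2 q2 v2 l2' z2 a' : ℕ}
    (hb1 : Base B Lo Rs Tc t1 a1 l1 q1 v1) (hb2 : Base B Lo Rs Tc t2 a2 l2 q2 v2)
    (h1 : Nxt B Lo Rs Tc l1 q1 l1' a' z1 u) (h2 : Nxt B Lo Rs Tc l2 q2 l2' a' z2 u) :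
    t1 = t2 ∧ a1 = a2 := by
  obtain ⟨e1, e2⟩ := h.uniq_n h1 h2
  subst e1 e2
  exact h.uniq_l hb1 hb2 h1.1 h2.1 h1.2.2.2.1 h2.2.2.2.1

/-- Exceptions (A): no next partner before a reset of `q`; charge `(r0, q)`. -/
def ExA (B : Blk S) (Lo : ℕ → ℕ → ℕ → Prop) (Rs Tc : ℕ → ℕ → Prop) (t a : ℕ) (y : ℕ × ℕ) : Prop :=
  ∃ l v, Base B Lo Rs Tc t a l y.2 v ∧ l < y.1 ∧ Rs y.1 y.2 ∧ NoV B Lo l y.1 y.2

/-- Exceptions (B1): the next partner is reset; charge it. -/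
def ExB (B : Blk S) (Lo : ℕ → ℕ → ℕ → Prop) (Rs Tc : ℕ → ℕ → Prop) (t a : ℕ) (y : ℕ × ℕ) : Prop :=
  ∃ l q v l' z, Base B Lo Rs Tc t a l q v ∧ Nxt B Lo Rs Tc l q l' y.2 z y.1 ∧ Rs y.1 y.2

/-- Exceptions (b1): the next partner is touched at the access of `lam v`; charge the time. -/
def ExC (B : Blk S) (Lo : ℕ → ℕ → ℕ → Prop) (Rs Tc : ℕ → ℕ → Prop) (t a : ℕ) (y : ℕ) : Prop :=
  ∃ l q v l' a' z, Base B Lo Rs Tc t a l q v ∧ Nxt B Lo Rs Tc l q l' a' z y ∧ y < t ∧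
    S.rho (l + 1) v = z ∧ S.R y z ∧ S.X y = S.lam (l + 1) v

/-- Exceptions (b2'): charge the touched gap `y.2` at the time `y.1`. -/
def ExD (B : Blk S) (Lo : ℕ → ℕ → ℕ → Prop) (Rs Tc : ℕ → ℕ → Prop) (t a : ℕ) (y : ℕ × ℕ) : Prop :=
  ∃ l q v l' a' z, Base B Lo Rs Tc t a l q v ∧ Nxt B Lo Rs Tc l q l' a' z y.1 ∧ y.1 < t ∧
    S.rho (l + 1) v = z ∧ S.lam (l' + 1) z ≤ y.2 ∧ y.2 < S.lam (l + 1) v ∧ y.2 ∈ B.tau y.1 ∧
    (∀ r ∈ B.tau y.1, r < S.lam (l + 1) v → r ≤ y.2) ∧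
    ∃ r ∈ B.tau y.1, S.lam (l + 1) v ≤ r ∧ r < v

theorem inj_A (h : Side B Lo Rs Tc) {t1 a1 t2 a2 : ℕ} {y : ℕ × ℕ}
    (h1 : ExA B Lo Rs Tc t1 a1 y) (h2 : ExA B Lo Rs Tc t2 a2 y) : t1 = t2 ∧ a1 = a2 := by
  obtain ⟨l1, v1, b1, c1, _, d1⟩ := h1
  obtain ⟨l2, v2, b2, c2, _, d2⟩ := h2
  exact h.uniq_l b1 b2 c1 c2 d1 d2

theorem inj_B (h : Side B Lo Rs Tc) {t1 a1 t2 a2 : ℕ} {y : ℕ × ℕ}
    (h1 : ExB B Lo Rs Tc t1 a1 y) (h2 : ExB B Lo Rs Tc t2 a2 y) : t1 = t2 ∧ a1 = a2 := by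
  obtain ⟨l1, q1, v1, l1', z1, b1, c1, _⟩ := h1
  obtain ⟨l2, q2, v2, l2', z2, b2, c2, _⟩ := h2
  exact h.uniq_all b1 b2 c1 c2

/-- At the time `u`: the frozen data of `v` and `z`. -/
theorem frozen (h : Side B Lo Rs Tc) {l' a' : ℕ} (hb : Base B Lo Rs Tc t a l q v)
    (hn : Nxt B Lo Rs Tc l q l' a' z u) (hut : u < t) (hz : S.rho (l + 1) v = z) :
    B.P u a v ∧ S.lam u v = S.lam (l + 1) v ∧ S.rho u v = z ∧ B.P u a' z ∧
      S.lam u z = S.lam (l' + 1) z ∧ S.rho u z = S.rho (l' + 1) z := by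
  obtain ⟨a1, a2, a3, a4, a5, a6⟩ := hb
  obtain ⟨b1, b2, b3, b4, b5, b6⟩ := hn
  obtain ⟨c1, c2, c3⟩ := h.stayP (t := u) a6 (by omega) (by omega)
    (fun r h1 h2 => a4 r (by omega) (by omega))
  obtain ⟨d1, d2, d3⟩ := h.stayP (t := u) b3 (by omega) (by omega)
    (fun r h1 h2 => b6 r (by omega) (by omega))
  exact ⟨c1, c2, by rw [c3, hz], d1, d2, d3⟩

theorem inj_C (h : Side B Lo Rs Tc) {t1 a1 t2 a2 : ℕ} {y : ℕ}
    (h1 : ExC B Lo Rs Tc t1 a1 y) (h2 : ExC B Lo Rs Tc t2 a2 y) : t1 = t2 ∧ a1 = a2 := by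
  obtain ⟨l1, q1, v1, l1', a1', z1, b1, c1, d1, e1, f1, g1⟩ := h1
  obtain ⟨l2, q2, v2, l2', a2', z2, b2, c2, d2, e2, f2, g2⟩ := h2
  have F1 := h.frozen b1 c1 d1 e1
  have F2 := h.frozen b2 c2 d2 e2
  have ht := f1.1
  have key : ∀ {v z a a' : ℕ}, B.P y a v → S.rho y v = z → S.R y z → S.X y = S.lam y v →
      S.rho y (S.X y) = z := by
    intro v z a a' p1 p2 p3 p4
    have hX := S.req y ht
    have hr := S.lam_anc y ht.le v p1.1 (by rw [← p4]; exact hX)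
    rw [← p4] at hr
    have hl := S.lam_lt y ht.le v p1.1
    have hl2 := S.lam_lt y ht.le _ hX
    have hs := Sys.sub ht.le p1.1 hX (by omega) hr
    rw [p2] at hs
    have p5 := p3.2.2.1
    have p6 := p3.2.2.2
    rcases S.lamin y ht.le _ hX z p3.2.1 p5 with ⟨k1, k2, k3⟩ | ⟨k1, k2, k3⟩ | k1
    · omega
    · omega
    · have := S.lt_rho y ht.le _ hX
      omega
  have k1 := key (a' := a1') F1.1 F1.2.2.1 f1 (by rw [F1.2.1]; exact g1)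
  have k2 := key (a' := a2') F2.1 F2.2.2.1 f2 (by rw [F2.2.1]; exact g2)
  have ez : z1 = z2 := by rw [← k1, ← k2]
  subst ez
  have ea : a1' = a2' := F1.2.2.2.1.2.1.unique F2.2.2.2.1.2.1
  subst ea
  exact h.uniq_all b1 b2 c1 c2

theorem inj_D (h : Side B Lo Rs Tc) {t1 a1 t2 a2 : ℕ} {y : ℕ × ℕ}
    (h1 : ExD B Lo Rs Tc t1 a1 y) (h2 : ExD B Lo Rs Tc t2 a2 y) : t1 = t2 ∧ a1 = a2 := by
  obtain ⟨u, y⟩ := y
  obtain ⟨l1, q1, v1, l1', a1', z1, b1, c1, d1, e1, f1, g1, i1, j1, r1, k1, m1, n1⟩ := h1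
  obtain ⟨l2, q2, v2, l2', a2', z2, b2, c2, d2, e2, f2, g2, i2, j2, r2, k2, m2, n2⟩ := h2
  simp only at c1 d1 f1 g1 i1 j1 k1 c2 d2 f2 g2 i2 j2 k2
  have F1 := h.frozen b1 c1 d1 e1
  have F2 := h.frozen b2 c2 d2 e2
  have ht : u < S.m := by
    have := b1.2.2.1
    omega
  have key : ∀ {v v' z z' b b' a0 r' : ℕ}, v ∈ S.K → z' ∈ S.K → S.lam u v = b → S.rho u v = z →
      S.lam u z' = a0 → a0 ≤ y → y < b → b ≤ r' → r' < v' → v' < z' → ¬ z' < z := by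
    intro v v' z z' b b' a0 r' hv hz' p1 p2 p3 p4 p5 p6 p7 p8 hlt
    have hbK : b ∈ S.K := by
      rcases S.lam_mem u ht.le v hv with h3 | h3
      · omega
      · rwa [p1] at h3
    have hr := S.lam_anc u ht.le v hv (by rw [p1]; exact hbK)
    rw [p1] at hr
    have hl := S.lam_lt u ht.le v hv
    have hl2 := S.lam_lt u ht.le _ hbK
    have hs := Sys.sub ht.le hv hbK (by omega) hr
    rcases S.lamin u ht.le b hbK z' hz' (by omega) with ⟨k1, k2, k3⟩ | ⟨k1, k2, k3⟩ | k1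
    · omega
    · omega
    · have := S.lt_rho u ht.le _ hbK
      omega
  have hv1 := F1.1.1
  have hv2 := F2.1.1
  have hz1 := F1.2.2.2.1.1
  have hz2 := F2.2.2.2.1.1
  have w1 := S.lt_rho u ht.le v1 hv1
  have w2 := S.lt_rho u ht.le v2 hv2
  rw [F1.2.2.1] at w1
  rw [F2.2.2.1] at w2
  -- the next touched gap after `y`
  have hr1 : S.lam (l1 + 1) v1 ≤ r2 := by
    by_contra hc
    have := j1 r2 k2 (by omega)
    omega
  have hr2 : S.lam (l2 + 1) v2 ≤ r1 := by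
    by_contra hc
    have := j2 r1 k1 (by omega)
    omega
  have o1 := key (v := v1) (v' := v2) (z := z1) (z' := z2) (b := S.lam (l1 + 1) v1) (b' := 0)
    (a0 := S.lam (l2' + 1) z2) (r' := r2) hv1 hz2 F1.2.1 F1.2.2.1 F2.2.2.2.2.1 f2 g1 hr1 n2 w2
  have o2 := key (v := v2) (v' := v1) (z := z2) (z' := z1) (b := S.lam (l2 + 1) v2) (b' := 0)
    (a0 := S.lam (l1' + 1) z1) (r' := r1) hv2 hz1 F2.2.1 F2.2.2.1 F1.2.2.2.2.1 f1 g2 hr2 n1 w1
  have ez : z1 = z2 := by omega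
  subst ez
  have ea : a1' = a2' := F1.2.2.2.1.2.1.unique F2.2.2.2.1.2.1
  subst ea
  exact h.uniq_all b1 b2 c1 c2

end Side

end Pool.Agent.SplPl
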