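import Pool.Agent.SplPl.FirstR

set_option autoImplicit false

/-!
# The first touches after a match: the case distinction
-/

namespace Pool.Agent.SplPl

open Pool.Agent.SplLog

namespace Side

variable {S : Sys} {B : Blk S} {Lo : ℕ → ℕ → ℕ → Prop} {Rs Tc : ℕ → ℕ → Prop}
  {t s u v w r l a b c q g p z s0 : ℕ}

/-- The least time with a property. -/
theorem exists_first {P : ℕ → Prop} (h : ∃ n, P n) : ∃ n, P n ∧ ∀ k, k < n → ¬ P k := by
  classical
  exact ⟨Nat.find h, Nat.find_spec h, fun k hk => Nat.find_min h hk⟩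

/-- The highest gap of `[a0, z)` moves from `[b0, v)` to `[a0, b0)`: at some time both intervals
are touched. -/
theorem cross (h1 : l ≤ s) (hs : s < S.m) {a0 b0 : ℕ} (hab : a0 < b0) (hbv : b0 ≤ v) (hvz : v < z)
    (hz : z < S.top) (hq : B.IsG l a0 z q) (hq1 : b0 ≤ q) (hq2 : q < v)
    (hin : ∀ r, l ≤ r → r ≤ s → ∀ g, B.IsG r a0 z g → g < v)
    (hX : a0 < S.X s) (hX2 : S.X s < b0) :
    ∃ u, l ≤ u ∧ u ≤ s ∧ (∃ r ∈ B.tau u, a0 ≤ r ∧ r < b0) ∧ ∃ r ∈ B.tau u, b0 ≤ r ∧ r < v := by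
  by_contra hc
  push Not at hc
  have key : ∀ u, l ≤ u → u ≤ s → ∃ g, B.IsG u a0 z g ∧ b0 ≤ g := by
    intro u hlu
    induction u, hlu using Nat.le_induction with
    | base => intro _; exact ⟨q, hq, hq1⟩
    | succ u hlu ih =>
      intro hus
      obtain ⟨g, hg1, hg2⟩ := ih (by omega)
      have hg3 := hin u hlu (by omega) g hg1
      obtain ⟨g', hg'⟩ := B.exists_IsG (t := u + 1) (by omega) (by omega : a0 < z) (by omega)
        (by omega)
      refine ⟨g', hg', ?_⟩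
      by_contra hlt
      have e1 := hg'.1
      by_cases hgt : g ∈ B.tau u
      · have h4 : g' ∉ B.tau u := by
          intro h5
          have := hc u hlu (by omega) ⟨g', h5, e1, by omega⟩ g hgt hg2
          omega
        have h5 := hg'.free' (by omega) (by omega) h4
        exact h5 g hg1.1 hg1.2.1 hgt
      · have h5 := hg1.free (by omega) (by omega) hgt
        have h6 := (h5.IsG_iff (by omega) (by omega)).2 hg1
        have := h6.unique hg'
        omega
  obtain ⟨g, hg1, hg2⟩ := key s h1 le_rfl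
  have hg3 := hin s h1 le_rfl g hg1
  have hXt := (B.tau_X s hs).2
  have hgt : g ∈ B.tau s := by
    by_contra hgt
    exact (hg1.free hs (by omega) hgt) _ (by omega) (by omega) hXt
  have := hc s h1 le_rfl ⟨_, hXt, by omega, hX2⟩ g hgt hg2
  omega

/-- The case distinction. -/
theorem cases (h : Side B Lo Rs Tc) (hb : Base B Lo Rs Tc t a l q v) (hR : S.R t v)
    (hRz : S.R t (S.rho t v)) (hbG : B.IsG t (S.rho t v) (S.rho t (S.rho t v)) b) :
    (∃ y, ExA B Lo Rs Tc t a y) ∨ (∃ y, ExB B Lo Rs Tc t a y) ∨ (∃ y, ExC B Lo Rs Tc t a y) ∨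
      (∃ y, ExD B Lo Rs Tc t a y) ∨
      ∃ l', l < l' ∧ Lo l' b q ∧ l' < t ∧ (∀ r, l' < r → r < t → ¬ Tc r b ∧ ¬ Rs r b) ∧
        (∀ r, l ≤ r → r ≤ l' → ¬ Rs r q) ∧ (∃ v, B.P (l' + 1) b v) ∧ NoV B Lo l l' q := by
  have hb0 := hb
  obtain ⟨a1, a2, a3, a4, a5, a6⟩ := hb
  obtain ⟨e, he1, he2, he3, he4⟩ := h.dorm a1 a6 a2 a4 a5
  have hqg := (h.tc_lt l q (h.lo_tc l a q a1).2).2
  have hlq := h.tc_rs l q (h.lo_tc l a q a1).2
  -- the first reset of `q` after `l`
  obtain ⟨r0, ⟨hr0, hr1⟩, hr2⟩ := exists_first (P := fun r => l < r ∧ Rs r q) ⟨e, he1, he3⟩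
  have hr0e : r0 ≤ e := by
    by_contra hc
    exact hr2 e (by omega) ⟨he1, he3⟩
  by_cases hnx : NoV B Lo l r0 q
  · exact Or.inl ⟨(r0, q), l, v, hb0, hr0, hr1, hnx⟩
  -- the next partner
  obtain ⟨l', ⟨hl1, hl2, a', hl3, z', hl4⟩, hl5⟩ := exists_first
    (P := fun r => l < r ∧ r < r0 ∧ ∃ c, Lo r c q ∧ ∃ v, B.P (r + 1) c v) (by
      unfold NoV at hnx
      push Not at hnx
      obtain ⟨r, c, h1, h2, h3, h4⟩ := hnx
      exact ⟨r, h1, h2, c, h3, h4⟩)
  have hNoV : NoV B Lo l l' q := by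
    intro r c h1 h2 h3 h4
    exact hl5 r h2 ⟨h1, by omega, c, h3, h4⟩
  have hnR : ∀ r, l ≤ r → r ≤ l' → ¬ Rs r q := by
    intro r h1 h2 h3
    rcases lt_or_eq_of_le h1 with h4 | h4
    · exact hr2 r (by omega) ⟨h4, h3⟩
    · rw [← h4] at h3
      exact hlq h3
  -- (CHAIN)
  have hRE := h.re0 l a q v a1 a6
  have hRE' := h.stayRE (t := l') hRE (by omega) (by omega) (fun r h1 h2 => hnR r (by omega) h2.le)
    (fun r c h1 h2 => hNoV r c (by omega) h2)
  have hz : z' = S.rho (l + 1) v := h.re2 l' q _ a' z' hRE' hl3 hl4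
  subst hz
  set z := S.rho (l + 1) v with hzdef
  have hst := h.stayP (t := t) a6 (by omega) a3.le (fun r h1 h2 => a4 r (by omega) h2)
  -- events of `a'`
  by_cases hev : ∀ r, l' < r → r < t → ¬ Tc r a' ∧ ¬ Rs r a'
  · -- the good case
    right; right; right; right
    have h6 := h.stayP (t := t) hl4 (by omega) a3.le (fun r h1 h2 => hev r (by omega) h2)
    have hba : b = a' := by
      have h7 := h6.1.2.1
      rw [hst.2.2, ← hzdef] at hbG
      exact hbG.unique h7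
    subst hba
    exact ⟨l', hl1, hl3, by omega, hev, hnR, ⟨z, hl4⟩, hNoV⟩
  -- the first event
  obtain ⟨s, ⟨hs1, hs2, hs3⟩, hs4⟩ := exists_first
    (P := fun r => l' < r ∧ r < t ∧ (Tc r a' ∨ Rs r a')) (by
      push Not at hev
      obtain ⟨r, h1, h2, h3⟩ := hev
      by_cases h4 : Tc r a'
      · exact ⟨r, h1, h2, Or.inl h4⟩
      · exact ⟨r, h1, h2, Or.inr (h3 h4)⟩)
  have hsn : ∀ r, l' < r → r < s → ¬ Tc r a' ∧ ¬ Rs r a' := by
    intro r h1 h2
    constructor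
    · intro h3
      exact hs4 r h2 ⟨h1, by omega, Or.inl h3⟩
    · intro h3
      exact hs4 r h2 ⟨h1, by omega, Or.inr h3⟩
  have hNx : ∀ u, l' < u → u ≤ s → Nxt B Lo Rs Tc l q l' a' z u := by
    intro u h1 h2
    exact ⟨hl1, hl3, hl4, hNoV, h1, fun r h3 h4 => hsn r h3 (by omega)⟩
  rcases hs3 with hs3 | hs3
  swap
  · right; left
    exact ⟨(s, a'), l, q, v, l', z, hb0, hNx s hs1 le_rfl, hs3⟩
  have F := h.frozen hb0 (hNx s hs1 le_rfl) hs2 rfl
  have hsm : s < S.m := by omega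
  have hRs := h.tcR s a' z hs3 F.2.2.2.1
  -- `v` is not touched at `s`
  have hvE := h.stayE a6 a3.le (fun r h1 h2 => a4 r (by omega) h2) (r := s) (by omega) hs2
  have hXv : ¬ (S.lam s v < S.X s ∧ S.X s < S.rho s v) := by
    intro hc
    exact hvE ((Sys.E_iff hsm F.1.1).2 hc)
  rw [F.2.1, F.2.2.1] at hXv
  have hXz := hRs.2.2.1
  have hXz2 := hRs.2.2.2
  have hXb : S.X s ≤ S.lam (l + 1) v := by omega
  rcases lt_or_eq_of_le hXb with hXb | hXb
  swap
  · right; right; left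
    exact ⟨s, l, q, v, l', a', z, hb0, hNx s hs1 le_rfl, hs2, rfl, hRs, hXb⟩
  -- (b2')
  right; right; right; left
  have hvK := F.1.1
  have hzK := F.2.2.2.1.1
  have hkz := S.key z hzK
  have hlv := S.lam_lt s hsm.le v hvK
  rw [F.2.1] at hlv
  have hvz := S.lt_rho s hsm.le v hvK
  rw [F.2.2.1] at hvz
  rw [F.2.2.2.2.1] at hXz2
  have hcr := cross (B := B) (l := l' + 1) (s := s) (v := v) (z := z) (q := q)
    (a0 := S.lam (l' + 1) z) (b0 := S.lam (l + 1) v) ?_ hsm (by omega) hlv.le hvz (by omega)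
    (h.loTop l' a' q z hl3 hl4) ?_ ?_ ?_ hXz2 hXb
  · obtain ⟨u, hu1, hu2, ⟨r1, hr11, hr12, hr13⟩, r2, hr21, hr22, hr23⟩ := hcr
    -- the largest touched gap below `b0`
    classical
    have hne : ((B.tau u).filter (fun r => r < S.lam (l + 1) v)).Nonempty :=
      ⟨r1, Finset.mem_filter.2 ⟨hr11, hr13⟩⟩
    have hm1 := Finset.max'_mem _ hne
    rw [Finset.mem_filter] at hm1
    have hm2 := Finset.le_max' ((B.tau u).filter (fun r => r < S.lam (l + 1) v)) r1
      (Finset.mem_filter.2 ⟨hr11, hr13⟩)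
    refine ⟨(u, ((B.tau u).filter (fun r => r < S.lam (l + 1) v)).max' hne), l, q, v, l', a', z,
      hb0, hNx u (by omega) hu2, by simp only; omega, rfl, by simp only; omega, hm1.2, hm1.1, ?_,
      r2, hr21, hr22, hr23⟩
    intro r hr3 hr4
    exact Finset.le_max' ((B.tau u).filter (fun r => r < S.lam (l + 1) v)) r
      (Finset.mem_filter.2 ⟨hr3, hr4⟩)
  · omega
  · exact (h.loTop l a q v a1 a6).1
  · exact (h.loTop l a q v a1 a6).2.1
  · intro r hr1 hr2 g hg
    have F' := h.stayP (t := r) a6 (by omega) (by omega) (fun r' h1 h2 => a4 r' (by omega) (by omega))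
    obtain ⟨⟨_, hGa, r', hr3, hr4, hr5⟩, hF2, hF3⟩ := F'
    by_contra hc
    rw [hF3, ← hzdef] at hGa
    rw [hF2] at hr3
    have h7 := hg.max (r := r') (by omega) (by omega)
    have h8 := hGa.max (r := g) (by omega) hg.2.1
    omega

end Side

end Pool.Agent.SplPl
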