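import Pool.Agent.SplPl.FirstS

set_option autoImplicit false

/-!
# The first touches after a match: the number of exceptions, both sides
-/

namespace Pool.Agent.SplPl

open Pool.Agent.SplLog

namespace Side

variable {S : Sys} {B : Blk S} {Lo : ℕ → ℕ → ℕ → Prop} {Rs Tc : ℕ → ℕ → Prop}

/-- The first touches on one side. -/
theorem main (h : Side B Lo Rs Tc) (R0 : Finset (ℕ × ℕ)) (hR0 : ∀ t s, Rs t s → (t, s) ∈ R0) :
    ∃ E : Finset (ℕ × ℕ), E.card ≤ 2 * R0.card + S.m + B.tot ∧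
      ∀ t a b l q, B.UpR t a b → Lo l a q → l < t → (∀ r, l < r → r < t → ¬ Tc r a ∧ ¬ Rs r a) →
        Tc t a → (t, a) ∉ E → ∃ l', l < l' ∧ Lo l' b q ∧ l' < t ∧
          (∀ r, l' < r → r < t → ¬ Tc r b ∧ ¬ Rs r b) ∧ (∀ r, l ≤ r → r ≤ l' → ¬ Rs r q) ∧
          (∃ v, B.P (l + 1) a v) ∧ (∃ v, B.P (l' + 1) b v) ∧
          ∀ r c, l < r → r < l' → Lo r c q → ¬ ∃ v, B.P (r + 1) c v := by
  classical
  set U : Finset (ℕ × ℕ) := Finset.range S.m ×ˢ Blk.gs S with hU
  set EA := U.filter (fun x => ∃ y, ExA B Lo Rs Tc x.1 x.2 y) with hEA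
  set EB := U.filter (fun x => ∃ y, ExB B Lo Rs Tc x.1 x.2 y) with hEB
  set EC := U.filter (fun x => ∃ y, ExC B Lo Rs Tc x.1 x.2 y) with hEC
  set ED := U.filter (fun x => ∃ y, ExD B Lo Rs Tc x.1 x.2 y) with hED
  have cA : EA.card ≤ R0.card := by
    refine Finset.card_le_card_of_forall_subsingleton
      (fun x y => ExA B Lo Rs Tc x.1 x.2 y) ?_ ?_
    · intro x hx
      obtain ⟨y, hy⟩ := (Finset.mem_filter.1 hx).2
      obtain ⟨l, v, _, _, hy2, _⟩ := id hy
      exact ⟨y, hR0 _ _ hy2, hy⟩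
    · intro y _ x hx x' hx'
      obtain ⟨e1, e2⟩ := h.inj_A hx.2 hx'.2
      exact Prod.ext e1 e2
  have cB : EB.card ≤ R0.card := by
    refine Finset.card_le_card_of_forall_subsingleton
      (fun x y => ExB B Lo Rs Tc x.1 x.2 y) ?_ ?_
    · intro x hx
      obtain ⟨y, hy⟩ := (Finset.mem_filter.1 hx).2
      obtain ⟨l, q, v, l', z, _, _, hy2⟩ := id hy
      exact ⟨y, hR0 _ _ hy2, hy⟩
    · intro y _ x hx x' hx'
      obtain ⟨e1, e2⟩ := h.inj_B hx.2 hx'.2
      exact Prod.ext e1 e2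
  have cC : EC.card ≤ S.m := by
    have : (Finset.range S.m).card = S.m := Finset.card_range _
    rw [← this]
    refine Finset.card_le_card_of_forall_subsingleton
      (fun x y => ExC B Lo Rs Tc x.1 x.2 y) ?_ ?_
    · intro x hx
      obtain ⟨y, hy⟩ := (Finset.mem_filter.1 hx).2
      obtain ⟨l, q, v, l', a', z, _, _, _, _, hy2, _⟩ := id hy
      exact ⟨y, Finset.mem_range.2 hy2.1, hy⟩
    · intro y _ x hx x' hx'
      obtain ⟨e1, e2⟩ := h.inj_C hx.2 hx'.2
      exact Prod.ext e1 e2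
  have cD : ED.card ≤ B.tot := by
    have : ((Finset.range S.m).sigma (fun t => B.tau t)).card = B.tot := Finset.card_sigma _ _
    rw [← this]
    refine Finset.card_le_card_of_forall_subsingleton
      (fun x (y : (_ : ℕ) × ℕ) => ExD B Lo Rs Tc x.1 x.2 (y.1, y.2)) ?_ ?_
    · intro x hx
      obtain ⟨y, hy⟩ := (Finset.mem_filter.1 hx).2
      obtain ⟨l, q, v, l', a', z, hb, _, hy1, _, _, _, hy2, _⟩ := id hy
      have hb3 := hb.2.2.1
      exact ⟨⟨y.1, y.2⟩, Finset.mem_sigma.2 ⟨Finset.mem_range.2 (by simp only; omega), hy2⟩, hy⟩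
    · intro y _ x hx x' hx'
      obtain ⟨e1, e2⟩ := h.inj_D hx.2 hx'.2
      exact Prod.ext e1 e2
  refine ⟨EA ∪ EB ∪ EC ∪ ED, ?_, ?_⟩
  · have c1 := Finset.card_union_le (EA ∪ EB ∪ EC) ED
    have c2 := Finset.card_union_le (EA ∪ EB) EC
    have c3 := Finset.card_union_le EA EB
    omega
  · intro t a b l q hU' hlo hlt hn hT hE
    obtain ⟨hTa, hTb, v, hv, hvr, hGa, hGb⟩ := hU'
    have htm := hv.1
    have hna := Blk.TR_not_tau hTa
    have hPa : B.P t a v := Blk.R_P hv (hGa.free htm (Blk.rho_le htm.le hv.2.1) hna) hGa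
    have hn' : ∀ r, l + 1 ≤ r → r < t → ¬ Tc r a ∧ ¬ Rs r a := fun r h1 h2 => hn r (by omega) h2
    have hP : B.P (l + 1) a v := by
      rcases h.loPQ l a q hlo with ⟨v0, h0⟩ | ⟨v0, h0⟩
      · have h1 := (h.stayP (t := t) h0 (by omega) htm.le hn').1
        rw [← h1.inj htm.le hPa]
        exact h0
      · have h1 := h.stayQ (t := t) h0 (by omega) htm.le hn'
        exact (hPa.not_Q htm.le h1).elim
    have hb : Base B Lo Rs Tc t a l q v := ⟨hlo, hlt, htm, hn, hT, hP⟩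
    have hmem : (t, a) ∈ U := by
      rw [hU, Finset.mem_product]
      exact ⟨Finset.mem_range.2 htm, (h.tc_lt t a hT).2⟩
    rcases h.cases hb hv hvr hGb with h1 | h1 | h1 | h1 | h1
    · refine absurd (Finset.mem_union_left _ (Finset.mem_union_left _ (Finset.mem_union_left _
        (Finset.mem_filter.2 ⟨hmem, h1⟩)))) hE
    · refine absurd (Finset.mem_union_left _ (Finset.mem_union_left _ (Finset.mem_union_right _
        (Finset.mem_filter.2 ⟨hmem, h1⟩)))) hE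
    · refine absurd (Finset.mem_union_left _ (Finset.mem_union_right _
        (Finset.mem_filter.2 ⟨hmem, h1⟩))) hE
    · refine absurd (Finset.mem_union_right _ (Finset.mem_filter.2 ⟨hmem, h1⟩)) hE
    · obtain ⟨l', h2, h3, h4, h5, h6, h7, h8⟩ := h1
      exact ⟨l', h2, h3, h4, h5, h6, ⟨v, hP⟩, h7, h8⟩

end Side

end Pool.Agent.SplPl
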