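import Pool.Agent.SplPl.Heap
import Pool.Agent.Ply.EvCnt

set_option autoImplicit false

/-! SplPl/HCount.lean (helper41): the defect lemma and the counting theorem for heap systems -/

namespace Pool.Agent.SplPl

namespace HS

open Classical

/-- counting by an injective relation -/
theorem card_le_of_rel {α β : Type*} (s : Finset α) (t : Finset β) (r : α → β → Prop)
    (h1 : ∀ x ∈ s, ∃ y ∈ t, r x y) (h2 : ∀ x ∈ s, ∀ x' ∈ s, ∀ y ∈ t, r x y → r x' y → x = x') : s.card ≤ t.card := by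
  choose f hf hr using h1
  rw [← Finset.card_attach]
  apply Finset.card_le_card_of_injOn (fun x => f x.1 x.2)
  · intro x _
    exact hf x.1 x.2
  · intro x _ y _ hxy
    apply Subtype.ext
    apply h2 x.1 x.2 y.1 y.2 (f x.1 x.2) (hf _ _) (hr _ _)
    have : f x.1 x.2 = f y.1 y.2 := hxy
    rw [this]
    exact hr _ _

variable (S : HS)

/-- the event system of a heap system -/
noncomputable def ev (sg : ℕ → ℕ → Prop) : Ply.Ev where
  S := S.G
  m := S.m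
  H := S.H
  om := S.om
  res := S.Rs
  tch := S.Tc
  low t a := ∃ b, S.Lo t a b
  hi t a := if h : ∃ b, S.Lo t a b then h.choose else 0
  sg t a := if sg (t - 1) a then 1 else 0
  om_le := S.om_le
  om_eq := S.om_keep
  low_S := fun t s _ ⟨b, hb⟩ => (S.tc_lt t s (S.lo_tc t s b hb).1).2
  hi_S := fun t s _ h => by
    rw [dif_pos h]
    exact (S.tc_lt t _ (S.lo_tc t s _ h.choose_spec).2).2
  low_om := fun t s _ h => by
    rw [dif_pos h]
    exact S.lo_om t s _ h.choose_spec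
  low_tch := fun t s _ ⟨b, hb⟩ => (S.lo_tc t s b hb).1
  hi_tch := fun t s _ h => by
    rw [dif_pos h]
    exact (S.lo_tc t s _ h.choose_spec).2
  low_res := fun t s _ ⟨b, hb⟩ => S.tc_rs t s (S.lo_tc t s b hb).1
  hi_res := fun t s _ h => by
    rw [dif_pos h]
    exact S.tc_rs t _ (S.lo_tc t s _ h.choose_spec).2
  hi_low := fun t s _ h => by
    rw [dif_pos h]
    rintro ⟨c, hc⟩
    exact S.lo_n t s _ c h.choose_spec hc
  hi_inj := fun t s s' _ h h' he => by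
    rw [dif_pos h, dif_pos h'] at he
    have h1 := h.choose_spec
    have h2 := h'.choose_spec
    rw [← he] at h2
    exact S.lo_l t s s' _ h1 h2
  sg_le := fun t s => by
    split_ifs <;> omega

theorem ev_hi (sg : ℕ → ℕ → Prop) {t a b : ℕ} (h : S.Lo t a b) : (S.ev sg).hi t a = b := by
  have h1 : ∃ b, S.Lo t a b := ⟨b, h⟩
  show (if h : ∃ b, S.Lo t a b then h.choose else 0) = b
  rw [dif_pos h1]
  exact S.lo_r t a _ _ h1.choose_spec h

theorem ev_cnt (sg : ℕ → ℕ → Prop) (p : ℕ → ℕ → Prop) : (S.ev sg).cnt p = S.cnt p := by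
  unfold Ply.Ev.cnt cnt
  congr

/-- the dual heap system -/
def dual : HS where
  G := S.G
  m := S.m
  H := S.H
  om := S.om
  Rs := S.Rs
  Tc := S.Tc
  Lo := S.Lo
  Up t a b := S.Up t b a
  Nx t a b := S.Nx t b a
  rs_lt := S.rs_lt
  tc_lt := S.tc_lt
  tc_rs := S.tc_rs
  om_le := S.om_le
  om_keep := S.om_keep
  lo_tc := S.lo_tc
  lo_om := S.lo_om
  lo_up := fun t a b h => (S.lo_up t a b h).symm
  lo_r := S.lo_r
  lo_l := S.lo_l
  lo_n := S.lo_n
  up_tc := fun t a b h => (S.up_tc t b a h).symm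
  up_r := fun t a b b' h h' => S.up_l t b b' a h h'
  up_l := fun t a a' b h h' => S.up_r t b a a' h h'
  nx_tc := fun t a b h => (S.nx_tc t b a h).symm
  nx_r := fun t a b b' h h' => S.nx_l t b b' a h h'
  nx_l := fun t a a' b h h' => S.nx_r t b a a' h h'
  nx_up := fun t a b h => by
    rcases S.nx_up t b a h with h1 | ⟨u, h1, h2, h3⟩ | ⟨u, v, h1, h2, h3, h4, h5⟩
    · exact Or.inl h1
    · exact Or.inr (Or.inl ⟨u, h1, h3, h2⟩)
    · exact Or.inr (Or.inr ⟨v, u, h2, h1, h5, h4, h3⟩)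
  perm := fun t u a b h1 h2 h3 h4 h5 h6 h7 =>
    S.perm t u b a h1 h2 h3 (fun r h8 h9 => ⟨(h4 r h8 h9).2.2.1, (h4 r h8 h9).2.2.2, (h4 r h8 h9).1, (h4 r h8 h9).2.1⟩)
      h6 h5 h7.symm

theorem dual_ev (sg : ℕ → ℕ → Prop) : S.dual.ev sg = S.ev sg := rfl

/-- a frozen relation of an event system -/
structure Frz (E : Ply.Ev) (R : ℕ → ℕ → ℕ → Prop) : Prop where
  refl : ∀ t a, R t a a
  symm : ∀ t a b, R t a b → R t b a
  trans : ∀ t a b c, R t a b → R t b c → R t a c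
  idx : ∀ t a b, R t a b → E.idx t a = E.idx t b
  step : ∀ t a b, ¬ E.low t a → ¬ E.res t a → ¬ E.low t b → ¬ E.res t b → (E.tch t a ↔ E.tch t b) →
    R t a b → R (t + 1) a b

theorem frz_sim (E : Ply.Ev) : Frz E E.sim where
  refl t a := ⟨rfl, rfl⟩
  symm t a b h := ⟨h.1.symm, h.2.symm⟩
  trans t a b c h h' := ⟨h.1.trans h'.1, h.2.trans h'.2⟩
  idx t a b h := by unfold Ply.Ev.idx; rw [h.2]
  step t a b h1 h2 h3 h4 h5 h := by
    refine ⟨?_, ?_⟩
    · rw [E.lab_step h2 h1, E.lab_step h4 h3, h.1]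
    · rw [E.tim_step h2 h1, E.tim_step h4 h3, h.2]
      simp only [h5]

/-- `a ~ b` and `f (kappa a) = f (kappa b)` -/
def simf (E : Ply.Ev) (f : ℕ → ℕ) (t a b : ℕ) : Prop := E.sim t a b ∧ f (E.kpa t a) = f (E.kpa t b)

/-- `s` is LOW at `t` and `f` of its level changes -/
def chgf (E : Ply.Ev) (f : ℕ → ℕ) (t s : ℕ) : Prop := E.low t s ∧ f (E.kap (t + 1) s) ≠ f (E.kap t s)

theorem frz_simf (E : Ply.Ev) (f : ℕ → ℕ) : Frz E (simf E f) where
  refl t a := ⟨⟨rfl, rfl⟩, rfl⟩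
  symm t a b h := ⟨(frz_sim E).symm _ _ _ h.1, h.2.symm⟩
  trans t a b c h h' := ⟨(frz_sim E).trans _ _ _ _ h.1 h'.1, h.2.trans h'.2⟩
  idx t a b h := (frz_sim E).idx _ _ _ h.1
  step t a b h1 h2 h3 h4 h5 h := by
    refine ⟨(frz_sim E).step _ _ _ h1 h2 h3 h4 h5 h.1, ?_⟩
    rw [E.kpa_step h2 h1, E.kpa_step h4 h3, h.2]

theorem frz_simk (E : Ply.Ev) : Frz E E.simk := frz_simf E id

theorem Frz.const {E : Ply.Ev} {R : ℕ → ℕ → ℕ → Prop} (hR : Frz E R) {u v a b : ℕ} (huv : u ≤ v)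
    (h : ∀ w, u ≤ w → w < v → (¬ E.low w a ∧ ¬ E.res w a ∧ ¬ E.tch w a) ∧ (¬ E.low w b ∧ ¬ E.res w b ∧ ¬ E.tch w b))
    (h0 : R u a b) : R v a b := by
  induction v, huv using Nat.le_induction with
  | base => exact h0
  | succ v hv ih =>
    obtain ⟨⟨h1, h2, h3⟩, h4, h5, h6⟩ := h v hv (Nat.lt_succ_self v)
    exact hR.step v a b h1 h2 h4 h5 (by simp [h3, h6]) (ih (fun w h1 h2 => h w h1 (by omega)))

/-- the previous touch in the epoch -/
theorem prev (E : Ply.Ev) {t a i : ℕ} (h : E.idx t a = i + 1) :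
    ∃ t0, t0 < t ∧ E.tch t0 a ∧ E.idx t0 a = i ∧ (∀ w, t0 < w → w < t → ¬ E.tch w a) ∧
      (∀ w, t0 ≤ w → w < t → ¬ E.res w a ∧ ¬ E.low w a) := by
  induction t with
  | zero => simp [Ply.Ev.idx, Ply.Ev.tim] at h
  | succ t ih =>
    by_cases hrl : E.res t a ∨ E.low t a
    · rw [E.idx_start hrl] at h
      omega
    · have hr : ¬ E.res t a := fun hh => hrl (Or.inl hh)
      have hl : ¬ E.low t a := fun hh => hrl (Or.inr hh)
      rw [E.idx_step hr hl] at h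
      split_ifs at h with ht
      · refine ⟨t, Nat.lt_succ_self t, ht, by omega, ?_, ?_⟩
        · intro w h1 h2; omega
        · intro w h1 h2
          have : w = t := by omega
          subst this
          exact ⟨hr, hl⟩
      · obtain ⟨t0, h1, h2, h3, h4, h5⟩ := ih h
        refine ⟨t0, by omega, h2, h3, ?_, ?_⟩
        · intro w h6 h7
          rcases Nat.lt_succ_iff_lt_or_eq.mp h7 with h8 | h8
          · exact h4 w h6 h8
          · subst h8; exact ht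
        · intro w h6 h7
          rcases Nat.lt_succ_iff_lt_or_eq.mp h7 with h8 | h8
          · exact h5 w h6 h8
          · subst h8; exact ⟨hr, hl⟩

/-! ### counting for heap systems -/

theorem cnt_mono {p q : ℕ → ℕ → Prop} (h : ∀ t s, t < S.m → s ∈ S.G → p t s → q t s) : S.cnt p ≤ S.cnt q := by
  rw [← S.ev_cnt (fun _ _ => True), ← S.ev_cnt (fun _ _ => True)]
  exact (S.ev (fun _ _ => True)).cnt_mono h

theorem cnt_or (p q : ℕ → ℕ → Prop) : S.cnt (fun t s => p t s ∨ q t s) ≤ S.cnt p + S.cnt q := by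
  rw [← S.ev_cnt (fun _ _ => True), ← S.ev_cnt (fun _ _ => True), ← S.ev_cnt (fun _ _ => True)]
  exact (S.ev (fun _ _ => True)).cnt_or p q

theorem cnt_rel {p q : ℕ → ℕ → Prop} (r : ℕ → ℕ → ℕ → ℕ → Prop)
    (h1 : ∀ t a, t < S.m → a ∈ S.G → p t a → ∃ t' a', t' < S.m ∧ a' ∈ S.G ∧ q t' a' ∧ r t a t' a')
    (h2 : ∀ t a u b t' a', r t a t' a' → r u b t' a' → t = u ∧ a = b) : S.cnt p ≤ S.cnt q := by
  unfold cnt
  apply card_le_of_rel _ _ (fun x y => r x.1 x.2 y.1 y.2)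
  · intro x hx
    simp only [Finset.mem_filter, Finset.mem_product, Finset.mem_range] at hx
    obtain ⟨t', a', h3, h4, h5, h6⟩ := h1 x.1 x.2 hx.1.1 hx.1.2 hx.2
    refine ⟨(t', a'), ?_, h6⟩
    simp only [Finset.mem_filter, Finset.mem_product, Finset.mem_range]
    exact ⟨⟨h3, h4⟩, h5⟩
  · intro x _ x' _ y _ h3 h4
    obtain ⟨h5, h6⟩ := h2 _ _ _ _ _ _ h3 h4
    exact Prod.ext h5 h6

/-- `t` is the previous touch of `a` before its touch at `u`, kept at `t`, no reset -/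
def Prv (t u a : ℕ) : Prop :=
  t < u ∧ S.Kt t a ∧ S.Tc u a ∧ (∀ w, t < w → w < u → ¬ S.Tc w a) ∧ (∀ w, t ≤ w → w ≤ u → ¬ S.Rs w a)

theorem Prv.inj {S : HS} {t u u' a : ℕ} (h : S.Prv t u a) (h' : S.Prv t u' a) : u = u' := by
  obtain ⟨h1, h2, h3, h4, h5⟩ := h
  obtain ⟨g1, g2, g3, g4, g5⟩ := h'
  rcases lt_trichotomy u u' with hl | he | hg
  · exact absurd h3 (g4 u h1 hl)
  · exact he
  · exact absurd g3 (h4 u' g1 hg)

theorem prv_of_idx (sg : ℕ → ℕ → Prop) {u a i : ℕ} (h : (S.ev sg).idx u a = i + 1) (hu : S.Tc u a) :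
    ∃ t, S.Prv t u a ∧ (S.ev sg).idx t a = i := by
  obtain ⟨t, h1, h2, h3, h4, h5⟩ := prev (S.ev sg) h
  refine ⟨t, ⟨h1, ⟨h2, ?_⟩, hu, h4, ?_⟩, h3⟩
  · intro b hb
    exact (h5 t le_rfl h1).2 ⟨b, hb⟩
  · intro w h6 h7
    rcases Nat.eq_or_lt_of_le h7 with h8 | h8
    · subst h8; exact S.tc_rs _ _ hu
    · exact (h5 w h6 h8).1

/-- permanence up to the next touch -/
theorem perm_next {t u a b : ℕ} (hn : S.Nx t a b) (hp : S.Prv t u a) (hu : u < S.m)
    (hr : ∀ r, t < r → r ≤ u → ¬ S.Rs r b) : S.Up u a b ∧ ∀ r, t < r → r < u → ¬ S.Tc r b := by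
  obtain ⟨h1, h2, h3, h4, h5⟩ := hp
  have key : ∀ r, t < r → r < u → ¬ S.Tc r b := by
    intro r
    induction r using Nat.strong_induction_on with
    | _ r ih =>
      intro h6 h7 h8
      have h9 := S.perm t r a b hn h6 (by omega) (fun w hw1 hw2 => ⟨h4 w hw1 (by omega), h5 w (by omega) (by omega),
        ih w hw2 hw1 (by omega), hr w hw1 (by omega)⟩) (h5 r (by omega) (by omega)) (hr r h6 (by omega)) (Or.inr h8)
      exact h4 r h6 h7 (S.up_tc _ _ _ h9).1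
  refine ⟨S.perm t u a b hn h1 hu (fun w hw1 hw2 => ⟨h4 w hw1 hw2, h5 w (by omega) (by omega), key w hw1 hw2,
    hr w hw1 (by omega)⟩) (h5 u (by omega) le_rfl) (hr u h1 le_rfl) (Or.inl h3), key⟩

/-- exceptional touches -/
def exc (u a : ℕ) : Prop := ∃ t, S.Prv t u a ∧
  ((∀ b, ¬ S.Nx t a b) ∨ ∃ b r, S.Nx t a b ∧ t < r ∧ r ≤ u ∧ S.Rs r b)

theorem exc_count : S.cnt S.exc ≤ S.NTop + S.NRs := by
  refine le_trans (S.cnt_mono (q := fun u a => (∃ t, S.Prv t u a ∧ ∀ b, ¬ S.Nx t a b) ∨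
    (∃ t, S.Prv t u a ∧ ∃ b r, S.Nx t a b ∧ t < r ∧ r ≤ u ∧ S.Rs r b)) ?_) (le_trans (S.cnt_or _ _) ?_)
  · rintro u a _ _ ⟨t, h1, h2 | h2⟩
    · exact Or.inl ⟨t, h1, h2⟩
    · exact Or.inr ⟨t, h1, h2⟩
  · apply Nat.add_le_add
    · apply S.cnt_rel (fun u a t a' => a = a' ∧ S.Prv t u a)
      · rintro u a hu ha ⟨t, h1, h2⟩
        have := h1.1
        exact ⟨t, a, by omega, ha, ⟨h1.2.1, h2⟩, rfl, h1⟩
      · rintro u a u' a' t b ⟨h1, h2⟩ ⟨h3, h4⟩
        subst h1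
        subst h3
        exact ⟨h2.inj h4, rfl⟩
    · apply S.cnt_rel (fun u a r b => ∃ t, S.Prv t u a ∧ S.Nx t a b ∧ t < r ∧ r ≤ u ∧
        (∀ w, t < w → w < r → ¬ S.Tc w b))
      · rintro u a hu ha ⟨t, h1, b, r, h2, h3, h4, h5⟩
        have hex : ∃ r, t < r ∧ S.Rs r b := ⟨r, h3, h5⟩
        obtain ⟨g1, g2⟩ := Nat.find_spec hex
        have g3 : Nat.find hex ≤ r := Nat.find_min' hex ⟨h3, h5⟩
        have g4 : ∀ w, t < w → w < Nat.find hex → ¬ S.Rs w b := by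
          intro w hw1 hw2 hw3
          exact Nat.find_min hex hw2 ⟨hw1, hw3⟩
        set r0 := Nat.find hex
        refine ⟨r0, b, by omega, (S.rs_lt _ _ g2).2, g2, t, h1, h2, g1, by omega, ?_⟩
        intro w
        induction w using Nat.strong_induction_on with
        | _ w ih =>
          intro hw1 hw2 hw3
          have h9 := S.perm t w a b h2 hw1 (by omega) (fun z hz1 hz2 => ⟨h1.2.2.2.1 z hz1 (by omega),
            h1.2.2.2.2 z (by omega) (by omega), ih z hz2 hz1 (by omega), g4 z hz1 (by omega)⟩)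
            (h1.2.2.2.2 w (by omega) (by omega)) (g4 w hw1 hw2) (Or.inr hw3)
          exact h1.2.2.2.1 w hw1 (by omega) (S.up_tc _ _ _ h9).1
      · rintro u a u' a' r b ⟨t, h1, h2, h3, h4, h5⟩ ⟨t', g1, g2, g3, g4, g5⟩
        have htt : t = t' := by
          rcases lt_trichotomy t t' with hl | he | hg
          · exact absurd (S.nx_tc _ _ _ g2).2.1 (h5 t' hl g3)
          · exact he
          · exact absurd (S.nx_tc _ _ _ h2).2.1 (g5 t hg h3)
        subst htt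
        have haa := S.nx_l _ _ _ _ h2 g2
        subst haa
        exact ⟨h1.inj g1, rfl⟩

/-- defective pairs with lower player of index `i` -/
def Dp (sg : ℕ → ℕ → Prop) (R : ℕ → ℕ → ℕ → Prop) (i : ℕ) (t a : ℕ) : Prop :=
  (∃ b, S.Up t a b ∧ ¬ R t a b) ∧ (S.ev sg).idx t a = i

theorem defect_step (sg : ℕ → ℕ → Prop) {R : ℕ → ℕ → ℕ → Prop} (hR : Frz (S.ev sg) R) (i : ℕ) :
    S.cnt (S.Dp sg R (i + 1)) ≤ S.cnt (S.Dp sg R i) + S.cnt (fun t a => S.exc t a ∧ (S.ev sg).idx t a = i + 1) := by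
  refine le_trans (S.cnt_mono (q := fun u a => (S.Dp sg R (i + 1) u a ∧ ¬ S.exc u a) ∨
    (S.exc u a ∧ (S.ev sg).idx u a = i + 1)) ?_) (le_trans (S.cnt_or _ _) (Nat.add_le_add_right ?_ _))
  · intro u a _ _ h
    by_cases he : S.exc u a
    · exact Or.inr ⟨he, h.2⟩
    · exact Or.inl ⟨h, he⟩
  · apply S.cnt_rel (fun u a t z => S.Prv t u a ∧ (z = a ∨ ((∃ c, S.Lo t z c) ∧
      (S.Up t a z ∨ ∃ x, (∃ c, S.Lo t x c) ∧ S.Up t a x ∧ S.Up t x z))))
    · rintro u a hu ha ⟨⟨⟨b0, hb0, hnR⟩, hidx⟩, hexc⟩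
      have hTu := (S.up_tc _ _ _ hb0).1
      obtain ⟨t, hp, hi⟩ := S.prv_of_idx sg hidx hTu
      have hlt := hp.1
      have h1 : ∃ b, S.Nx t a b := by
        by_contra hcon
        push Not at hcon
        exact hexc ⟨t, hp, Or.inl hcon⟩
      obtain ⟨b, hb⟩ := h1
      have h2 : ∀ r, t < r → r ≤ u → ¬ S.Rs r b := by
        intro r hr1 hr2 hr3
        exact hexc ⟨t, hp, Or.inr ⟨b, r, hb, hr1, hr2, hr3⟩⟩
      obtain ⟨h3, h4⟩ := S.perm_next hb hp hu h2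
      have hbb := S.up_r _ _ _ _ h3 hb0
      subst hbb
      obtain ⟨⟨hTa, hLa⟩, hTb, hLb⟩ := S.nx_tc _ _ _ hb
      have hnRt : ¬ R t a b := by
        intro hcon
        apply hnR
        have e1 : R (t + 1) a b := hR.step t a b (fun ⟨c, hc⟩ => hLa c hc) (S.tc_rs _ _ hTa)
          (fun ⟨c, hc⟩ => hLb c hc) (S.tc_rs _ _ hTb) (by exact ⟨fun _ => hTb, fun _ => hTa⟩) hcon
        refine hR.const (by omega) ?_ e1
        intro w hw1 hw2
        have f1 := hp.2.2.2.1 w (by omega) hw2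
        have f2 := hp.2.2.2.2 w (by omega) (by omega)
        have f3 := h4 w (by omega) hw2
        have f4 := h2 w (by omega) (by omega)
        refine ⟨⟨fun ⟨c, hc⟩ => f1 (S.lo_tc _ _ _ hc).1, f2, f1⟩, fun ⟨c, hc⟩ => f3 (S.lo_tc _ _ _ hc).1, f4, f3⟩
      have hG : ∀ z, S.Tc t z → z ∈ S.G := fun z hz => (S.tc_lt _ _ hz).2
      rcases S.nx_up _ _ _ hb with g | ⟨x, gx, g1, g2⟩ | ⟨x, y, gx, gy, g1, g2, g3⟩
      · exact ⟨t, a, by omega, ha, ⟨⟨b, g, hnRt⟩, hi⟩, hp, Or.inl rfl⟩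
      · by_cases hx : R t a x
        · refine ⟨t, x, by omega, hG x (S.up_tc _ _ _ g1).2, ⟨⟨b, g2, ?_⟩, ?_⟩, hp, Or.inr ⟨gx, Or.inl g1⟩⟩
          · intro hcon
            exact hnRt (hR.trans _ _ _ _ hx hcon)
          · rw [← hR.idx _ _ _ hx]; exact hi
        · exact ⟨t, a, by omega, ha, ⟨⟨x, g1, hx⟩, hi⟩, hp, Or.inl rfl⟩
      · by_cases hx : R t a x
        · by_cases hy : R t x y
          · refine ⟨t, y, by omega, hG y (S.up_tc _ _ _ g2).2, ⟨⟨b, g3, ?_⟩, ?_⟩, hp,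
              Or.inr ⟨gy, Or.inr ⟨x, gx, g1, g2⟩⟩⟩
            · intro hcon
              exact hnRt (hR.trans _ _ _ _ hx (hR.trans _ _ _ _ hy hcon))
            · rw [← hR.idx _ _ _ hy, ← hR.idx _ _ _ hx]; exact hi
          · refine ⟨t, x, by omega, hG x (S.up_tc _ _ _ g1).2, ⟨⟨y, g2, hy⟩, ?_⟩, hp, Or.inr ⟨gx, Or.inl g1⟩⟩
            rw [← hR.idx _ _ _ hx]; exact hi
        · exact ⟨t, a, by omega, ha, ⟨⟨x, g1, hx⟩, hi⟩, hp, Or.inl rfl⟩
    · rintro u a u' a' t z ⟨hp, h⟩ ⟨hp', h'⟩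
      have haa : a = a' := by
        rcases h with h | ⟨h1, h2⟩
        · rcases h' with h' | ⟨⟨c, h1'⟩, h2'⟩
          · rw [← h, h']
          · subst h
            exact absurd h1' (hp.2.1.2 c)
        · rcases h' with h' | ⟨h1', h2'⟩
          · obtain ⟨c, hc⟩ := h1
            subst h'
            exact absurd hc (hp'.2.1.2 c)
          · rcases h2 with h2 | ⟨x, ⟨c, hx⟩, h3, h4⟩
            · rcases h2' with h2' | ⟨x', ⟨c', hx'⟩, h3', h4'⟩
              · exact S.up_l _ _ _ _ h2 h2'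
              · have := S.up_l _ _ _ _ h2 h4'
                subst this
                exact absurd hx' (hp.2.1.2 c')
            · rcases h2' with h2' | ⟨x', ⟨c', hx'⟩, h3', h4'⟩
              · have := S.up_l _ _ _ _ h2' h4
                subst this
                exact absurd hx (hp'.2.1.2 c)
              · have := S.up_l _ _ _ _ h4 h4'
                subst this
                exact S.up_l _ _ _ _ h3 h3'
      subst haa
      exact ⟨hp.inj hp', rfl⟩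

theorem defect_all (sg : ℕ → ℕ → Prop) {R : ℕ → ℕ → ℕ → Prop} (hR : Frz (S.ev sg) R) (i : ℕ) :
    S.cnt (S.Dp sg R i) ≤ S.cnt (S.Dp sg R 0) + (S.NTop + S.NRs) := by
  have h : S.cnt (S.Dp sg R i) ≤ S.cnt (S.Dp sg R 0) + S.cnt (fun t a => S.exc t a ∧ (S.ev sg).idx t a ≤ i) := by
    induction i with
    | zero => omega
    | succ i ih =>
      refine le_trans (S.defect_step sg hR i) ?_
      have : S.cnt (fun t a => S.exc t a ∧ (S.ev sg).idx t a ≤ i) +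
          S.cnt (fun t a => S.exc t a ∧ (S.ev sg).idx t a = i + 1) ≤
          S.cnt (fun t a => S.exc t a ∧ (S.ev sg).idx t a ≤ i + 1) := by
        unfold cnt
        rw [← Finset.card_union_of_disjoint]
        · apply Finset.card_le_card
          intro x hx
          simp only [Finset.mem_union, Finset.mem_filter] at hx ⊢
          rcases hx with ⟨h1, h2, h3⟩ | ⟨h1, h2, h3⟩
          · exact ⟨h1, h2, by omega⟩
          · exact ⟨h1, h2, by omega⟩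
        · rw [Finset.disjoint_left]
          intro x hx hx'
          simp only [Finset.mem_filter] at hx hx'
          have := hx.2.2
          have := hx'.2.2
          omega
      omega
  refine le_trans h (Nat.add_le_add_left (le_trans (S.cnt_mono (fun t a _ _ h => h.1)) S.exc_count) _)

theorem defect_lt (sg : ℕ → ℕ → Prop) {R : ℕ → ℕ → ℕ → Prop} (hR : Frz (S.ev sg) R) (J : ℕ) :
    S.cnt (fun t a => (∃ b, S.Up t a b ∧ ¬ R t a b) ∧ (S.ev sg).idx t a < J) ≤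
      J * (S.cnt (S.Dp sg R 0) + (S.NTop + S.NRs)) := by
  induction J with
  | zero =>
    simp only [not_lt_zero, and_false, zero_mul]
    unfold cnt
    simp
  | succ J ih =>
    refine le_trans (S.cnt_mono (q := fun t a => ((∃ b, S.Up t a b ∧ ¬ R t a b) ∧ (S.ev sg).idx t a < J) ∨
      S.Dp sg R J t a) ?_) (le_trans (S.cnt_or _ _) ?_)
    · rintro t a _ _ ⟨h1, h2⟩
      rcases Nat.lt_succ_iff_lt_or_eq.mp h2 with h3 | h3
      · exact Or.inl ⟨h1, h3⟩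
      · exact Or.inr ⟨h1, h3⟩
    · rw [Nat.succ_mul]
      exact Nat.add_le_add ih (S.defect_all sg hR J)

/-! ### first touches after a match -/

/-- first touch of an epoch which was not started by a match -/
theorem birth_count (E : Ply.Ev) : E.cnt (fun t a => E.tch t a ∧ E.idx t a = 0 ∧ ¬ E.isL t a ∧ ¬ E.res t a) ≤
    E.S.card + E.cnt E.res := by
  have h := E.cnt_pot (fun t s => if E.idx t s = 0 ∧ ¬ E.isL t s then 0 else 1)
    (fun t a => E.tch t a ∧ E.idx t a = 0 ∧ ¬ E.isL t a ∧ ¬ E.res t a) E.res 1 ?_ ?_ ?_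
  · rw [one_mul] at h
    exact h
  · intro t s _ _
    show (if E.idx t s = 0 ∧ ¬ E.isL t s then 0 else 1) ≤ 1
    split_ifs <;> omega
  · rintro t s _ _ ⟨h1, h2, h3, h4⟩
    show (if E.idx t s = 0 ∧ ¬ E.isL t s then 0 else 1) + 1 ≤ (if E.idx (t + 1) s = 0 ∧ ¬ E.isL (t + 1) s then 0 else 1)
    rw [if_pos ⟨h2, h3⟩]
    by_cases hl : E.low t s
    · rw [if_neg (fun hh => hh.2 (E.isL_start hl))]
    · rw [if_neg]
      rintro ⟨h5, _⟩
      rw [E.idx_step h4 hl, if_pos h1] at h5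
      omega
  · intro t s _ _ h1 h2
    show (if E.idx t s = 0 ∧ ¬ E.isL t s then 0 else 1) ≤ (if E.idx (t + 1) s = 0 ∧ ¬ E.isL (t + 1) s then 0 else 1)
    by_cases hl : E.low t s
    · rw [if_neg (c := E.idx (t + 1) s = 0 ∧ ¬ E.isL (t + 1) s) (fun hh => hh.2 (E.isL_start hl))]
      split_ifs <;> omega
    · by_cases h3 : E.idx (t + 1) s = 0 ∧ ¬ E.isL (t + 1) s
      · rw [if_pos h3, if_pos]
        obtain ⟨h4, h5⟩ := h3
        rw [E.idx_step h2 hl] at h4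
        refine ⟨?_, fun hh => h5 ((E.isL_step h2 hl).2 hh)⟩
        split_ifs at h4
        omega
      · rw [if_neg h3]
        split_ifs <;> omega

/-- an epoch started by a match, nothing touched since: `Last` -/
theorem last_of_isL (sg : ℕ → ℕ → Prop) {t a : ℕ} (h : (S.ev sg).isL t a) (h0 : (S.ev sg).idx t a = 0) :
    ∃ l q, S.Last l t a q ∧ (S.ev sg).org t a = l + 1 := by
  obtain ⟨h1, h2⟩ := h
  have h3 := (S.ev sg).org_le t a
  obtain ⟨q, hq⟩ := h2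
  refine ⟨(S.ev sg).org t a - 1, q, ⟨hq, by omega, ?_⟩, by omega⟩
  intro r hr1 hr2
  refine ⟨?_, ((S.ev sg).not_ev_since t a r (by omega) hr2).1⟩
  intro hT
  have h4 : r ∈ (S.ev sg).tim t a := by
    unfold Ply.Ev.tim
    simp only [Finset.mem_filter, Finset.mem_Ico]
    exact ⟨⟨by omega, hr2⟩, hT⟩
  unfold Ply.Ev.idx at h0
  rw [Finset.card_eq_zero] at h0
  rw [h0] at h4
  simp at h4

/-- everything about `Last` -/
theorem last_spec (sg : ℕ → ℕ → Prop) {l t a q : ℕ} (h : S.Last l t a q) :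
    (S.ev sg).isL t a ∧ (S.ev sg).org t a = l + 1 ∧ (S.ev sg).tim t a = ∅ ∧
      (S.ev sg).lab t a = (q, (S.ev sg).bth l q, if sg l a then 1 else 0) ∧
      (S.ev sg).kpa t a = (S.ev sg).kap l q := by
  obtain ⟨h1, h2, h3⟩ := h
  have hlow : (S.ev sg).low l a := ⟨q, h1⟩
  have hhi : (S.ev sg).hi l a = q := S.ev_hi sg h1
  have hno : ∀ u, l < u → u < t → ¬ (S.ev sg).low u a ∧ ¬ (S.ev sg).res u a := by
    intro u hu1 hu2
    refine ⟨fun ⟨c, hc⟩ => (h3 u hu1 hu2).1 (S.lo_tc _ _ _ hc).1, (h3 u hu1 hu2).2⟩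
  have ho := (S.ev sg).org_of_low h2 hlow hno
  have hL := (S.ev sg).isL_of_low h2 hlow hno
  refine ⟨hL, ho, ?_, ?_, ?_⟩
  · unfold Ply.Ev.tim
    rw [ho]
    apply Finset.filter_false_of_mem
    intro x hx
    rw [Finset.mem_Ico] at hx
    exact (h3 x (by omega) hx.2).1
  · unfold Ply.Ev.lab
    rw [if_pos hL, ho, Nat.add_sub_cancel, hhi]
    rfl
  · unfold Ply.Ev.kpa
    rw [if_pos hL, ho, Nat.add_sub_cancel, hhi]

theorem sim_of_first (sg : ℕ → ℕ → Prop) {l l' t a b q : ℕ} (h : S.Last l t a q) (h' : S.Last l' t b q) (hll : l < l')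
    (hr : ∀ r, l ≤ r → r ≤ l' → ¬ S.Rs r q) (hs : sg l a ↔ sg l' b) : (S.ev sg).sim t a b := by
  obtain ⟨_, _, h1, h2, _⟩ := S.last_spec sg h
  obtain ⟨_, _, g1, g2, _⟩ := S.last_spec sg h'
  refine ⟨?_, ?_⟩
  · rw [h2, g2, (S.ev sg).bth_eq_of_not_res (u := l) (v := l') hll.le (fun w hw1 hw2 => hr w hw1 hw2.le)]
    simp only [hs]
  · rw [h1, g1]

/-- defects of index 0 -/
theorem dp_zero (sg : ℕ → ℕ → Prop) (X : Finset (ℕ × ℕ)) (hF : S.First sg X) (R : ℕ → ℕ → ℕ → Prop) (D : ℕ)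
    (hD : S.cnt (fun t a => ∃ l l' b q, S.Last l t a q ∧ S.Last l' t b q ∧ S.Tc t a ∧ l < l' ∧
      (∀ r, l ≤ r → r ≤ l' → ¬ S.Rs r q) ∧ (sg l a ↔ sg l' b) ∧
      (∀ r c, l < r → r < l' → S.Lo r c q → ¬ (sg r c ↔ sg l a)) ∧ ¬ R t a b) ≤ D) :
    S.cnt (S.Dp sg R 0) ≤ S.G.card + S.NRs + X.card + D := by
  have h1 : S.cnt (S.Dp sg R 0) ≤
      S.cnt (fun t a => ((S.ev sg).tch t a ∧ (S.ev sg).idx t a = 0 ∧ ¬ (S.ev sg).isL t a ∧ ¬ (S.ev sg).res t a)) +
      (S.cnt (fun t a => (t, a) ∈ X) +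
      S.cnt (fun t a => ∃ l l' b q, S.Last l t a q ∧ S.Last l' t b q ∧ S.Tc t a ∧ l < l' ∧
      (∀ r, l ≤ r → r ≤ l' → ¬ S.Rs r q) ∧ (sg l a ↔ sg l' b) ∧
      (∀ r c, l < r → r < l' → S.Lo r c q → ¬ (sg r c ↔ sg l a)) ∧ ¬ R t a b)) := by
    refine le_trans (S.cnt_mono ?_) (le_trans (S.cnt_or _ _) (Nat.add_le_add_left (S.cnt_or _ _) _))
    rintro t a ht ha ⟨⟨b, hb, hnR⟩, hi⟩
    have hTa := (S.up_tc _ _ _ hb).1
    by_cases hL : (S.ev sg).isL t a
    · right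
      by_cases hX : (t, a) ∈ X
      · left; exact hX
      · right
        obtain ⟨l, q, h1, h2⟩ := S.last_of_isL sg hL hi
        obtain ⟨l', h3, h4, h5, h6, h7⟩ := hF t a b l q hb h1 hX
        exact ⟨l, l', b, q, h1, h4, hTa, h3, h5, h6, h7, hnR⟩
    · left
      exact ⟨hTa, hi, hL, S.tc_rs _ _ hTa⟩
  have h2 := birth_count (S.ev sg)
  rw [S.ev_cnt, S.ev_cnt] at h2
  have h3 : S.cnt (fun t a => (t, a) ∈ X) ≤ X.card := by
    unfold cnt
    apply Finset.card_le_card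
    intro x hx
    simp only [Finset.mem_filter] at hx
    exact hx.2
  have h4 : (S.ev sg).S.card = S.G.card := rfl
  have h5 : S.cnt (S.ev sg).res = S.NRs := rfl
  omega

theorem dp_zero_sim (sg : ℕ → ℕ → Prop) (X : Finset (ℕ × ℕ)) (hF : S.First sg X) :
    S.cnt (S.Dp sg (S.ev sg).sim 0) ≤ S.G.card + S.NRs + X.card := by
  refine S.dp_zero sg X hF _ 0 ?_
  refine le_trans (S.cnt_mono (q := fun _ _ => False) ?_) (by unfold cnt; simp)
  rintro t a _ _ ⟨l, l', b, q, h1, h2, _, h3, h4, h5, _, h7⟩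
  exact h7 (S.sim_of_first sg h1 h2 h3 h4 h5)

/-- between two consecutive victims of `q` of the same sign with different `f` (level of `q`) there is a change of
`f` (level of `q`) -/
theorem kappa_half (sg : ℕ → ℕ → Prop) (f : ℕ → ℕ) (Z : ℕ → ℕ → Prop)
    (hZ : ∀ l a l' a', Z l a → Z l' a' → (sg l a ↔ sg l' a')) :
    S.cnt (fun t a => ∃ l l' b q, Z l a ∧ S.Last l t a q ∧ S.Last l' t b q ∧ S.Tc t a ∧ l < l' ∧
      (∀ r, l ≤ r → r ≤ l' → ¬ S.Rs r q) ∧ (sg l a ↔ sg l' b) ∧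
      (∀ r c, l < r → r < l' → S.Lo r c q → ¬ (sg r c ↔ sg l a)) ∧ ¬ simf (S.ev sg) f t a b) ≤
      S.cnt (chgf (S.ev sg) f) := by
  apply S.cnt_rel (fun t a r q => ∃ l l', Z l a ∧ S.Last l t a q ∧ S.Tc t a ∧ l < r ∧ r < l' ∧
    (∀ r c, l < r → r < l' → S.Lo r c q → ¬ (sg r c ↔ sg l a)))
  · rintro t a ht ha ⟨l, l', b, q, hz, h1, h2, h3, h4, h5, h6, h7, h8⟩
    have hqG : q ∈ S.G := (S.tc_lt _ _ (S.lo_tc _ _ _ h1.1).2).2
    have hl' := h2.2.1
    have hk : f ((S.ev sg).kap l q) ≠ f ((S.ev sg).kap l' q) := by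
      intro hcon
      apply h8
      refine ⟨S.sim_of_first sg h1 h2 h4 h5 h6, ?_⟩
      rw [(S.last_spec sg h1).2.2.2.2, (S.last_spec sg h2).2.2.2.2, hcon]
    have hex : ∃ r, l ≤ r ∧ r < l' ∧ f ((S.ev sg).kap (r + 1) q) ≠ f ((S.ev sg).kap r q) := by
      by_contra hcon
      push Not at hcon
      have : ∀ n, l + n ≤ l' → f ((S.ev sg).kap (l + n) q) = f ((S.ev sg).kap l q) := by
        intro n
        induction n with
        | zero => intro _; rfl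
        | succ n ih =>
          intro hn
          have := hcon (l + n) (by omega) (by omega)
          rw [← add_assoc, this]
          exact ih (by omega)
      have h9 := this (l' - l) (by omega)
      rw [show l + (l' - l) = l' by omega] at h9
      exact hk h9.symm
    obtain ⟨r, hr1, hr2, hr3⟩ := hex
    have hnr : ¬ S.Rs r q := h5 r hr1 hr2.le
    have hlow : (S.ev sg).low r q := by
      by_contra hcon
      exact hr3 (by rw [(S.ev sg).kap_step (t := r) (s := q) (by show r < S.m; omega) hqG hnr hcon])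
    have hlr : l < r := by
      rcases Nat.eq_or_lt_of_le hr1 with h9 | h9
      · exfalso
        subst h9
        obtain ⟨c, hc⟩ := hlow
        exact S.lo_n _ _ _ _ h1.1 hc
      · exact h9
    exact ⟨r, q, by omega, hqG, ⟨hlow, hr3⟩, l, l', hz, h1, h3, hlr, hr2, h7⟩
  · rintro t a u b r q ⟨l, l', hz, h1, h2, h3, h4, h5⟩ ⟨k, k', gz, g1, g2, g3, g4, g5⟩
    have hlk : l = k := by
      rcases lt_trichotomy l k with hl | he | hg
      · exact absurd (hZ _ _ _ _ gz hz) (h5 k b hl (by omega) g1.1)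
      · exact he
      · exact absurd (hZ _ _ _ _ hz gz) (g5 l a hg (by omega) h1.1)
    subst hlk
    have hab := S.lo_l _ _ _ _ h1.1 g1.1
    subst hab
    refine ⟨?_, rfl⟩
    rcases lt_trichotomy t u with hl | he | hg
    · exact absurd h2 (g1.2.2 t h1.2.1 hl).1
    · exact he
    · exact absurd g2 (h1.2.2 u g1.2.1 hg).1

theorem dp_zero_simf (sg : ℕ → ℕ → Prop) (f : ℕ → ℕ) (X : Finset (ℕ × ℕ)) (hF : S.First sg X) :
    S.cnt (S.Dp sg (simf (S.ev sg) f) 0) ≤ S.G.card + S.NRs + X.card + 2 * S.cnt (chgf (S.ev sg) f) := by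
  refine S.dp_zero sg X hF _ _ ?_
  rw [two_mul]
  refine le_trans (S.cnt_mono ?_) (le_trans (S.cnt_or _ _)
    (Nat.add_le_add (S.kappa_half sg f (fun l a => sg l a) (fun l a l' a' h h' => ⟨fun _ => h', fun _ => h⟩))
    (S.kappa_half sg f (fun l a => ¬ sg l a) (fun l a l' a' h h' => ⟨fun hh => absurd hh h, fun hh => absurd hh h'⟩))))
  rintro t a _ _ ⟨l, l', b, q, h1, h2, h3, h4, h5, h6, h7, h8⟩
  by_cases hs : sg l a
  · exact Or.inl ⟨l, l', b, q, hs, h1, h2, h3, h4, h5, h6, h7, h8⟩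
  · exact Or.inr ⟨l, l', b, q, hs, h1, h2, h3, h4, h5, h6, h7, h8⟩

/-- defects of index 0 of the dual -/
theorem dual_zero (sg : ℕ → ℕ → Prop) {R : ℕ → ℕ → ℕ → Prop} (hR : Frz (S.ev sg) R) :
    S.dual.cnt (S.dual.Dp sg R 0) ≤ S.cnt (S.Dp sg R 0) + (S.NTop + S.NRs) := by
  have h0 : S.dual.cnt (S.dual.Dp sg R 0) = S.cnt (S.dual.Dp sg R 0) := rfl
  rw [h0]
  refine le_trans ?_ (Nat.add_le_add_left S.exc_count _)
  refine le_trans (S.cnt_mono (q := fun t b => (∃ a, S.Up t a b ∧ S.Dp sg R 0 t a) ∨ (∃ a, S.Up t a b ∧ S.exc t a)) ?_)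
    (le_trans (S.cnt_or _ _) (Nat.add_le_add ?_ ?_))
  · rintro t b ht hb ⟨⟨a, hab, hnR⟩, hi⟩
    have hab' : S.Up t a b := hab
    have hi' : (S.ev sg).idx t b = 0 := hi
    obtain ⟨hTa, hTb⟩ := S.up_tc _ _ _ hab'
    rcases Nat.eq_zero_or_pos ((S.ev sg).idx t a) with h1 | h1
    · exact Or.inl ⟨a, hab', ⟨b, hab', fun hcon => hnR (hR.symm _ _ _ hcon)⟩, h1⟩
    · right
      refine ⟨a, hab', ?_⟩
      obtain ⟨i, hi2⟩ : ∃ i, (S.ev sg).idx t a = i + 1 := ⟨(S.ev sg).idx t a - 1, by omega⟩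
      obtain ⟨t0, hp, _⟩ := S.prv_of_idx sg hi2 hTa
      refine ⟨t0, hp, ?_⟩
      by_contra hcon
      push Not at hcon
      obtain ⟨⟨c, hc⟩, hcon2⟩ := hcon
      have h2 : ∀ r, t0 < r → r ≤ t → ¬ S.Rs r c := fun r hr1 hr2 => hcon2 c r hc hr1 hr2
      obtain ⟨h3, h4⟩ := S.perm_next hc hp ht h2
      have hcb := S.up_r _ _ _ _ h3 hab'
      subst hcb
      obtain ⟨_, hTc, hLc⟩ := S.nx_tc _ _ _ hc
      have e1 : (S.ev sg).idx (t0 + 1) c = (S.ev sg).idx t0 c + 1 := by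
        rw [(S.ev sg).idx_step (S.tc_rs _ _ hTc) (fun ⟨z, hz⟩ => hLc z hz), if_pos]
        exact hTc
      have hlt := hp.1
      have e2 : ∀ n, t0 + 1 + n ≤ t → (S.ev sg).idx (t0 + 1 + n) c = (S.ev sg).idx (t0 + 1) c := by
        intro n
        induction n with
        | zero => intro _; rfl
        | succ n ih =>
          intro hn
          have f1 := h4 (t0 + 1 + n) (by omega) (by omega)
          have f2 := h2 (t0 + 1 + n) (by omega) (by omega)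
          rw [← add_assoc, (S.ev sg).idx_step f2 (fun ⟨z, hz⟩ => f1 (S.lo_tc _ _ _ hz).1),
            if_neg (c := (S.ev sg).tch (t0 + 1 + n) c) f1]
          exact ih (by omega)
      have e3 := e2 (t - (t0 + 1)) (by omega)
      rw [show t0 + 1 + (t - (t0 + 1)) = t by omega] at e3
      omega
  · apply S.cnt_rel (fun t b u a => t = u ∧ S.Up t a b)
    · rintro t b ht hb ⟨a, h1, h2⟩
      exact ⟨t, a, ht, (S.tc_lt _ _ (S.up_tc _ _ _ h1).1).2, h2, rfl, h1⟩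
    · rintro t b u c t' a ⟨h1, h2⟩ ⟨h3, h4⟩
      subst h1
      subst h3
      exact ⟨rfl, S.up_r _ _ _ _ h2 h4⟩
  · apply S.cnt_rel (fun t b u a => t = u ∧ S.Up t a b)
    · rintro t b ht hb ⟨a, h1, h2⟩
      exact ⟨t, a, ht, (S.tc_lt _ _ (S.up_tc _ _ _ h1).1).2, h2, rfl, h1⟩
    · rintro t b u c t' a ⟨h1, h2⟩ ⟨h3, h4⟩
      subst h1
      subst h3
      exact ⟨rfl, S.up_r _ _ _ _ h2 h4⟩

/-- pairs (time, LOW player) through its HIGH player -/
theorem cnt_hi {p : ℕ → ℕ → Prop} : S.cnt (fun t a => ∃ b, S.Lo t a b ∧ p t b) ≤ S.cnt p := by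
  apply S.cnt_rel (fun t a u b => t = u ∧ S.Lo t a b)
  · rintro t a ht ha ⟨b, h1, h2⟩
    exact ⟨t, b, ht, (S.tc_lt _ _ (S.lo_tc _ _ _ h1).2).2, h2, rfl, h1⟩
  · rintro t a u b t' c ⟨h1, h2⟩ ⟨h3, h4⟩
    subst h1
    subst h3
    exact ⟨rfl, S.lo_l _ _ _ _ h2 h4⟩

theorem hX_bound (sg : ℕ → ℕ → Prop) {R : ℕ → ℕ → ℕ → Prop} (hR : Frz (S.ev sg) R) (J : ℕ) :
    S.cnt (fun t a => ∃ b, S.Lo t a b ∧ ¬ R t a b ∧ ((S.ev sg).idx t a < J ∨ (S.ev sg).idx t b < J)) ≤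
      2 * (J * (S.cnt (S.Dp sg R 0) + (S.NTop + S.NRs))) +
      2 * (J * (S.cnt (S.Dp sg R 0) + (S.NTop + S.NRs) + (S.NBot + S.NRs))) := by
  have h1 := S.defect_lt sg hR J
  have h2 : S.cnt (fun t a => (∃ b, S.dual.Up t a b ∧ ¬ R t a b) ∧ (S.ev sg).idx t a < J) ≤
      J * (S.cnt (S.Dp sg R 0) + (S.NTop + S.NRs) + (S.NBot + S.NRs)) := by
    refine le_trans (S.dual.defect_lt sg (R := R) hR J) ?_
    have h3 := S.dual_zero sg hR
    have h4 : S.dual.NTop = S.NBot := rfl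
    have h5 : S.dual.NRs = S.NRs := rfl
    rw [h4, h5]
    gcongr
  refine le_trans (S.cnt_mono (q := fun t a =>
    (((∃ b, S.Up t a b ∧ ¬ R t a b) ∧ (S.ev sg).idx t a < J) ∨
    (∃ b, S.Lo t a b ∧ ((∃ c, S.Up t b c ∧ ¬ R t b c) ∧ (S.ev sg).idx t b < J))) ∨
    (((∃ b, S.dual.Up t a b ∧ ¬ R t a b) ∧ (S.ev sg).idx t a < J) ∨
    (∃ b, S.Lo t a b ∧ ((∃ c, S.dual.Up t b c ∧ ¬ R t b c) ∧ (S.ev sg).idx t b < J)))) ?_) ?_
  · rintro t a ht ha ⟨b, h3, h4, h5⟩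
    have h4' : ¬ R t b a := fun hcon => h4 (hR.symm _ _ _ hcon)
    rcases S.lo_up _ _ _ h3 with h6 | h6
    · rcases h5 with h7 | h7
      · exact Or.inl (Or.inl ⟨⟨b, h6, h4⟩, h7⟩)
      · exact Or.inr (Or.inr ⟨b, h3, ⟨a, h6, h4'⟩, h7⟩)
    · rcases h5 with h7 | h7
      · exact Or.inr (Or.inl ⟨⟨b, h6, h4⟩, h7⟩)
      · exact Or.inl (Or.inr ⟨b, h3, ⟨a, h6, h4'⟩, h7⟩)
  · refine le_trans (S.cnt_or _ _) ?_
    rw [two_mul, two_mul]
    apply Nat.add_le_add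
    · refine le_trans (S.cnt_or _ _) (Nat.add_le_add h1 (le_trans S.cnt_hi h1))
    · refine le_trans (S.cnt_or _ _) (Nat.add_le_add h2 (le_trans S.cnt_hi h2))

theorem hK_bound (sg : ℕ → ℕ → Prop) {R : ℕ → ℕ → ℕ → Prop} (hR : Frz (S.ev sg) R) (J : ℕ) :
    S.cnt (fun t a => ∃ b, S.Lo t a b ∧ ¬ R t a b ∧ (S.ev sg).idx t a < J ∧ (S.ev sg).idx t b < J) ≤
      2 * (J * (S.cnt (S.Dp sg R 0) + (S.NTop + S.NRs))) := by
  have h1 := S.defect_lt sg hR J
  refine le_trans (S.cnt_mono (q := fun t a =>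
    (((∃ b, S.Up t a b ∧ ¬ R t a b) ∧ (S.ev sg).idx t a < J) ∨
    (∃ b, S.Lo t a b ∧ ((∃ c, S.Up t b c ∧ ¬ R t b c) ∧ (S.ev sg).idx t b < J)))) ?_) ?_
  · rintro t a ht ha ⟨b, h3, h4, h5, h5'⟩
    have h4' : ¬ R t b a := fun hcon => h4 (hR.symm _ _ _ hcon)
    rcases S.lo_up _ _ _ h3 with h6 | h6
    · exact Or.inl ⟨⟨b, h6, h4⟩, h5⟩
    · exact Or.inr ⟨b, h3, ⟨a, h6, h4'⟩, h5'⟩
  · rw [two_mul]
    exact le_trans (S.cnt_or _ _) (Nat.add_le_add h1 (le_trans S.cnt_hi h1))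

/-! ### the hypotheses of the count, for any function `f` of the level -/

section bounds

variable {S}
variable {sg : ℕ → ℕ → Prop} {X : Finset (ℕ × ℕ)} {W c : ℕ}

/-- adjacent pairs outside `~`, lower player of index `i` -/
theorem A_le (hF : S.First sg X) (hG : S.G.card ≤ c * W) (hR : S.NRs ≤ c * W) (hT : S.NTop ≤ c * W)
    (hX : X.card ≤ c * W) (i : ℕ) : S.cnt (S.Dp sg (S.ev sg).sim i) ≤ 5 * c * W := by
  have h1 := S.defect_all sg (frz_sim (S.ev sg)) i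
  have h2 := S.dp_zero_sim sg X hF
  have h3 : 5 * c * W = 5 * (c * W) := by ring
  omega

/-- adjacent pairs outside `~`, upper player of index `i` -/
theorem B_le (hF : S.First sg X) (hG : S.G.card ≤ c * W) (hR : S.NRs ≤ c * W) (hT : S.NTop ≤ c * W)
    (hB : S.NBot ≤ c * W) (hX : X.card ≤ c * W) (i : ℕ) :
    S.cnt (fun t b => (∃ a, S.Up t a b ∧ ¬ (S.ev sg).sim t b a) ∧ (S.ev sg).idx t b = i) ≤ 7 * c * W := by
  have h1 : S.cnt (S.dual.Dp sg (S.ev sg).sim i) ≤ S.dual.cnt (S.dual.Dp sg (S.ev sg).sim 0) + (S.NBot + S.NRs) :=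
    S.dual.defect_all sg (frz_sim (S.ev sg)) i
  have h2 := S.dp_zero_sim sg X hF
  have h4 := S.dual_zero sg (frz_sim (S.ev sg))
  have h3 : 7 * c * W = 7 * (c * W) := by ring
  have h5 : S.cnt (S.dual.Dp sg (S.ev sg).sim i) =
    S.cnt (fun t b => (∃ a, S.Up t a b ∧ ¬ (S.ev sg).sim t b a) ∧ (S.ev sg).idx t b = i) := rfl
  omega

/-- adjacent pairs outside `simf`, lower player of index `i` -/
theorem Af_le (f : ℕ → ℕ) (hF : S.First sg X) (hG : S.G.card ≤ c * W) (hR : S.NRs ≤ c * W) (hT : S.NTop ≤ c * W)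
    (hX : X.card ≤ c * W) (i : ℕ) :
    S.cnt (S.Dp sg (simf (S.ev sg) f) i) ≤ 5 * c * W + 2 * S.cnt (chgf (S.ev sg) f) := by
  have h1 := S.defect_all sg (frz_simf (S.ev sg) f) i
  have h2 := S.dp_zero_simf sg f X hF
  have h3 : 5 * c * W = 5 * (c * W) := by ring
  omega

/-- `hX` of the count -/
theorem hX_all (hF : S.First sg X) (hG : S.G.card ≤ c * W) (hR : S.NRs ≤ c * W) (hT : S.NTop ≤ c * W)
    (hB : S.NBot ≤ c * W) (hX : X.card ≤ c * W) (J : ℕ) :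
    (S.ev sg).cnt (fun t a => (S.ev sg).low t a ∧ ¬ (S.ev sg).sim t a ((S.ev sg).hi t a) ∧
      ((S.ev sg).idx t a < J ∨ (S.ev sg).idx t ((S.ev sg).hi t a) < J)) ≤ 24 * c * J * W := by
  have hz := S.dp_zero_sim sg X hF
  rw [S.ev_cnt]
  refine le_trans (S.cnt_mono ?_) (le_trans (S.hX_bound sg (frz_sim (S.ev sg)) J) ?_)
  · rintro t a _ _ ⟨⟨b, h1⟩, h2, h3⟩
    rw [S.ev_hi sg h1] at h2 h3
    exact ⟨b, h1, h2, h3⟩
  · calc 2 * (J * (S.cnt (S.Dp sg (S.ev sg).sim 0) + (S.NTop + S.NRs))) +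
        2 * (J * (S.cnt (S.Dp sg (S.ev sg).sim 0) + (S.NTop + S.NRs) + (S.NBot + S.NRs)))
        ≤ 2 * (J * (5 * (c * W))) + 2 * (J * (7 * (c * W))) :=
          Nat.add_le_add (Nat.mul_le_mul_left _ (Nat.mul_le_mul_left _ (by omega)))
            (Nat.mul_le_mul_left _ (Nat.mul_le_mul_left _ (by omega)))
      _ = 24 * c * J * W := by ring

/-- `hK` of the count, for any function `f` of the level -/
theorem hKf_all (f : ℕ → ℕ) (hF : S.First sg X) (hG : S.G.card ≤ c * W) (hR : S.NRs ≤ c * W) (hT : S.NTop ≤ c * W)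
    (hX : X.card ≤ c * W) (J : ℕ) :
    (S.ev sg).cnt (fun t a => (S.ev sg).low t a ∧ (S.ev sg).sim t a ((S.ev sg).hi t a) ∧
      f ((S.ev sg).kpa t a) ≠ f ((S.ev sg).kpa t ((S.ev sg).hi t a)) ∧ (S.ev sg).idx t a < J) ≤
      10 * c * J * W + 4 * J * (S.ev sg).cnt (chgf (S.ev sg) f) := by
  have hz := S.dp_zero_simf sg f X hF
  rw [S.ev_cnt, S.ev_cnt]
  refine le_trans (S.cnt_mono ?_) (le_trans (S.hK_bound sg (frz_simf (S.ev sg) f) J) ?_)
  · rintro t a _ _ ⟨⟨b, h1⟩, h2, h3, h4⟩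
    rw [S.ev_hi sg h1] at h2 h3
    refine ⟨b, h1, fun hcon => h3 hcon.2, h4, ?_⟩
    rw [← (frz_sim (S.ev sg)).idx _ _ _ h2]
    exact h4
  · calc 2 * (J * (S.cnt (S.Dp sg (simf (S.ev sg) f) 0) + (S.NTop + S.NRs)))
        ≤ 2 * (J * (5 * (c * W) + 2 * S.cnt (chgf (S.ev sg) f))) :=
          Nat.mul_le_mul_left _ (Nat.mul_le_mul_left _ (by omega))
      _ = 10 * c * J * W + 4 * J * S.cnt (chgf (S.ev sg) f) := by ring

end bounds

/-- **The counting theorem.** -/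
theorem count : ∃ C : ℕ → ℕ, ∀ (S : HS) (sg : ℕ → ℕ → Prop) (E : Finset (ℕ × ℕ)) (W c : ℕ),
    S.First sg E → S.G.card ≤ c * W → S.NRs ≤ c * W → S.NTop ≤ c * W → S.NBot ≤ c * W →
    E.card ≤ c * W → S.NTc ≤ c * (S.N + W) → S.N ≤ C c * S.Mv ^ 6 * W := by
  refine ⟨fun c => 10 ^ 5 * (24 * c + 4) ^ 6, ?_⟩
  intro S sg X W c hF hG hR hT hB hX hTc
  refine (S.ev sg).count W (24 * c + 4) (by omega) ?_ ?_ ?_ ?_
  · rw [S.ev_cnt, S.ev_cnt]
    show S.NTc ≤ (24 * c + 4) * (S.N + W)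
    refine le_trans hTc (Nat.mul_le_mul_right _ (by omega))
  · rw [S.ev_cnt]
    show S.G.card + S.NRs ≤ _
    calc S.G.card + S.NRs ≤ c * W + c * W := Nat.add_le_add hG hR
      _ = (2 * c) * W := by ring
      _ ≤ _ := Nat.mul_le_mul_right _ (by omega)
  · intro J
    refine le_trans (hX_all hF hG hR hT hB hX J) ?_
    gcongr; omega
  · intro J
    refine le_trans (hKf_all id hF hG hR hT hX J) ?_
    calc 10 * c * J * W + 4 * J * (S.ev sg).cnt (chgf (S.ev sg) id)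
        ≤ (24 * c + 4) * J * W + (24 * c + 4) * J * (S.ev sg).cnt (S.ev sg).chg := by
          refine Nat.add_le_add ?_ ?_
          · gcongr; omega
          · apply Nat.mul_le_mul
            · gcongr; omega
            · exact le_refl _
      _ = _ := by ring

end HS
end Pool.Agent.SplPl
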