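import Pool.Agent.SplPl.Heap2

set_option autoImplicit false

/-!
# Three consecutive touched players: the middle one is in a match
-/

namespace Pool.Agent.SplPl

open Pool.Agent.SplLog

/-- If `a`, `b`, `c` are kept neighbours, and all three are touched next at the same time `u`, then
the middle one is in a match at time `u`. -/
def HS.Half (S : HS) : Prop :=
  ∀ t u a b c, S.Nx t a b → S.Nx t b c → t < u → u < S.m →
    (∀ r, t < r → r < u → ¬ S.Tc r a ∧ ¬ S.Rs r a ∧ ¬ S.Tc r b ∧ ¬ S.Rs r b ∧ ¬ S.Tc r c ∧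
      ¬ S.Rs r c) →
    S.Tc u a → S.Tc u b → S.Tc u c → ∃ d, S.Lo u b d ∨ S.Lo u d b

/-- Of three consecutive nodes on the right side of a search path the middle one is killed by the
lower one or kills the upper one. -/
def HalfS (S : Sys) : Prop :=
  ∀ t v, S.R t v → S.R t (S.rho t v) → S.R t (S.rho t (S.rho t v)) →
    S.lam t v = S.lam t (S.rho t v) → S.lam t (S.rho t v) = S.lam t (S.rho t (S.rho t v)) →
    S.Kl t (S.rho t v) v ∨ S.Kl t (S.rho t (S.rho t v)) (S.rho t v)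

variable {S : Sys} {B : Blk S} {t u v w s r a b c g p x y : ℕ}

namespace Blk

/-- a kill with two untouched players is a match -/
theorem kill_match (h : S.Kl t g p) (ha : B.IsG t g (S.rho t g) a) (hfa : B.Fr t g (S.rho t g))
    (hb : B.IsG t p (S.rho t p) b) (hfb : B.Fr t p (S.rho t p)) : B.Mt t g p a b := by
  have h1 := (Sys.kl_facts h).2.2.2.1
  rw [h1] at hb hfb
  exact ⟨h, hfb.union hfa, ha, hb⟩

theorem Mt.lo (h : B.Mt t g p a b) : B.LoR t a b ∨ B.LoR t b a := by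
  rcases Nat.lt_or_gt_of_ne h.ne with h1 | h1
  · exact Or.inl ⟨⟨g, p, Or.inl h⟩, h1⟩
  · exact Or.inr ⟨⟨g, p, Or.inr h⟩, h1⟩

theorem TR_of_P (h : B.P t s v) (h' : B.TR t s) : S.R t v ∧ B.Fr t v (S.rho t v) ∧
    B.IsG t v (S.rho t v) s := by
  obtain ⟨v', h1, h2, h3, h4, _⟩ := TR_node h'
  have e := h.inj h1.1.le h4
  subst e
  exact ⟨h1, h2, h3⟩

/-- one side -/
theorem half_right (hS : HalfS S) (h1 : B.NxR t a b) (h2 : B.NxR t b c) (htu : t < u)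
    (hu : u < S.m)
    (hn : ∀ r, t < r → r < u → (¬ B.TR r a ∧ a ∉ B.tau r ∧ ¬ B.RR r a) ∧
      (¬ B.TR r b ∧ b ∉ B.tau r ∧ ¬ B.RR r b) ∧ ¬ B.TR r c ∧ c ∉ B.tau r ∧ ¬ B.RR r c)
    (ha : ∀ v, B.P u a v → B.TR u a) (hb : ∀ v, B.P u b v → B.TR u b)
    (hc : ∀ v, B.P u c v → B.TR u c) : ∃ d, B.LoR u b d ∨ B.LoR u d b := by
  obtain ⟨v, c1, c2, c3, c4⟩ := h1.state htu hu (fun r hr1 hr2 => by
    have := hn r hr1 hr2
    tauto)
  obtain ⟨w, d1, d2, d3, d4⟩ := h2.state htu hu (fun r hr1 hr2 => by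
    have := hn r hr1 hr2
    tauto)
  have e := c2.inj hu.le d1
  subst e
  obtain ⟨f1, f2, f3⟩ := TR_of_P c1 (ha _ c1)
  obtain ⟨g1, g2, g3⟩ := TR_of_P c2 (hb _ c2)
  obtain ⟨k1, k2, k3⟩ := TR_of_P d2 (hc _ d2)
  rcases hS u v f1 g1 k1 (by rw [c3, c4]) (by rw [c4, d4]) with h3 | h3
  · exact ⟨a, (kill_match h3 g3 g2 f3 f2).lo⟩
  · exact ⟨c, (kill_match h3 k3 k2 g3 g2).lo.symm⟩

/-- **Half.** -/
theorem half (hS : HalfS S) (hM : HalfS S.mir) : B.heap.Half := by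
  rintro t u a b c ⟨h1, h2, h3, h4⟩ ⟨_, _, h3', h4'⟩ htu hu hn ha hb hc
  have excl : ∀ {s v : ℕ}, s ∈ gs S → B.Tc u s → B.P u s v → B.TR u s := by
    rintro s v hs ⟨_, _, h5 | h5⟩ hp
    · exact h5
    · obtain ⟨v', hv'⟩ := mir_TR_Q (gs_lt hs) h5
      exact (P.not_Q (Nat.le_of_lt hu) hp hv').elim
  have excl' : ∀ {s v : ℕ}, s ∈ gs S → B.Tc u s → B.mir.P u (fl S s) v →
      B.mir.TR u (fl S s) := by
    rintro s v hs ⟨_, _, h5 | h5⟩ hp
    · obtain ⟨v', hv'⟩ := TR_mir_Q h5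
      exact (P.not_Q (S := S.mir) (B := B.mir) (Nat.le_of_lt hu) hp hv').elim
    · exact h5
  change u < S.m at hu
  change ∃ d, B.Lo u b d ∨ B.Lo u d b
  rcases h4 with h4 | h4
  · rcases h4' with h4' | h4'
    · obtain ⟨d, hd⟩ := half_right hS h4 h4' htu hu (by
        intro r hr1 hr2
        have hr : r < S.m := by omega
        obtain ⟨n1, n2, n3, n4, n5, n6⟩ := hn r hr1 hr2
        exact ⟨⟨fun h => n1 ⟨hr, h2, Or.inl h⟩, fun h => n2 ⟨hr, h2, Or.inl h⟩,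
          fun h => n2 ⟨hr, h2, Or.inr (Or.inl h)⟩⟩,
          ⟨fun h => n3 ⟨hr, h3, Or.inl h⟩, fun h => n4 ⟨hr, h3, Or.inl h⟩,
          fun h => n4 ⟨hr, h3, Or.inr (Or.inl h)⟩⟩,
          fun h => n5 ⟨hr, h3', Or.inl h⟩, fun h => n6 ⟨hr, h3', Or.inl h⟩,
          fun h => n6 ⟨hr, h3', Or.inr (Or.inl h)⟩⟩)
        (fun v => excl h2 ha) (fun v => excl h3 hb) (fun v => excl h3' hc)
      rcases hd with hd | hd
      · exact ⟨d, Or.inl ⟨hu, h3, TR_gs hd.TR.2, Or.inl hd⟩⟩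
      · exact ⟨d, Or.inr ⟨hu, TR_gs hd.TR.1, h3, Or.inl hd⟩⟩
    · exact (TR_mir_TR h4.2.1 h4'.1).elim
  · rcases h4' with h4' | h4'
    · exact (TR_mir_TR h4'.1 h4.2.1).elim
    · obtain ⟨d', hd⟩ := half_right hM h4 h4' htu hu (by
        intro r hr1 hr2
        have hr : r < S.m := by omega
        obtain ⟨n1, n2, n3, n4, n5, n6⟩ := hn r hr1 hr2
        exact ⟨⟨fun h => n1 ⟨hr, h2, Or.inr h⟩,
          fun h => n2 ⟨hr, h2, Or.inl ((mir_tau hr (gs_lt h2)).1 h)⟩,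
          fun h => n2 ⟨hr, h2, Or.inr (Or.inr h)⟩⟩,
          ⟨fun h => n3 ⟨hr, h3, Or.inr h⟩,
          fun h => n4 ⟨hr, h3, Or.inl ((mir_tau hr (gs_lt h3)).1 h)⟩,
          fun h => n4 ⟨hr, h3, Or.inr (Or.inr h)⟩⟩,
          fun h => n5 ⟨hr, h3', Or.inr h⟩,
          fun h => n6 ⟨hr, h3', Or.inl ((mir_tau hr (gs_lt h3')).1 h)⟩,
          fun h => n6 ⟨hr, h3', Or.inr (Or.inr h)⟩⟩)
        (fun v => excl' h2 ha) (fun v => excl' h3 hb) (fun v => excl' h3' hc)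
      rcases hd with hd | hd
      · have h5 : d' ∈ gs S.mir := TR_gs hd.TR.2
        have e : fl S (fl S d') = d' := fl_fl (gs_lt (S := S.mir) h5)
        rw [← e] at hd
        exact ⟨fl S d', Or.inl ⟨hu, h3, fl_gs h5, Or.inr hd⟩⟩
      · have h5 : d' ∈ gs S.mir := TR_gs hd.TR.1
        have e : fl S (fl S d') = d' := fl_fl (gs_lt (S := S.mir) h5)
        rw [← e] at hd
        exact ⟨fl S d', Or.inr ⟨hu, fl_gs h5, h3, Or.inr hd⟩⟩

end Blk

end Pool.Agent.SplPl
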