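import Pool.Agent.SplPl.HCount
import Pool.Agent.SplPl.Half
import Pool.Agent.Ply.EvCnt2

set_option autoImplicit false

/-! SplPl/HCount2.lean (helper76): the sharp counting theorem for heap systems with the property `Half` -/

namespace Pool.Agent.SplPl

namespace HS

open Classical

variable (S : HS)

theorem dual_Kt {t a : ℕ} : S.dual.Kt t a ↔ S.Kt t a := Iff.rfl

theorem dual_Prv {t u a : ℕ} : S.dual.Prv t u a ↔ S.Prv t u a := Iff.rfl

/-- a touch of positive index with kept neighbours is a match -/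
theorem half_touch (hH : S.Half) (sg : ℕ → ℕ → Prop) {u b i : ℕ} (hu : u < S.m)
    (hi : (S.ev sg).idx u b = i + 1) (hT : S.Tc u b) (h1 : ¬ S.exc u b) (h2 : ¬ S.dual.exc u b) :
    ∃ d, S.Lo u b d ∨ S.Lo u d b := by
  obtain ⟨t, hp, _⟩ := S.prv_of_idx sg hi hT
  have hp' : S.dual.Prv t u b := hp
  have g1 : ∃ c, S.Nx t b c := by
    by_contra hcon
    push Not at hcon
    exact h1 ⟨t, hp, Or.inl hcon⟩
  obtain ⟨c, hc⟩ := g1
  have g2 : ∃ a, S.Nx t a b := by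
    by_contra hcon
    push Not at hcon
    exact h2 ⟨t, hp', Or.inl hcon⟩
  obtain ⟨a, ha⟩ := g2
  have r1 : ∀ r, t < r → r ≤ u → ¬ S.Rs r c := fun r a1 a2 a3 => h1 ⟨t, hp, Or.inr ⟨c, r, hc, a1, a2, a3⟩⟩
  have r2 : ∀ r, t < r → r ≤ u → ¬ S.Rs r a := fun r a1 a2 a3 => h2 ⟨t, hp', Or.inr ⟨a, r, ha, a1, a2, a3⟩⟩
  obtain ⟨p1, p2⟩ := S.perm_next hc hp hu r1
  obtain ⟨q1, q2⟩ := S.dual.perm_next (a := b) (b := a) ha hp' hu r2
  have q1' : S.Up u a b := q1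
  have q2' : ∀ r, t < r → r < u → ¬ S.Tc r a := q2
  refine hH t u a b c ha hc hp.1 hu ?_ (S.up_tc _ _ _ q1').1 hT (S.up_tc _ _ _ p1).2
  intro r a1 a2
  exact ⟨q2' r a1 a2, r2 r a1 a2.le, hp.2.2.2.1 r a1 a2, hp.2.2.2.2 r a1.le a2.le,
    p2 r a1 a2, r1 r a1 a2.le⟩

section bounds

variable {S}
variable {sg : ℕ → ℕ → Prop} {X : Finset (ℕ × ℕ)} {W c : ℕ}

/-- `hHalf` of the sharp count -/
theorem half_all (hH : S.Half) (hF : S.First sg X) (hG : S.G.card ≤ c * W) (hR : S.NRs ≤ c * W)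
    (hT : S.NTop ≤ c * W) (hB : S.NBot ≤ c * W) (hX : X.card ≤ c * W) (J : ℕ) (hJ : 1 ≤ J) :
    (S.ev sg).TT J ≤ 2 * (S.ev sg).NN J + 28 * c * J * W := by
  have h1 : S.cnt S.exc ≤ S.NTop + S.NRs := S.exc_count
  have h2 : S.cnt S.dual.exc ≤ S.NBot + S.NRs := S.dual.exc_count
  have h3 : S.cnt (fun t b => ∃ d, S.Lo t d b ∧ J ≤ (S.ev sg).idx t d) ≤ (S.ev sg).NN J := by
    unfold Ply.Ev.NN
    rw [S.ev_cnt]
    apply S.cnt_rel (fun t b u d => t = u ∧ S.Lo t d b)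
    · rintro t b ht hb ⟨d, a1, a2⟩
      exact ⟨t, d, ht, (S.tc_lt _ _ (S.lo_tc _ _ _ a1).1).2, ⟨⟨b, a1⟩, a2⟩, rfl, a1⟩
    · rintro t b u b' t' d ⟨a1, a2⟩ ⟨a3, a4⟩
      subst a1
      subst a3
      exact ⟨rfl, S.lo_r _ _ _ _ a2 a4⟩
  have h4 : S.cnt (fun t b => ∃ d, S.Lo t d b ∧ J ≤ (S.ev sg).idx t b ∧ (S.ev sg).idx t d < J) ≤
      24 * c * J * W := by
    refine le_trans ?_ (hX_all hF hG hR hT hB hX J)
    rw [S.ev_cnt]
    apply S.cnt_rel (fun t b u d => t = u ∧ S.Lo t d b)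
    · rintro t b ht hb ⟨d, a1, a2, a3⟩
      refine ⟨t, d, ht, (S.tc_lt _ _ (S.lo_tc _ _ _ a1).1).2, ⟨⟨b, a1⟩, ?_, Or.inl a3⟩, rfl, a1⟩
      rw [S.ev_hi sg a1]
      intro hs
      have := (frz_sim (S.ev sg)).idx _ _ _ hs
      omega
    · rintro t b u b' t' d ⟨a1, a2⟩ ⟨a3, a4⟩
      subst a1
      subst a3
      exact ⟨rfl, S.lo_r _ _ _ _ a2 a4⟩
  have h5 : (S.ev sg).TT J ≤ S.cnt S.exc + (S.cnt S.dual.exc + ((S.ev sg).NN J +
      (S.cnt (fun t b => ∃ d, S.Lo t d b ∧ J ≤ (S.ev sg).idx t d) +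
      S.cnt (fun t b => ∃ d, S.Lo t d b ∧ J ≤ (S.ev sg).idx t b ∧ (S.ev sg).idx t d < J)))) := by
    have e1 : (S.ev sg).NN J = S.cnt (fun t b => (∃ d, S.Lo t b d) ∧ J ≤ (S.ev sg).idx t b) := by
      unfold Ply.Ev.NN
      rw [S.ev_cnt]
      rfl
    rw [e1]
    unfold Ply.Ev.TT
    rw [S.ev_cnt]
    refine le_trans (S.cnt_mono ?_) (le_trans (S.cnt_or _ _) (Nat.add_le_add_left
      (le_trans (S.cnt_or _ _) (Nat.add_le_add_left (le_trans (S.cnt_or _ _)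
        (Nat.add_le_add_left (S.cnt_or _ _) _)) _)) _))
    rintro t b ht hb ⟨a1, a2⟩
    have a1' : S.Tc t b := a1
    by_cases b1 : S.exc t b
    · exact Or.inl b1
    · by_cases b2 : S.dual.exc t b
      · exact Or.inr (Or.inl b2)
      · right; right
        obtain ⟨i, hi⟩ : ∃ i, (S.ev sg).idx t b = i + 1 := ⟨(S.ev sg).idx t b - 1, by omega⟩
        obtain ⟨d, hd | hd⟩ := S.half_touch hH sg ht hi a1' b1 b2
        · exact Or.inl ⟨⟨d, hd⟩, a2⟩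
        · right
          by_cases b3 : J ≤ (S.ev sg).idx t d
          · exact Or.inl ⟨d, hd, b3⟩
          · exact Or.inr ⟨d, hd, a2, by omega⟩
  have h6 : c * W ≤ c * J * W := by
    calc c * W = c * 1 * W := by ring
      _ ≤ c * J * W := by gcongr
  have h7 : 28 * c * J * W = 24 * c * J * W + 4 * (c * J * W) := by ring
  omega

end bounds

/-- **The sharp counting theorem.** -/
theorem count2 : ∃ C : ℕ → ℕ, ∀ (S : HS) (sg : ℕ → ℕ → Prop) (E : Finset (ℕ × ℕ)) (W c : ℕ),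
    S.Half → S.First sg E → S.G.card ≤ c * W → S.NRs ≤ c * W → S.NTop ≤ c * W → S.NBot ≤ c * W →
    E.card ≤ c * W → S.N ≤ C c * S.Mv * (Nat.log 2 S.Mv + 1) ^ 2 * W := by
  obtain ⟨C, hC⟩ := Ply.Ev.count2
  refine ⟨fun c => C (28 * c + 4), ?_⟩
  intro S sg X W c hH hF hG hR hT hB hX
  have h := hC (S.ev sg) W (28 * c + 4) (by omega) ?_ ?_ ?_ ?_
  · rw [S.ev_cnt] at h
    exact h
  · rw [S.ev_cnt]
    show S.G.card + S.NRs ≤ _
    calc S.G.card + S.NRs ≤ c * W + c * W := Nat.add_le_add hG hR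
      _ = (2 * c) * W := by ring
      _ ≤ _ := Nat.mul_le_mul_right _ (by omega)
  · intro J
    refine le_trans (hX_all hF hG hR hT hB hX J) ?_
    gcongr; omega
  · intro f J
    refine le_trans (hKf_all f hF hG hR hT hX J) ?_
    calc 10 * c * J * W + 4 * J * (S.ev sg).cnt (chgf (S.ev sg) f)
        ≤ (28 * c + 4) * J * W + (28 * c + 4) * J * (S.ev sg).cnt (chgf (S.ev sg) f) := by
          refine Nat.add_le_add ?_ ?_
          · gcongr; omega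
          · gcongr; omega
      _ = (28 * c + 4) * J * (W + (S.ev sg).cnt (chgf (S.ev sg) f)) := by ring
  · intro J hJ
    refine le_trans (half_all hH hF hG hR hT hB hX J hJ) ?_
    gcongr; omega

end HS
end Pool.Agent.SplPl
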