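import Pool.Agent.SplPl.AB
import Pool.Agent.SplTgo.Bridge

set_option autoImplicit false

/-!
# Theorem B in the form which is used
-/

namespace Pool.Agent.SplPl

open Pool.Agent.SplLog

theorem thB : ThB 4 := by
  intro L n S hL hn hK htop
  set K := Nat.log 2 L + 1 with hKd
  have hLK : L ≤ 2 ^ K := (Nat.lt_pow_succ_log_self (by norm_num) L).le
  obtain ⟨B, hH, hB⟩ := SplTgo.tango_blk hLK S (by omega)
  generalize SplAll.SW 2 L (fun _ i => 2 * i) ((List.range S.m).map (fun t => S.X t - 1)) = W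
    at hB ⊢
  refine ⟨B, ?_, ?_⟩
  · rw [hH]
    have h3 : K ≤ L := by
      have : Nat.log 2 L < L := Nat.log_lt_self 2 (by omega)
      omega
    nlinarith
  · refine hB.trans ?_
    have h4 : 4 * (Nat.log 2 L + 2) * (W + S.m) = (4 * K + 2) * (W + S.m) + 2 * (W + S.m) := by
      rw [hKd]
      ring
    rw [h4]
    omega

end Pool.Agent.SplPl
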