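import Pool.Agent.SplPl.ThmA
import Pool.Agent.SplPl.ThB

set_option autoImplicit false

/-!
# Splay trees are polyloglog-competitive
-/

namespace Pool.Agent.SplPl

open BinaryTree Pool.Agent.MP_c42954_lc.Scan

theorem polyloglog_competitive : ∃ C : ℝ, 0 < C ∧ ∀ (T : BinaryTree ℕ) (X : List ℕ) (c : ℕ),
    IsBST T → (∀ x ∈ X, x ∈ inorder T) → 3 ≤ (inorder T).length → Exec T X c →
    (splayCost X T : ℝ) ≤ C * Real.log (Real.log (inorder T).length) ^ 7 * c :=
  final_of theoremA (Exists.intro 4 thB)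

end Pool.Agent.SplPl
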