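import Pool.Agent.SplPl.Tool

set_option autoImplicit false

/-!
# The mirror image of a block process: translation
-/

namespace Pool.Agent.SplPl

open Pool.Agent.SplLog

variable {S : Sys} {B : Blk S} {t u v w s r a b g p : ℕ}

namespace Blk

theorem fl_fl (h : s < S.top) : fl S (fl S s) = s := by
  unfold fl
  omega

theorem fl_lt (h : 0 < S.top) : fl S s < S.top := by
  unfold fl
  omega

theorem fl_gs (h : s ∈ gs S) : fl S s ∈ gs S := by
  unfold gs fl at *
  rw [Finset.mem_Ioo] at *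
  omega

theorem gs_lt (h : s ∈ gs S) : s < S.top := by
  unfold gs at h
  rw [Finset.mem_Ioo] at h
  omega

theorem fl_inj (ha : a < S.top) (hb : b < S.top) (h : fl S a = fl S b) : a = b := by
  unfold fl at h
  omega

theorem mir_om : B.mir.om t (fl S s) = B.om t (S.top - 1 - (S.top - 1 - s)) := rfl

theorem mir_om' (hs : s < S.top) : B.mir.om t (fl S s) = B.om t s := by
  rw [mir_om]
  congr 1
  omega

theorem mir_tau (ht : t < S.m) (hs : s < S.top) : fl S s ∈ B.mir.tau t ↔ s ∈ B.tau t := by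
  have h := fl_mem (T := B.tau t) (top := S.top) (s := fl S s) (fl_lt (by omega)) (B.tau_lt t ht)
  have e : S.top - 1 - fl S s = s := fl_fl hs
  rw [e] at h
  exact h

theorem mir_IsG (hs : s < S.top) (hv : v ≤ S.top) :
    B.mir.IsG t (S.top - v) (S.top - u) (fl S s) ↔ B.IsG t u v s := by
  unfold IsG
  constructor
  · rintro ⟨h1, h2, h3⟩
    unfold fl at h1 h2
    refine ⟨by omega, by omega, ?_⟩
    intro r hr1 hr2 hr3
    have h4 := h3 (fl S r) (by unfold fl; omega) (by unfold fl; omega)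
      (fun e => hr3 (fl_inj (by omega) hs e))
    rwa [mir_om' hs, mir_om' (by omega)] at h4
  · rintro ⟨h1, h2, h3⟩
    refine ⟨by unfold fl; omega, by unfold fl; omega, ?_⟩
    intro r hr1 hr2 hr3
    have e : fl S (fl S r) = r := fl_fl (by omega)
    have h4 := h3 (fl S r) (by unfold fl; omega) (by unfold fl; omega)
      (fun e' => hr3 (by rw [← e', e]))
    have h5 : B.mir.om t r = B.om t (fl S r) := rfl
    rw [mir_om' hs, h5]
    exact h4

theorem mir_Fr (ht : t < S.m) (hv : v ≤ S.top) :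
    B.mir.Fr t (S.top - v) (S.top - u) ↔ B.Fr t u v := by
  unfold Fr
  constructor
  · intro h r hr1 hr2 hr3
    refine h (fl S r) (by unfold fl; omega) (by unfold fl; omega) ?_
    rwa [mir_tau ht (by omega)]
  · intro h r hr1 hr2 hr3
    have e : fl S (fl S r) = r := fl_fl (by omega)
    rw [← e, mir_tau ht (by unfold fl; omega)] at hr3
    exact h (fl S r) (by unfold fl; omega) (by unfold fl; omega) hr3

theorem mir_top : S.mir.top = S.top := rfl

theorem mir_P (ht : t ≤ S.m) (hv : v ∈ S.K) (hs : s < S.top) :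
    B.mir.P t (fl S s) (S.top - v) ↔ B.Q t s v := by
  have h1 := S.key v hv
  have h2 := S.lam_lt t ht v hv
  have h3 := S.rho_le_top ht hv
  unfold P Q
  rw [Sys.mir_rho hv, Sys.mir_lam hv, mir_IsG hs h1.2.le]
  constructor
  · rintro ⟨_, h4, r, h5, h6, h7⟩
    refine ⟨hv, h4, fl S r, by unfold fl; omega, by unfold fl; omega, ?_⟩
    rw [mir_om' hs] at h7
    exact h7
  · rintro ⟨_, h4, r, h5, h6, h7⟩
    refine ⟨Sys.mir_mem.2 ⟨v, hv, rfl⟩, h4, fl S r, by unfold fl; omega, by unfold fl; omega, ?_⟩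
    rw [mir_om' hs, mir_om' (by omega)]
    exact h7

theorem mir_Q (ht : t ≤ S.m) (hv : v ∈ S.K) (hs : s < S.top) :
    B.mir.Q t (fl S s) (S.top - v) ↔ B.P t s v := by
  have h1 := S.key v hv
  have h2 := S.lam_lt t ht v hv
  have h3 := S.rho_le_top ht hv
  unfold P Q
  rw [Sys.mir_rho hv, Sys.mir_lam hv, mir_IsG hs h3]
  constructor
  · rintro ⟨_, h4, r, h5, h6, h7⟩
    refine ⟨hv, h4, fl S r, by unfold fl; omega, by unfold fl; omega, ?_⟩
    rw [mir_om' hs] at h7
    exact h7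
  · rintro ⟨_, h4, r, h5, h6, h7⟩
    refine ⟨Sys.mir_mem.2 ⟨v, hv, rfl⟩, h4, fl S r, by unfold fl; omega, by unfold fl; omega, ?_⟩
    rw [mir_om' hs, mir_om' (by omega)]
    exact h7

/-- zig-zig on the left side -/
theorem mir_Kl (hg : g ∈ S.K) (hp : p < S.top) :
    S.mir.Kl t (S.top - g) (S.top - p) ↔ S.L t g ∧ p < S.X t ∧ S.rho (t + 1) g = p := by
  unfold Sys.Kl
  rw [Sys.mir_R hg]
  constructor
  · rintro ⟨h1, h2, h3⟩
    have h4 := S.key _ (S.req t h1.1)
    have h5 := S.rho_le_top (t := t + 1) h1.1 hg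
    rw [Sys.mir_lam hg] at h3
    change S.top - S.X t < _ at h2
    exact ⟨h1, by omega, by omega⟩
  · rintro ⟨h1, h2, h3⟩
    have h4 := S.key _ (S.req t h1.1)
    have h5 := S.rho_le_top (t := t + 1) h1.1 hg
    rw [Sys.mir_lam hg]
    refine ⟨h1, ?_, by omega⟩
    change S.top - S.X t < _
    omega

/-- A left kill in the mirror image. -/
theorem exists_mir_Kl {g' p' : ℕ} (h : S.mir.Kl t g' p') : ∃ g ∈ S.K, ∃ p ∈ S.K,
    g' = S.top - g ∧ p' = S.top - p ∧ S.L t g ∧ p < S.X t ∧ S.rho (t + 1) g = p := by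
  have h1 := (Sys.kl_facts h).1.1.2.1
  have h2 := h.1.2.1
  rw [Sys.mir_mem] at h1 h2
  obtain ⟨g, hg, rfl⟩ := h2
  obtain ⟨p, hp, rfl⟩ := h1
  refine ⟨g, hg, p, hp, rfl, rfl, ?_⟩
  exact (mir_Kl hg (S.key p hp).2).1 h

end Blk

end Pool.Agent.SplPl
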