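import Pool.Agent.SplPl.Half
import Pool.Agent.SplLog.Run

set_option autoImplicit false

/-!
# The splay steps pair the nodes of a search path
-/

namespace Pool.Agent.SplPl

open Pool.Agent.SplLog BinaryTree Pool.Agent.MP_c42954_lc.Scan Pool.Agent.SplPat

/-- A node whose subtree interval is everything is the root. -/
theorem root_of {v lo hi a : ℕ} {l r : BinaryTree ℕ} (hb : IsBST (.node a l r))
    (hB : Bd lo hi (.node a l r)) (hv : v ∈ inorder (.node a l r))
    (h1 : lm v (.node a l r) lo = lo) (h2 : rh v (.node a l r) hi = hi) : v = a := by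
  obtain ⟨a1, a2, a3, a4⟩ := bst_node.1 hb
  obtain ⟨b1, b2, b3, b4⟩ := bd_node hb hB
  rcases mem_node.1 hv with hv | hv | hv
  · have e := a3 v hv
    rw [rh_lt e] at h2
    have := (ends a1 b3 hv).2.2.2.1
    omega
  · exact hv
  · have e := a4 v hv
    rw [lm_gt e] at h1
    have := (ends a2 b4 hv).1
    omega

/-- right side: the root and its left child -/
theorem ev_top_R {x : ℕ} {t A B : BinaryTree ℕ} (h : Ev x t A B) (hb : IsBST t) {lo hi : ℕ}
    (hB : Bd lo hi t) {v w : ℕ} (hv : v ∈ inorder t) (hw : w ∈ inorder t) (hxv : x < v)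
    (h1 : lm w t lo = lo) (h2 : rh w t hi = hi) (h3 : lm v t lo = lo) (h4 : rh v t hi = w) :
    lm w B x = v := by
  have hvw : v < w := by
    rw [← h4]
    exact (ends hb hB hv).2.2.1
  cases h with
  | base A B =>
    have := root_of hb hB hw h1 h2
    omega
  | @ll p g L C D A B k1 k2 k3 =>
    have e := root_of hb hB hw h1 h2
    subst e
    obtain ⟨a1, a2, a3, a4⟩ := bst_node.1 hb
    obtain ⟨b1, b2, b3, b4⟩ := bd_node hb hB
    have hv' : v ∈ inorder (.node p L C) := by
      rcases mem_node.1 hv with hv | hv | hv
      · exact hv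
      · omega
      · have := a4 v hv
        omega
    rw [lm_lt hvw] at h3
    rw [rh_lt hvw] at h4
    have e := root_of a1 b3 hv' h3 h4
    subst e
    rw [lm_gt hvw, lm_self]
  | @lr p g R C D A B k1 k2 k3 =>
    have e := root_of hb hB hw h1 h2
    subst e
    obtain ⟨a1, a2, a3, a4⟩ := bst_node.1 hb
    obtain ⟨b1, b2, b3, b4⟩ := bd_node hb hB
    have hv' : v ∈ inorder (.node p C R) := by
      rcases mem_node.1 hv with hv | hv | hv
      · exact hv
      · omega
      · have := a4 v hv
        omega
    rw [lm_lt hvw] at h3
    rw [rh_lt hvw] at h4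
    have e := root_of a1 b3 hv' h3 h4
    omega
  | @rr p g R C D A B k1 k2 k3 =>
    have e := root_of hb hB hw h1 h2
    have hpg : g < p := (bst_node.1 hb).2.2.2 p (by simp [inorder])
    omega
  | @rl p g L C D A B k1 k2 k3 =>
    have e := root_of hb hB hw h1 h2
    have hpg : g < p := (bst_node.1 hb).2.2.2 p (by simp [inorder])
    omega

/-- left side: the root and its right child -/
theorem ev_top_L {x : ℕ} {t A B : BinaryTree ℕ} (h : Ev x t A B) (hb : IsBST t) {lo hi : ℕ}
    (hB : Bd lo hi t) {v w : ℕ} (hv : v ∈ inorder t) (hw : w ∈ inorder t) (hxv : v < x)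
    (h1 : lm w t lo = lo) (h2 : rh w t hi = hi) (h3 : rh v t hi = hi) (h4 : lm v t lo = w) :
    rh w A x = v := by
  have hvw : w < v := by
    rw [← h4]
    exact (ends hb hB hv).2.1
  cases h with
  | base A B =>
    have := root_of hb hB hw h1 h2
    omega
  | @rr p g R C D A B k1 k2 k3 =>
    have e := root_of hb hB hw h1 h2
    subst e
    obtain ⟨a1, a2, a3, a4⟩ := bst_node.1 hb
    obtain ⟨b1, b2, b3, b4⟩ := bd_node hb hB
    have hv' : v ∈ inorder (.node p C R) := by
      rcases mem_node.1 hv with hv | hv | hv
      · have := a3 v hv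
        omega
      · omega
      · exact hv
    rw [lm_gt hvw] at h4
    rw [rh_gt hvw] at h3
    have e := root_of a2 b4 hv' h4 h3
    subst e
    rw [rh_lt hvw, rh_self]
  | @rl p g L C D A B k1 k2 k3 =>
    have e := root_of hb hB hw h1 h2
    subst e
    obtain ⟨a1, a2, a3, a4⟩ := bst_node.1 hb
    obtain ⟨b1, b2, b3, b4⟩ := bd_node hb hB
    have hv' : v ∈ inorder (.node p L C) := by
      rcases mem_node.1 hv with hv | hv | hv
      · have := a3 v hv
        omega
      · omega
      · exact hv
    rw [lm_gt hvw] at h4
    rw [rh_gt hvw] at h3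
    have e := root_of a2 b4 hv' h4 h3
    omega
  | @ll p g L C D A B k1 k2 k3 =>
    have e := root_of hb hB hw h1 h2
    have hpg : p < g := (bst_node.1 hb).2.2.1 p (by simp [inorder])
    omega
  | @lr p g R C D A B k1 k2 k3 =>
    have e := root_of hb hB hw h1 h2
    have hpg : p < g := (bst_node.1 hb).2.2.1 p (by simp [inorder])
    omega

theorem ev_half_R {x : ℕ} {t A B : BinaryTree ℕ} (h : Ev x t A B) : IsBST t → ∀ lo hi,
    Bd lo hi t → ∀ v w z, v ∈ inorder t → w ∈ inorder t → z ∈ inorder t → x < v →
      rh v t hi = w → rh w t hi = z → lm v t lo < x → lm v t lo = lm w t lo →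
      lm w t lo = lm z t lo → lm w B x = v ∨ lm z B x = w := by
  induction h with
  | base A B =>
    intro hb lo hi hB v w z hv hw hz hx e1 e2 e3 e4 e5
    obtain ⟨a1, a2, a3, a4⟩ := bst_node.1 hb
    obtain ⟨b1, b2, b3, b4⟩ := bd_node hb hB
    rcases mem_node.1 hv with hv | hv | hv
    · have := a3 v hv
      omega
    · omega
    · rw [lm_gt hx] at e3
      have := (ends a2 b4 hv).1
      omega
  | @ll p g L C D A B h1 h2 h3 ih =>
    intro hb lo hi hB v w z hv hw hz hx e1 e2 e3 e4 e5
    have hvw : v < w := by
      rw [← e1]
      exact (ends hb hB hv).2.2.1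
    have hwz : w < z := by
      rw [← e2]
      exact (ends hb hB hw).2.2.1
    obtain ⟨a1, a2, a3, a4⟩ := bst_node.1 hb
    obtain ⟨b1, b2, b3, b4⟩ := bd_node hb hB
    obtain ⟨c1, c2, c3, c4⟩ := bst_node.1 a1
    obtain ⟨d1, d2, d3, d4⟩ := bd_node a1 b3
    have hpg : p < g := a3 p (by simp [inorder])
    have hxL := ev_mem h3
    have hxp : x < p := (d3 x hxL).2
    have hxg : x < g := by omega
    have hlz : lm z (.node g (.node p L C) D) lo < x := by omega
    -- z is not in D
    have hzg : z ≤ g := by
      by_contra hc
      have hzD : z ∈ inorder D := by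
        rcases mem_node.1 hz with hz | hz | hz
        · have := a3 z hz
          omega
        · omega
        · exact hz
      rw [lm_gt (by omega)] at hlz
      have := (ends a2 b4 hzD).1
      omega
    have hwg : w < g := by omega
    have hvg : v < g := by omega
    have hw1 : w ∈ inorder (.node p L C) := by
      rcases mem_node.1 hw with hw | hw | hw
      · exact hw
      · omega
      · have := a4 w hw
        omega
    have hv1 : v ∈ inorder (.node p L C) := by
      rcases mem_node.1 hv with hv | hv | hv
      · exact hv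
      · omega
      · have := a4 v hv
        omega
    rw [rh_lt hvg] at e1
    rw [rh_lt hwg] at e2
    rw [lm_lt hvg] at e3 e4
    rw [lm_lt hwg] at e4 e5
    have hwp : w ≤ p := by
      by_contra hc
      have hwC : w ∈ inorder C := by
        rcases mem_node.1 hw1 with hw | hw | hw
        · have := c3 w hw
          omega
        · omega
        · exact hw
      rw [lm_gt (show p < w by omega)] at e4
      have := (ends c2 d4 hwC).1
      omega
    by_cases hwp' : w = p
    · right
      subst hwp'
      rw [rh_self] at e2
      rw [← e2, lm_gt hpg, lm_self]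
    · have hwp2 : w < p := by omega
      have hvp2 : v < p := by omega
      have hwL : w ∈ inorder L := by
        rcases mem_node.1 hw1 with hw | hw | hw
        · exact hw
        · omega
        · have := c4 w hw
          omega
      have hvL : v ∈ inorder L := by
        rcases mem_node.1 hv1 with hv | hv | hv
        · exact hv
        · omega
        · have := c4 v hv
          omega
      rw [rh_lt hvp2] at e1
      rw [rh_lt hwp2] at e2
      rw [lm_lt hvp2] at e3 e4
      rw [lm_lt hwp2] at e4 e5
      have hzp : z ≤ p := by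
        rw [← e2]
        exact (ends c1 d3 hwL).2.2.2.1
      rcases Nat.lt_or_ge z p with hzp2 | hzp2
      · have hzL : z ∈ inorder L := by
          rcases (ends c1 d3 hwL).2.2.2.2.2 with h | h
          · omega
          · rwa [e2] at h
        rw [lm_lt (show z < g by omega), lm_lt hzp2] at e5
        rcases ih c1 lo p d3 v w z hvL hwL hzL hx e1 e2 e3 e4 e5 with h | h
        · left
          rw [lm_lt hwp2]
          exact h
        · right
          rw [lm_lt hzp2]
          exact h
      · have hz' : z = p := by omega
        subst hz'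
        rw [lm_lt hpg, lm_self] at e5
        left
        rw [lm_lt hwp2]
        exact ev_top_R h3 c1 d3 hvL hwL hx e5 e2 (e4.trans e5) e1
  | @lr p g R C D A B h1 h2 h3 ih =>
    intro hb lo hi hB v w z hv hw hz hx e1 e2 e3 e4 e5
    have hvw : v < w := by
      rw [← e1]
      exact (ends hb hB hv).2.2.1
    have hwz : w < z := by
      rw [← e2]
      exact (ends hb hB hw).2.2.1
    obtain ⟨a1, a2, a3, a4⟩ := bst_node.1 hb
    obtain ⟨b1, b2, b3, b4⟩ := bd_node hb hB
    obtain ⟨c1, c2, c3, c4⟩ := bst_node.1 a1
    obtain ⟨d1, d2, d3, d4⟩ := bd_node a1 b3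
    have hpg : p < g := a3 p (by simp [inorder])
    have hxL := ev_mem h3
    have hxp := d4 x hxL
    have hlz : lm z (.node g (.node p C R) D) lo < x := by omega
    have hzg : z ≤ g := by
      by_contra hc
      have hzD : z ∈ inorder D := by
        rcases mem_node.1 hz with hz | hz | hz
        · have := a3 z hz
          omega
        · omega
        · exact hz
      rw [lm_gt (by omega)] at hlz
      have := (ends a2 b4 hzD).1
      omega
    have hwg : w < g := by omega
    have hvg : v < g := by omega
    have hw1 : w ∈ inorder (.node p C R) := by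
      rcases mem_node.1 hw with hw | hw | hw
      · exact hw
      · omega
      · have := a4 w hw
        omega
    have hv1 : v ∈ inorder (.node p C R) := by
      rcases mem_node.1 hv with hv | hv | hv
      · exact hv
      · omega
      · have := a4 v hv
        omega
    have hwR : w ∈ inorder R := by
      rcases mem_node.1 hw1 with hw | hw | hw
      · have := c3 w hw
        omega
      · omega
      · exact hw
    have hvR : v ∈ inorder R := by
      rcases mem_node.1 hv1 with hv | hv | hv
      · have := c3 v hv
        omega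
      · omega
      · exact hv
    rw [rh_lt hvg, rh_gt (by omega)] at e1
    rw [rh_lt hwg, rh_gt (by omega)] at e2
    rw [lm_lt hvg, lm_gt (by omega)] at e3 e4
    rw [lm_lt hwg, lm_gt (by omega)] at e4 e5
    have hzg' : z < g := by
      by_contra hc
      have : z = g := by omega
      subst this
      rw [lm_self] at e5
      have := (ends c2 d4 hwR).1
      omega
    have hzR : z ∈ inorder R := by
      rcases (ends c2 d4 hwR).2.2.2.2.2 with h | h
      · omega
      · rwa [e2] at h
    rw [lm_lt hzg', lm_gt (by omega)] at e5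
    rcases ih c2 p g d4 v w z hvR hwR hzR hx e1 e2 e3 e4 e5 with h | h
    · left
      rw [lm_lt hwg]
      exact h
    · right
      rw [lm_lt hzg']
      exact h
  | @rr p g R C D A B h1 h2 h3 ih =>
    intro hb lo hi hB v w z hv hw hz hx e1 e2 e3 e4 e5
    have hvw : v < w := by
      rw [← e1]
      exact (ends hb hB hv).2.2.1
    have hwz : w < z := by
      rw [← e2]
      exact (ends hb hB hw).2.2.1
    obtain ⟨a1, a2, a3, a4⟩ := bst_node.1 hb
    obtain ⟨b1, b2, b3, b4⟩ := bd_node hb hB
    obtain ⟨c1, c2, c3, c4⟩ := bst_node.1 a2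
    obtain ⟨d1, d2, d3, d4⟩ := bd_node a2 b4
    have hpg : g < p := a4 p (by simp [inorder])
    have hxp := d4 x (ev_mem h3)
    have key : ∀ y, x < y → y ∈ inorder (.node g D (.node p C R)) → y ∈ inorder R := by
      intro y hy h
      rcases mem_node.1 h with h | h | h
      · have := a3 y h
        omega
      · omega
      · rcases mem_node.1 h with h | h | h
        · have := c3 y h
          omega
        · omega
        · exact h
    have hvR := key v hx hv
    have hwR := key w (by omega) hw
    have hzR := key z (by omega) hz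
    rw [rh_gt (by omega), rh_gt (by omega)] at e1 e2
    rw [lm_gt (by omega), lm_gt (by omega)] at e3
    rw [lm_gt (show g < v by omega), lm_gt (show p < v by omega), lm_gt (show g < w by omega),
      lm_gt (show p < w by omega)] at e4
    rw [lm_gt (show g < w by omega), lm_gt (show p < w by omega), lm_gt (show g < z by omega),
      lm_gt (show p < z by omega)] at e5
    exact ih c2 p hi d4 v w z hvR hwR hzR hx e1 e2 e3 e4 e5
  | @rl p g L C D A B h1 h2 h3 ih =>
    intro hb lo hi hB v w z hv hw hz hx e1 e2 e3 e4 e5
    have hvw : v < w := by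
      rw [← e1]
      exact (ends hb hB hv).2.2.1
    have hwz : w < z := by
      rw [← e2]
      exact (ends hb hB hw).2.2.1
    obtain ⟨a1, a2, a3, a4⟩ := bst_node.1 hb
    obtain ⟨b1, b2, b3, b4⟩ := bd_node hb hB
    obtain ⟨c1, c2, c3, c4⟩ := bst_node.1 a2
    obtain ⟨d1, d2, d3, d4⟩ := bd_node a2 b4
    have hpg : g < p := a4 p (by simp [inorder])
    have hxp := d3 x (ev_mem h3)
    have key : ∀ y, x < y → y ∈ inorder (.node g D (.node p L C)) →
        lm y (.node g D (.node p L C)) lo < x → y ∈ inorder L ∨ y = p := by
      intro y hy h hl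
      rcases mem_node.1 h with h | h | h
      · have := a3 y h
        omega
      · omega
      · rcases mem_node.1 h with h | h | h
        · exact Or.inl h
        · exact Or.inr h
        · have h5 := c4 y h
          rw [lm_gt (show g < y by omega), lm_gt h5] at hl
          have := (ends c2 d4 h).1
          omega
    have hz' := key z (by omega) hz (by omega)
    have hzp : z ≤ p := by
      rcases hz' with h | h
      · exact (d3 z h).2.le
      · omega
    have hwp : w < p := by omega
    have hvp : v < p := by omega
    have hwL : w ∈ inorder L := by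
      rcases key w (by omega) hw (by omega) with h | h
      · exact h
      · omega
    have hvL : v ∈ inorder L := by
      rcases key v hx hv (by omega) with h | h
      · exact h
      · omega
    rw [rh_gt (by omega), rh_lt hvp] at e1
    rw [rh_gt (by omega), rh_lt hwp] at e2
    rw [lm_gt (by omega), lm_lt hvp] at e3
    rw [lm_gt (show g < v by omega), lm_lt hvp, lm_gt (show g < w by omega), lm_lt hwp] at e4
    rw [lm_gt (show g < w by omega), lm_lt hwp, lm_gt (show g < z by omega)] at e5
    rcases hz' with hzL | hz'
    · have hzp' : z < p := (d3 z hzL).2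
      rw [lm_lt hzp'] at e5
      rcases ih c1 g p d3 v w z hvL hwL hzL hx e1 e2 e3 e4 e5 with h | h
      · left
        rw [lm_lt hwp]
        exact h
      · right
        rw [lm_lt hzp']
        exact h
    · subst hz'
      rw [lm_self] at e5
      left
      rw [lm_lt hwp]
      exact ev_top_R h3 c1 d3 hvL hwL hx e5 e2 (e4.trans e5) e1

theorem ev_half_L {x : ℕ} {t A B : BinaryTree ℕ} (h : Ev x t A B) : IsBST t → ∀ lo hi,
    Bd lo hi t → ∀ v w z, v ∈ inorder t → w ∈ inorder t → z ∈ inorder t → v < x →
      lm v t lo = w → lm w t lo = z → x < rh v t hi → rh v t hi = rh w t hi →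
      rh w t hi = rh z t hi → rh w A x = v ∨ rh z A x = w := by
  induction h with
  | base A B =>
    intro hb lo hi hB v w z hv hw hz hx e1 e2 e3 e4 e5
    obtain ⟨a1, a2, a3, a4⟩ := bst_node.1 hb
    obtain ⟨b1, b2, b3, b4⟩ := bd_node hb hB
    rcases mem_node.1 hv with hv | hv | hv
    · rw [rh_lt hx] at e3
      have := (ends a1 b3 hv).2.2.2.1
      omega
    · omega
    · have := a4 v hv
      omega
  | @rr p g R C D A B h1 h2 h3 ih =>
    intro hb lo hi hB v w z hv hw hz hx e1 e2 e3 e4 e5
    have hvw : w < v := by
      rw [← e1]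
      exact (ends hb hB hv).2.1
    have hwz : z < w := by
      rw [← e2]
      exact (ends hb hB hw).2.1
    obtain ⟨a1, a2, a3, a4⟩ := bst_node.1 hb
    obtain ⟨b1, b2, b3, b4⟩ := bd_node hb hB
    obtain ⟨c1, c2, c3, c4⟩ := bst_node.1 a2
    obtain ⟨d1, d2, d3, d4⟩ := bd_node a2 b4
    have hpg : g < p := a4 p (by simp [inorder])
    have hxR := ev_mem h3
    have hxp : p < x := (d4 x hxR).1
    have hxg : g < x := by omega
    have hlz : x < rh z (.node g D (.node p C R)) hi := by omega
    have hzg : g ≤ z := by
      by_contra hc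
      have hzD : z ∈ inorder D := by
        rcases mem_node.1 hz with hz | hz | hz
        · exact hz
        · omega
        · have := a4 z hz
          omega
      rw [rh_lt (by omega)] at hlz
      have := (ends a1 b3 hzD).2.2.2.1
      omega
    have hwg : g < w := by omega
    have hvg : g < v := by omega
    have hw1 : w ∈ inorder (.node p C R) := by
      rcases mem_node.1 hw with hw | hw | hw
      · have := a3 w hw
        omega
      · omega
      · exact hw
    have hv1 : v ∈ inorder (.node p C R) := by
      rcases mem_node.1 hv with hv | hv | hv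
      · have := a3 v hv
        omega
      · omega
      · exact hv
    rw [lm_gt hvg] at e1
    rw [lm_gt hwg] at e2
    rw [rh_gt hvg] at e3 e4
    rw [rh_gt hwg] at e4 e5
    have hwp : p ≤ w := by
      by_contra hc
      have hwC : w ∈ inorder C := by
        rcases mem_node.1 hw1 with hw | hw | hw
        · exact hw
        · omega
        · have := c4 w hw
          omega
      rw [rh_lt (show w < p by omega)] at e4
      have := (ends c1 d3 hwC).2.2.2.1
      omega
    by_cases hwp' : w = p
    · right
      subst hwp'
      rw [lm_self] at e2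
      rw [← e2, rh_lt hpg, rh_self]
    · have hwp2 : p < w := by omega
      have hvp2 : p < v := by omega
      have hwR : w ∈ inorder R := by
        rcases mem_node.1 hw1 with hw | hw | hw
        · have := c3 w hw
          omega
        · omega
        · exact hw
      have hvR : v ∈ inorder R := by
        rcases mem_node.1 hv1 with hv | hv | hv
        · have := c3 v hv
          omega
        · omega
        · exact hv
      rw [lm_gt hvp2] at e1
      rw [lm_gt hwp2] at e2
      rw [rh_gt hvp2] at e3 e4
      rw [rh_gt hwp2] at e4 e5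
      have hzp : p ≤ z := by
        rw [← e2]
        exact (ends c2 d4 hwR).1
      rcases Nat.lt_or_ge p z with hzp2 | hzp2
      · have hzR : z ∈ inorder R := by
          rcases (ends c2 d4 hwR).2.2.2.2.1 with h | h
          · omega
          · rwa [e2] at h
        rw [rh_gt (show g < z by omega), rh_gt hzp2] at e5
        rcases ih c2 p hi d4 v w z hvR hwR hzR hx e1 e2 e3 e4 e5 with h | h
        · left
          rw [rh_gt hwp2]
          exact h
        · right
          rw [rh_gt hzp2]
          exact h
      · have hz' : z = p := by omega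
        subst hz'
        rw [rh_gt hpg, rh_self] at e5
        left
        rw [rh_gt hwp2]
        exact ev_top_L h3 c2 d4 hvR hwR hx e2 e5 (e4.trans e5) e1
  | @rl p g L C D A B h1 h2 h3 ih =>
    intro hb lo hi hB v w z hv hw hz hx e1 e2 e3 e4 e5
    have hvw : w < v := by
      rw [← e1]
      exact (ends hb hB hv).2.1
    have hwz : z < w := by
      rw [← e2]
      exact (ends hb hB hw).2.1
    obtain ⟨a1, a2, a3, a4⟩ := bst_node.1 hb
    obtain ⟨b1, b2, b3, b4⟩ := bd_node hb hB
    obtain ⟨c1, c2, c3, c4⟩ := bst_node.1 a2
    obtain ⟨d1, d2, d3, d4⟩ := bd_node a2 b4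
    have hpg : g < p := a4 p (by simp [inorder])
    have hxp := d3 x (ev_mem h3)
    have hlz : x < rh z (.node g D (.node p L C)) hi := by omega
    have hzg : g ≤ z := by
      by_contra hc
      have hzD : z ∈ inorder D := by
        rcases mem_node.1 hz with hz | hz | hz
        · exact hz
        · omega
        · have := a4 z hz
          omega
      rw [rh_lt (by omega)] at hlz
      have := (ends a1 b3 hzD).2.2.2.1
      omega
    have hwg : g < w := by omega
    have hvg : g < v := by omega
    have hw1 : w ∈ inorder (.node p L C) := by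
      rcases mem_node.1 hw with hw | hw | hw
      · have := a3 w hw
        omega
      · omega
      · exact hw
    have hv1 : v ∈ inorder (.node p L C) := by
      rcases mem_node.1 hv with hv | hv | hv
      · have := a3 v hv
        omega
      · omega
      · exact hv
    have hwL : w ∈ inorder L := by
      rcases mem_node.1 hw1 with hw | hw | hw
      · exact hw
      · omega
      · have := c4 w hw
        omega
    have hvL : v ∈ inorder L := by
      rcases mem_node.1 hv1 with hv | hv | hv
      · exact hv
      · omega
      · have := c4 v hv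
        omega
    have hvp : v < p := by omega
    have hwp : w < p := by omega
    rw [lm_gt hvg, lm_lt hvp] at e1
    rw [lm_gt hwg, lm_lt hwp] at e2
    rw [rh_gt hvg, rh_lt hvp] at e3 e4
    rw [rh_gt hwg, rh_lt hwp] at e4 e5
    have hzg' : g < z := by
      by_contra hc
      have : z = g := by omega
      subst this
      rw [rh_self] at e5
      have := (ends c1 d3 hwL).2.2.2.1
      omega
    have hzL : z ∈ inorder L := by
      rcases (ends c1 d3 hwL).2.2.2.2.1 with h | h
      · omega
      · rwa [e2] at h
    rw [rh_gt hzg', rh_lt (show z < p by omega)] at e5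
    rcases ih c1 g p d3 v w z hvL hwL hzL hx e1 e2 e3 e4 e5 with h | h
    · left
      rw [rh_gt hwg]
      exact h
    · right
      rw [rh_gt hzg']
      exact h
  | @ll p g L C D A B h1 h2 h3 ih =>
    intro hb lo hi hB v w z hv hw hz hx e1 e2 e3 e4 e5
    have hvw : w < v := by
      rw [← e1]
      exact (ends hb hB hv).2.1
    have hwz : z < w := by
      rw [← e2]
      exact (ends hb hB hw).2.1
    obtain ⟨a1, a2, a3, a4⟩ := bst_node.1 hb
    obtain ⟨b1, b2, b3, b4⟩ := bd_node hb hB
    obtain ⟨c1, c2, c3, c4⟩ := bst_node.1 a1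
    obtain ⟨d1, d2, d3, d4⟩ := bd_node a1 b3
    have hpg : p < g := a3 p (by simp [inorder])
    have hxp := d3 x (ev_mem h3)
    have key : ∀ y, y < x → y ∈ inorder (.node g (.node p L C) D) → y ∈ inorder L := by
      intro y hy h
      rcases mem_node.1 h with h | h | h
      · rcases mem_node.1 h with h | h | h
        · exact h
        · omega
        · have := c4 y h
          omega
      · omega
      · have := a4 y h
        omega
    have hvL := key v hx hv
    have hwL := key w (by omega) hw
    have hzL := key z (by omega) hz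
    rw [lm_lt (show v < g by omega), lm_lt (show v < p by omega)] at e1
    rw [lm_lt (show w < g by omega), lm_lt (show w < p by omega)] at e2
    rw [rh_lt (show v < g by omega), rh_lt (show v < p by omega)] at e3 e4
    rw [rh_lt (show w < g by omega), rh_lt (show w < p by omega)] at e4 e5
    rw [rh_lt (show z < g by omega), rh_lt (show z < p by omega)] at e5
    exact ih c1 lo p d3 v w z hvL hwL hzL hx e1 e2 e3 e4 e5
  | @lr p g R C D A B h1 h2 h3 ih =>
    intro hb lo hi hB v w z hv hw hz hx e1 e2 e3 e4 e5
    have hvw : w < v := by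
      rw [← e1]
      exact (ends hb hB hv).2.1
    have hwz : z < w := by
      rw [← e2]
      exact (ends hb hB hw).2.1
    obtain ⟨a1, a2, a3, a4⟩ := bst_node.1 hb
    obtain ⟨b1, b2, b3, b4⟩ := bd_node hb hB
    obtain ⟨c1, c2, c3, c4⟩ := bst_node.1 a1
    obtain ⟨d1, d2, d3, d4⟩ := bd_node a1 b3
    have hpg : p < g := a3 p (by simp [inorder])
    have hxp := d4 x (ev_mem h3)
    have key : ∀ y, y < x → y ∈ inorder (.node g (.node p C R) D) →
        x < rh y (.node g (.node p C R) D) hi → y ∈ inorder R ∨ y = p := by
      intro y hy h hl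
      rcases mem_node.1 h with h | h | h
      · rcases mem_node.1 h with h | h | h
        · have h5 := c3 y h
          rw [rh_lt (show y < g by omega), rh_lt h5] at hl
          have := (ends c1 d3 h).2.2.2.1
          omega
        · exact Or.inr h
        · exact Or.inl h
      · omega
      · have := a4 y h
        omega
    have hz' := key z (by omega) hz (by omega)
    have hzp : p ≤ z := by
      rcases hz' with h | h
      · exact (d4 z h).1.le
      · omega
    have hwp : p < w := by omega
    have hvp : p < v := by omega
    have hwR : w ∈ inorder R := by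
      rcases key w (by omega) hw (by omega) with h | h
      · exact h
      · omega
    have hvR : v ∈ inorder R := by
      rcases key v hx hv (by omega) with h | h
      · exact h
      · omega
    rw [lm_lt (show v < g by omega), lm_gt hvp] at e1
    rw [lm_lt (show w < g by omega), lm_gt hwp] at e2
    rw [rh_lt (show v < g by omega), rh_gt hvp] at e3 e4
    rw [rh_lt (show w < g by omega), rh_gt hwp] at e4 e5
    rw [rh_lt (show z < g by omega)] at e5
    rcases hz' with hzR | hz'
    · have hzp' : p < z := (d4 z hzR).1
      rw [rh_gt hzp'] at e5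
      rcases ih c2 p g d4 v w z hvR hwR hzR hx e1 e2 e3 e4 e5 with h | h
      · left
        rw [rh_gt hwp]
        exact h
      · right
        rw [rh_gt hzp']
        exact h
    · subst hz'
      rw [rh_self] at e5
      left
      rw [rh_gt hwp]
      exact ev_top_L h3 c2 d4 hvR hwR hx e2 e5 (e4.trans e5) e1

theorem spl_half_R {x : ℕ} {t A B : BinaryTree ℕ} (h : Spl x t A B) (hb : IsBST t) {lo hi : ℕ}
    (hB : Bd lo hi t) {v w z : ℕ} (hv : v ∈ inorder t) (hw : w ∈ inorder t) (hz : z ∈ inorder t)
    (hx : x < v) (e1 : rh v t hi = w) (e2 : rh w t hi = z) (e3 : lm v t lo < x)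
    (e4 : lm v t lo = lm w t lo) (e5 : lm w t lo = lm z t lo) :
    lm w B x = v ∨ lm z B x = w := by
  have hvw : v < w := by
    rw [← e1]
    exact (ends hb hB hv).2.2.1
  have hwz : w < z := by
    rw [← e2]
    exact (ends hb hB hw).2.2.1
  cases h with
  | ev h => exact ev_half_R h hb lo hi hB v w z hv hw hz hx e1 e2 e3 e4 e5
  | @zl g L D A B h1 h2 =>
    obtain ⟨a1, a2, a3, a4⟩ := bst_node.1 hb
    obtain ⟨b1, b2, b3, b4⟩ := bd_node hb hB
    have hxg := b3 x (ev_mem h2)
    have hzg : z ≤ g := by
      by_contra hc
      have hzD : z ∈ inorder D := by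
        rcases mem_node.1 hz with hz | hz | hz
        · have := a3 z hz
          omega
        · omega
        · exact hz
      have hlz : lm z (.node g L D) lo < x := by omega
      rw [lm_gt (by omega)] at hlz
      have := (ends a2 b4 hzD).1
      omega
    have hvL : v ∈ inorder L := by
      rcases mem_node.1 hv with hv | hv | hv
      · exact hv
      · omega
      · have := a4 v hv
        omega
    have hwL : w ∈ inorder L := by
      rcases mem_node.1 hw with hw | hw | hw
      · exact hw
      · omega
      · have := a4 w hw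
        omega
    rw [rh_lt (show v < g by omega)] at e1
    rw [rh_lt (show w < g by omega)] at e2
    rw [lm_lt (show v < g by omega)] at e3 e4
    rw [lm_lt (show w < g by omega)] at e4 e5
    rcases Nat.lt_or_ge z g with hzg' | hzg'
    · have hzL : z ∈ inorder L := by
        rcases (ends a1 b3 hwL).2.2.2.2.2 with h | h
        · omega
        · rwa [e2] at h
      rw [lm_lt hzg'] at e5
      rcases ev_half_R h2 a1 lo g b3 v w z hvL hwL hzL hx e1 e2 e3 e4 e5 with h | h
      · left
        rw [lm_lt (show w < g by omega)]
        exact h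
      · right
        rw [lm_lt hzg']
        exact h
    · have e : z = g := by omega
      subst e
      rw [lm_self] at e5
      left
      rw [lm_lt (show w < z by omega)]
      exact ev_top_R h2 a1 b3 hvL hwL hx e5 e2 (e4.trans e5) e1
  | @zr g R D A B h1 h2 =>
    obtain ⟨a1, a2, a3, a4⟩ := bst_node.1 hb
    obtain ⟨b1, b2, b3, b4⟩ := bd_node hb hB
    have hxg := b4 x (ev_mem h2)
    have key : ∀ y, x < y → y ∈ inorder (.node g D R) → y ∈ inorder R := by
      intro y hy h
      rcases mem_node.1 h with h | h | h
      · have := a3 y h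
        omega
      · omega
      · exact h
    rw [rh_gt (show g < v by omega)] at e1
    rw [rh_gt (show g < w by omega)] at e2
    rw [lm_gt (show g < v by omega)] at e3 e4
    rw [lm_gt (show g < w by omega)] at e4 e5
    rw [lm_gt (show g < z by omega)] at e5
    exact ev_half_R h2 a2 g hi b4 v w z (key v hx hv) (key w (by omega) hw)
      (key z (by omega) hz) hx e1 e2 e3 e4 e5

theorem spl_half_L {x : ℕ} {t A B : BinaryTree ℕ} (h : Spl x t A B) (hb : IsBST t) {lo hi : ℕ}
    (hB : Bd lo hi t) {v w z : ℕ} (hv : v ∈ inorder t) (hw : w ∈ inorder t) (hz : z ∈ inorder t)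
    (hx : v < x) (e1 : lm v t lo = w) (e2 : lm w t lo = z) (e3 : x < rh v t hi)
    (e4 : rh v t hi = rh w t hi) (e5 : rh w t hi = rh z t hi) :
    rh w A x = v ∨ rh z A x = w := by
  have hvw : w < v := by
    rw [← e1]
    exact (ends hb hB hv).2.1
  have hwz : z < w := by
    rw [← e2]
    exact (ends hb hB hw).2.1
  cases h with
  | ev h => exact ev_half_L h hb lo hi hB v w z hv hw hz hx e1 e2 e3 e4 e5
  | @zl g L D A B h1 h2 =>
    obtain ⟨a1, a2, a3, a4⟩ := bst_node.1 hb
    obtain ⟨b1, b2, b3, b4⟩ := bd_node hb hB
    have hxg := b3 x (ev_mem h2)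
    have key : ∀ y, y < x → y ∈ inorder (.node g L D) → y ∈ inorder L := by
      intro y hy h
      rcases mem_node.1 h with h | h | h
      · exact h
      · omega
      · have := a4 y h
        omega
    rw [lm_lt (show v < g by omega)] at e1
    rw [lm_lt (show w < g by omega)] at e2
    rw [rh_lt (show v < g by omega)] at e3 e4
    rw [rh_lt (show w < g by omega)] at e4 e5
    rw [rh_lt (show z < g by omega)] at e5
    exact ev_half_L h2 a1 lo g b3 v w z (key v hx hv) (key w (by omega) hw)
      (key z (by omega) hz) hx e1 e2 e3 e4 e5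
  | @zr g R D A B h1 h2 =>
    obtain ⟨a1, a2, a3, a4⟩ := bst_node.1 hb
    obtain ⟨b1, b2, b3, b4⟩ := bd_node hb hB
    have hxg := b4 x (ev_mem h2)
    have hzg : g ≤ z := by
      by_contra hc
      have hzD : z ∈ inorder D := by
        rcases mem_node.1 hz with hz | hz | hz
        · exact hz
        · omega
        · have := a4 z hz
          omega
      have hlz : x < rh z (.node g D R) hi := by omega
      rw [rh_lt (by omega)] at hlz
      have := (ends a1 b3 hzD).2.2.2.1
      omega
    have hvR : v ∈ inorder R := by
      rcases mem_node.1 hv with hv | hv | hv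
      · have := a3 v hv
        omega
      · omega
      · exact hv
    have hwR : w ∈ inorder R := by
      rcases mem_node.1 hw with hw | hw | hw
      · have := a3 w hw
        omega
      · omega
      · exact hw
    rw [lm_gt (show g < v by omega)] at e1
    rw [lm_gt (show g < w by omega)] at e2
    rw [rh_gt (show g < v by omega)] at e3 e4
    rw [rh_gt (show g < w by omega)] at e4 e5
    rcases Nat.lt_or_ge g z with hzg' | hzg'
    · have hzR : z ∈ inorder R := by
        rcases (ends a2 b4 hwR).2.2.2.2.1 with h | h
        · omega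
        · rwa [e2] at h
      rw [rh_gt hzg'] at e5
      rcases ev_half_L h2 a2 g hi b4 v w z hvR hwR hzR hx e1 e2 e3 e4 e5 with h | h
      · left
        rw [rh_gt (show g < w by omega)]
        exact h
      · right
        rw [rh_gt hzg']
        exact h
    · have e : z = g := by omega
      subst e
      rw [rh_self] at e5
      left
      rw [rh_gt (show z < w by omega)]
      exact ev_top_L h2 a2 b4 hvR hwR hx e2 e5 (e4.trans e5) e1

section

variable {T : BinaryTree ℕ} {X : ℕ → ℕ} {m top : ℕ} (hb : IsBST T)
  (hX : ∀ t, t < m → X t ∈ inorder T) (hB : Bd 0 top T)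

/-- **Right side of a run.** -/
theorem run_half : HalfS (sysOf T X m top hb hX hB) := by
  intro t v h1 h2 h3 h4 h5
  have ht : t < m := h1.1
  obtain ⟨i1, i2⟩ := tr_inv hb hX t ht.le
  have i3 : Bd 0 top (tr T X t) := by
    intro w hw
    rw [i2] at hw
    exact hB w hw
  have i4 : X t ∈ inorder (tr T X t) := by
    rw [i2]
    exact hX t ht
  have mem : ∀ {w : ℕ}, w ∈ (sysOf T X m top hb hX hB).K → w ∈ inorder (tr T X t) := by
    intro w hw
    rw [i2]
    exact List.mem_toFinset.1 hw
  obtain ⟨A, B, k1, k2⟩ := spl_exists i1 i4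
  have hv2 := h2.2.2.1
  have hv3 := h3.2.2.1
  have key := spl_half_R k1 i1 i3 (mem h1.2.1) (mem h2.2.1) (mem h3.2.1) h1.2.2.1 rfl rfl
    h1.2.2.2 h4 h5
  have e : ∀ w, X t < w → (sysOf T X m top hb hX hB).lam (t + 1) w = lm w B (X t) := by
    intro w hw
    change lm w (splay (X t) (tr T X t)) 0 = _
    rw [k2, lm_gt hw]
  rcases key with h | h
  · left
    exact ⟨h2, h1.2.2.1, (e _ hv2).trans h⟩
  · right
    exact ⟨h3, hv2, (e _ hv3).trans h⟩

/-- **Left side of a run.** -/
theorem run_half_mir : HalfS (sysOf T X m top hb hX hB).mir := by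
  set S := sysOf T X m top hb hX hB with hS
  intro t v' h1 h2 h3 h4 h5
  have ht : t < m := h1.1
  obtain ⟨v, hv, rfl⟩ := Sys.mir_mem.1 h1.2.1
  rw [Sys.mir_rho hv] at h2 h3 h4 h5 ⊢
  have hwm := h2.2.1
  have hlv := S.lam_lt_top ht.le hv
  have hw : S.lam t v ∈ S.K := by
    obtain ⟨u, hu, hu'⟩ := Sys.mir_mem.1 hwm
    have := S.key u hu
    have e : S.lam t v = u := by omega
    rwa [e]
  rw [Sys.mir_rho hw] at h3 h5 ⊢
  have hlw := S.lam_lt_top ht.le hw
  have hz : S.lam t (S.lam t v) ∈ S.K := by
    obtain ⟨u, hu, hu'⟩ := Sys.mir_mem.1 h3.2.1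
    have := S.key u hu
    have e : S.lam t (S.lam t v) = u := by omega
    rwa [e]
  rw [Sys.mir_R hv] at h1
  rw [Sys.mir_R hw] at h2
  rw [Sys.mir_R hz] at h3
  rw [Sys.mir_lam hv, Sys.mir_lam hw] at h4
  rw [Sys.mir_lam hw, Sys.mir_lam hz] at h5
  have r1 := S.rho_le_top ht.le hv
  have r2 := S.rho_le_top ht.le hw
  have r3 := S.rho_le_top ht.le hz
  have h4' : S.rho t v = S.rho t (S.lam t v) := by omega
  have h5' : S.rho t (S.lam t v) = S.rho t (S.lam t (S.lam t v)) := by omega
  rw [Blk.mir_Kl hw (S.key v hv).2, Blk.mir_Kl hz (S.key _ hw).2]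
  obtain ⟨i1, i2⟩ := tr_inv hb hX t ht.le
  have i3 : Bd 0 top (tr T X t) := by
    intro w hw
    rw [i2] at hw
    exact hB w hw
  have i4 : X t ∈ inorder (tr T X t) := by
    rw [i2]
    exact hX t ht
  have mem : ∀ {w : ℕ}, w ∈ S.K → w ∈ inorder (tr T X t) := by
    intro w hw
    rw [i2]
    exact List.mem_toFinset.1 hw
  obtain ⟨A, B, k1, k2⟩ := spl_exists i1 i4
  have hv2 := h2.2.2.1
  have hv3 := h3.2.2.1
  have key := spl_half_L k1 i1 i3 (mem hv) (mem hw) (mem hz) h1.2.2.1 rfl rfl
    h1.2.2.2 h4' h5'
  have e : ∀ w, w < X t → S.rho (t + 1) w = rh w A (X t) := by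
    intro w hw
    change rh w (splay (X t) (tr T X t)) top = _
    rw [k2, rh_lt hw]
  rcases key with h | h
  · left
    exact ⟨h2, h1.2.2.1, (e _ hv2).trans h⟩
  · right
    exact ⟨h3, hv2, (e _ hv3).trans h⟩

end

end Pool.Agent.SplPl
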