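import Pool.Agent.SplPl.Mir

set_option autoImplicit false

/-!
# One access (STEP)
-/

namespace Pool.Agent.SplPl

open Pool.Agent.SplLog

variable {S : Sys} {B : Blk S} {t u v w s r a b g p x y : ℕ}

namespace Blk

/-- The three possibilities for a right-touched node. -/
theorem R_cases (h : S.R t v) :
    (S.Kp t v ∧ S.rho (t + 1) v = S.rho t v ∧ ∀ g, ¬ S.Kl t g v) ∨ (∃ g, S.Kl t g v) ∨
      ∃ p, S.Kl t v p := by
  have h0 := h
  obtain ⟨ht, hv, hx, hl⟩ := h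
  rcases S.right t ht v hv hx with h4 | ⟨_, h4, h5⟩ | ⟨_, p, _, h5, _, h6, _⟩
  · omega
  · rcases h5 with h5 | ⟨c1, c2, c3, c4, c5⟩
    · left
      refine ⟨⟨h0, h4⟩, h5, ?_⟩
      intro g hg
      have h6 := (Sys.kl_facts hg).2.2.2
      have h7 := S.lt_rho t ht.le g hg.1.2.1
      omega
    · right; left
      have h6 := S.lt_rho t ht.le v hv
      exact ⟨S.rho t v, ⟨ht, c1, by omega, by omega⟩, hx, c3⟩
  · right; right
    exact ⟨p, h0, h5, h6⟩

/-- A killer is not killed. -/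
theorem killer_not_killed (h : S.Kl t g v) (h' : S.Kl t v p) : False :=
  Sys.not_kp_kl (Sys.kl_facts h).1 h'

theorem kl_p_inj {p' : ℕ} (h : S.Kl t g p) (h' : S.Kl t g p') : p = p' := by
  rw [← h.2.2, ← h'.2.2]

theorem kl_lt (h : S.Kl t g p) : t < S.m := h.1.1

/-- (S0) -/
theorem step_off_P (ht : t < S.m) (h : B.P t s v) (hs : s ∉ B.tau t) (he : ¬ S.E t v) :
    B.P (t + 1) s v := by
  obtain ⟨hv, h1, r, h2, h3, h4⟩ := h
  have hr := rho_le ht.le hv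
  have hf := h1.free ht hr hs
  obtain ⟨e1, e2⟩ := Sys.untouched ht hv he
  refine ⟨hv, ?_, ?_⟩
  · rw [e2]
    exact (hf.IsG_iff ht hr).2 h1
  · rw [e1]
    by_cases hq : ∃ q ∈ B.tau t, S.lam t v ≤ q ∧ q < v
    · obtain ⟨q, a1, a2, a3, _, a4⟩ := hf.high_left ht hr hq
      exact ⟨q, a2, a3, (a4 s h1.1 h1.2.1).2⟩
    · refine ⟨r, h2, h3, ?_⟩
      have hk := S.key v hv
      have hs2 := h1.2.1
      rw [B.keep t ht s (by omega) hs, B.keep t ht r (by omega) (fun h5 => hq ⟨r, h5, h2, h3⟩)]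
      exact h4

/-- (S0), sign `-` -/
theorem step_off_Q (ht : t < S.m) (h : B.Q t s v) (hs : s ∉ B.tau t) (he : ¬ S.E t v) :
    B.Q (t + 1) s v := by
  have h1 := S.key v h.1
  have h2 := h.2.1.2.1
  have hs' : s < S.top := by omega
  rw [← mir_P (B := B) ht h.1 hs']
  refine step_off_P (S := S.mir) (B := B.mir) ht ((mir_P ht.le h.1 hs').2 h) ?_ ?_
  · rwa [mir_tau ht hs']
  · rwa [Sys.mir_E h.1]

/-- (S1): kept, and no killer -/
theorem step_keep (hr : S.Kp t v) (h : B.P t s v) (hs : s ∉ B.tau t)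
    (hrho : S.rho (t + 1) v = S.rho t v) : B.P (t + 1) s v := by
  have ht := hr.1.1
  obtain ⟨hv, h1, _⟩ := h
  have hrl := rho_le ht.le hv
  have hf := h1.free ht hrl hs
  refine ⟨hv, ?_, ?_⟩
  · rw [hrho]
    exact (hf.IsG_iff ht hrl).2 h1
  · rw [hr.2]
    obtain ⟨q, a1, a2, a3, _, a4⟩ := hf.high_left ht hrl (w := S.X t)
      ⟨S.X t, (B.tau_X t ht).2, le_rfl, hr.1.2.2.1⟩
    exact ⟨q, a2, a3, (a4 s h1.1 h1.2.1).2⟩

/-- Everything about the tree at a match. -/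
theorem Mt.tree (h : B.Mt t g p a b) : t < S.m ∧ S.X t < p ∧ p < g ∧ g < S.rho t g ∧
    S.rho t p = g ∧ S.lam (t + 1) g = p ∧ S.rho (t + 1) g = S.rho t g ∧
    S.lam (t + 1) p = S.X t ∧ S.rho (t + 1) p = S.rho t g ∧ g ∈ S.K ∧ p ∈ S.K ∧
    S.rho t g ≤ S.top ∧ S.R t g ∧ S.R t p := by
  obtain ⟨h1, _⟩ := h
  have h2 := Sys.kl_facts h1
  have ht := h1.1.1
  exact ⟨ht, h1.2.1, h2.2.1, S.lt_rho t ht.le g h1.1.2.1, h2.2.2.2.1, h1.2.2, h2.2.2.2.2.2,
    h2.1.2, h2.2.2.2.2.1, h1.1.2.1, h2.1.1.2.1, rho_le ht.le h1.1.2.1, h1.1, h2.1.1⟩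

theorem Mt.free_g (h : B.Mt t g p a b) : B.Fr t g (S.rho t g) :=
  h.2.1.mono (by have := h.tree; omega) le_rfl

theorem Mt.free_p (h : B.Mt t g p a b) : B.Fr t p (S.rho t p) :=
  h.2.1.mono le_rfl (by have := h.tree; omega)

/-- the two players have different heights -/
theorem Mt.ne (h : B.Mt t g p a b) : B.om t a ≠ B.om t b := by
  have h1 := h.tree
  have hk := S.key p (by tauto)
  exact (IsG.om_ne (by omega) (by tauto) h.2.2.2 h.2.2.1 (by omega)).symm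

/-- the gap above the new interval of the killer -/
theorem Mt.high (h : B.Mt t g p a b) : ∃ q, S.X t ≤ q ∧ q < p ∧
    ∀ s, p ≤ s → s < S.rho t g → B.om t s < B.om t q ∧ B.om (t + 1) s < B.om (t + 1) q := by
  have h1 := h.tree
  obtain ⟨q, _, a2, a3, _, a4⟩ := h.2.1.high_left (by tauto) (by tauto) (w := S.X t)
      ⟨S.X t, (B.tau_X t (by tauto)).2, le_rfl, by tauto⟩
  exact ⟨q, a2, a3, a4⟩

/-- (S2), no flip: the player of `g` is LOW -/
theorem Mt.step_lt (h : B.Mt t g p a b) (hab : B.om t a < B.om t b) :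
    B.P (t + 1) a g ∧ B.P (t + 1) b p := by
  have h1 := h.tree
  obtain ⟨ht, hx, hpg, hgr, e1, e2, e3, e4, e5, hg, hp, hr, _, _⟩ := h1
  have ha := h.2.2.1
  have hb := h.2.2.2
  have hf := h.2.1
  have hb1 := hb.1
  have hb2 := hb.2.1
  have ha1 := ha.1
  have ha2 := ha.2.1
  obtain ⟨q, a2, a3, a4⟩ := h.high
  constructor
  · refine ⟨hg, ?_, b, by omega, by omega, ?_⟩
    · rw [e3]
      exact ((h.free_g).IsG_iff ht hr).2 ha
    · rw [hf.om_eq ht hr (by omega) (by omega), hf.om_eq ht hr (by omega) (by omega)]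
      exact hab
  · refine ⟨hp, ?_, q, by omega, by omega, (a4 b (by omega) (by omega)).2⟩
    rw [e5]
    exact (hf.IsG_iff ht hr).2 (hb.join_gt ha hab)

/-- (S2), flip: the player of `p` is LOW -/
theorem Mt.step_gt (h : B.Mt t g p a b) (hab : B.om t b < B.om t a) :
    B.Q (t + 1) b g ∧ B.P (t + 1) a p := by
  have h1 := h.tree
  obtain ⟨ht, hx, hpg, hgr, e1, e2, e3, e4, e5, hg, hp, hr, _, _⟩ := h1
  have ha := h.2.2.1
  have hb := h.2.2.2
  have hf := h.2.1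
  have hb1 := hb.1
  have hb2 := hb.2.1
  have ha1 := ha.1
  have ha2 := ha.2.1
  obtain ⟨q, a2, a3, a4⟩ := h.high
  constructor
  · refine ⟨hg, ?_, a, by omega, by omega, ?_⟩
    · rw [e2]
      exact ((hf.mono le_rfl (by omega : g ≤ S.rho t g)).IsG_iff ht (by omega)).2 hb
    · rw [hf.om_eq ht hr (by omega) (by omega), hf.om_eq ht hr (by omega) (by omega)]
      exact hab
  · refine ⟨hp, ?_, q, by omega, by omega, (a4 a (by omega) (by omega)).2⟩
    rw [e5]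
    exact (hf.IsG_iff ht hr).2 (hb.join_lt ha hab)

/-- (S3) = (K4): `g` keeps its player -/
theorem step_K4 (h : S.Kl t g p) (hf : ¬ B.Fr t p g) (hp : B.P t s g) (hs : s ∉ B.tau t) :
    B.P (t + 1) s g := by
  have ht := h.1.1
  have h2 := Sys.kl_facts h
  obtain ⟨hg, h1, _⟩ := hp
  have hr := rho_le ht.le hg
  have hfr := h1.free ht hr hs
  refine ⟨hg, ?_, ?_⟩
  · rw [h2.2.2.2.2.2]
    exact (hfr.IsG_iff ht hr).2 h1
  · rw [h.2.2]
    obtain ⟨q, a1, a2, a3, _, a4⟩ := hfr.high_left ht hr (w := p) (not_Fr hf)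
    exact ⟨q, a2, a3, (a4 s h1.1 h1.2.1).2⟩

/-- (S4) = (K5): the player of `p` gets the node `g` with sign `-` -/
theorem step_K5 (h : S.Kl t g p) (hf : ¬ B.Fr t g (S.rho t g)) (hp : B.P t s p)
    (hs : s ∉ B.tau t) : B.Q (t + 1) s g := by
  have ht := h.1.1
  have h2 := Sys.kl_facts h
  have hg := h.1.2.1
  have hk := S.key g hg
  obtain ⟨hp0, h1, _⟩ := hp
  have e := h2.2.2.2.1
  rw [e] at h1
  have hfr := h1.free ht (by omega) hs
  refine ⟨hg, ?_, ?_⟩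
  · rw [h.2.2]
    exact (hfr.IsG_iff ht (by omega)).2 h1
  · rw [h2.2.2.2.2.2]
    obtain ⟨q, a1, a2, a3, _, a4⟩ := hfr.high_right ht (by omega) (w := S.rho t g) (not_Fr hf)
    exact ⟨q, a2, a3, (a4 s h1.1 h1.2.1).2⟩

/-! ### consequences for `TR`, `RR`, `LoR` -/

/-- The node of a player touched on the right side. -/
theorem TR_node (h : B.TR t s) : ∃ v, S.R t v ∧ B.Fr t v (S.rho t v) ∧
    B.IsG t v (S.rho t v) s ∧ B.P t s v ∧ s ∉ B.tau t ∧ ¬ B.Bad t v := by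
  obtain ⟨v, h1, h2, h3, h4⟩ := h
  exact ⟨v, h1, h2, h3, R_P h1 h2 h3, h2 s h3.1 h3.2.1, h4⟩

theorem RR_node (h : B.RR t s) : ∃ v, S.R t v ∧ B.Fr t v (S.rho t v) ∧
    B.IsG t v (S.rho t v) s ∧ B.P t s v ∧ s ∉ B.tau t ∧ B.Bad t v := by
  obtain ⟨v, h1, h2, h3, h4⟩ := h
  exact ⟨v, h1, h2, h3, R_P h1 h2 h3, h2 s h3.1 h3.2.1, h4⟩

theorem TR_lt (h : B.TR t s) : t < S.m := by
  obtain ⟨v, h1, _⟩ := h
  exact h1.1

theorem RR_lt (h : B.RR t s) : t < S.m := by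
  obtain ⟨v, h1, _⟩ := h
  exact h1.1

theorem TR_gs (h : B.TR t s) : s ∈ gs S := by
  obtain ⟨v, h1, _, _, h4, _⟩ := TR_node h
  exact h4.gs h1.1.le

theorem RR_gs (h : B.RR t s) : s ∈ gs S := by
  obtain ⟨v, h1, _, _, h4, _⟩ := RR_node h
  exact h4.gs h1.1.le

theorem TR_not_tau (h : B.TR t s) : s ∉ B.tau t := by
  obtain ⟨v, _, _, _, _, h5, _⟩ := TR_node h
  exact h5

theorem RR_not_tau (h : B.RR t s) : s ∉ B.tau t := by
  obtain ⟨v, _, _, _, _, h5, _⟩ := RR_node h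
  exact h5

theorem TR_not_RR (h : B.TR t s) (h' : B.RR t s) : False := by
  obtain ⟨v, h1, _, _, h4, _, h6⟩ := TR_node h
  obtain ⟨v', _, _, _, h4', _, h6'⟩ := RR_node h'
  have e := h4.inj h1.1.le h4'
  rw [e] at h6
  exact h6 h6'

/-- A right-touched node with an untouched player: `TR` or `RR`. -/
theorem TR_or_RR (h : S.R t v) (hp : B.P t s v ∨ B.Q t s v) (hs : s ∉ B.tau t) :
    B.TR t s ∨ B.RR t s := by
  obtain ⟨_, h2, h3⟩ := R_free h hp hs
  by_cases hb : B.Bad t v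
  · exact Or.inr ⟨v, h, h2, h3, hb⟩
  · exact Or.inl ⟨v, h, h2, h3, hb⟩

/-- Right players are to the right of the request. -/
theorem TR_X (h : B.TR t s) : S.X t < s := by
  obtain ⟨v, h1, _, h3, _⟩ := h
  have := h1.2.2.1
  have := h3.1
  omega

theorem RR_X (h : B.RR t s) : S.X t < s := by
  obtain ⟨v, h1, _, h3, _⟩ := h
  have := h1.2.2.1
  have := h3.1
  omega

/-- Left players are to the left of the request. -/
theorem mir_TR_X (h : B.mir.TR t (fl S s)) : s + 1 < S.X t := by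
  have h1 := TR_X h
  have h0 : t < S.mir.m := TR_lt h
  have h2 := S.key _ (S.req t h0)
  change S.top - S.X t < fl S s at h1
  unfold fl at h1
  omega

theorem mir_RR_X (h : B.mir.RR t (fl S s)) : s + 1 < S.X t := by
  have h1 := RR_X h
  have h0 : t < S.mir.m := RR_lt h
  have h2 := S.key _ (S.req t h0)
  change S.top - S.X t < fl S s at h1
  unfold fl at h1
  omega

/-- The nodes of a match are not `Bad`, so both players are `TR`. -/
theorem Mt.TR (h : B.Mt t g p a b) : B.TR t a ∧ B.TR t b := by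
  have h1 := h.tree
  have hkl := h.1
  refine ⟨⟨g, by tauto, h.free_g, h.2.2.1, ?_⟩, ⟨p, by tauto, h.free_p, ?_, ?_⟩⟩
  · rintro (⟨p', h2, h3⟩ | ⟨g', h2, _⟩)
    · rw [← kl_p_inj hkl h2] at h3
      exact h3 (h.2.1.mono le_rfl (by omega))
    · exact killer_not_killed h2 hkl
  · rw [h1.2.2.2.2.1]
    exact h.2.2.2
  · rintro (⟨p', h2, _⟩ | ⟨g', h2, h3⟩)
    · exact killer_not_killed hkl h2
    · rw [Sys.kl_inj h2 hkl] at h3
      exact h3 h.free_g

/-- The player of `g` and the player of `p` at a match. -/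
theorem Mt.P_g (h : B.Mt t g p a b) : B.P t a g := by
  have h1 := h.tree
  exact R_P (by tauto) h.free_g h.2.2.1

theorem Mt.P_p (h : B.Mt t g p a b) : B.P t b p := by
  have h1 := h.tree
  refine R_P (by tauto) h.free_p ?_
  rw [h1.2.2.2.2.1]
  exact h.2.2.2

theorem Mt.Up (h : B.Mt t g p a b) : B.UpR t b a := by
  have h1 := h.tree
  have e := h1.2.2.2.2.1
  refine ⟨h.TR.2, h.TR.1, p, by tauto, ?_, ?_, ?_⟩
  · rw [e]
    tauto
  · rw [e]
    exact h.2.2.2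
  · rw [e]
    exact h.2.2.1

/-- Two matches with a common player are the same. -/
theorem Mt.eq {g' p' a' b' : ℕ} (h : B.Mt t g p a b) (h' : B.Mt t g' p' a' b')
    (hc : a = a' ∨ a = b' ∨ b = a' ∨ b = b') : g = g' ∧ p = p' ∧ a = a' ∧ b = b' := by
  have ht := h.tree.1.le
  have key : g = g' ∨ p = p' := by
    rcases hc with rfl | rfl | rfl | rfl
    · exact Or.inl (h.P_g.inj ht h'.P_g)
    · have e := h.P_g.inj ht h'.P_p
      rw [← e] at h'
      exact (killer_not_killed h'.1 h.1).elim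
    · have e := h.P_p.inj ht h'.P_g
      rw [← e] at h'
      exact (killer_not_killed h.1 h'.1).elim
    · exact Or.inr (h.P_p.inj ht h'.P_p)
  have e : g = g' ∧ p = p' := by
    rcases key with rfl | rfl
    · exact ⟨rfl, kl_p_inj h.1 h'.1⟩
    · exact ⟨Sys.kl_inj h.1 h'.1, rfl⟩
  obtain ⟨rfl, rfl⟩ := e
  exact ⟨rfl, rfl, h.2.2.1.unique h'.2.2.1, h.2.2.2.unique h'.2.2.2⟩

/-- A touched player which is not reset: kept and no killer, or in a match. -/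
theorem TR_cases (h : B.TR t s) : ∃ v, B.P t s v ∧ S.R t v ∧ B.Fr t v (S.rho t v) ∧
    ((S.Kp t v ∧ S.rho (t + 1) v = S.rho t v ∧ (∀ g, ¬ S.Kl t g v) ∧ B.P (t + 1) s v) ∨
      (∃ g a, B.Mt t g v a s) ∨ ∃ p b, B.Mt t v p s b) := by
  obtain ⟨v, h1, h2, h3, h4, h5, h6⟩ := TR_node h
  refine ⟨v, h4, h1, h2, ?_⟩
  rcases R_cases h1 with ⟨c1, c2, c3⟩ | ⟨g, hg⟩ | ⟨p, hp⟩
  · exact Or.inl ⟨c1, c2, c3, step_keep c1 h4 h5 c2⟩
  · right; left
    have hk := Sys.kl_facts hg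
    have hgR := hg.1
    have e : S.rho t v = g := hk.2.2.2.1
    have hf : B.Fr t g (S.rho t g) := by
      by_contra hc
      exact h6 (Or.inr ⟨g, hg, hc⟩)
    have hrl := rho_le h1.1.le hgR.2.1
    have hkg := S.key v h1.2.1
    obtain ⟨a, ha⟩ := B.exists_IsG h1.1.le (S.lt_rho t h1.1.le g hgR.2.1) hrl (by omega)
    rw [e] at h2 h3
    exact ⟨g, a, hg, h2.union hf, ha, h3⟩
  · right; right
    have hk := Sys.kl_facts hp
    have e : S.rho t p = v := hk.2.2.2.1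
    have hf : B.Fr t p v := by
      by_contra hc
      exact h6 (Or.inl ⟨p, hp, hc⟩)
    have hkp := S.key p hk.1.1.2.1
    have hkv := S.key v h1.2.1
    obtain ⟨b, hb⟩ := B.exists_IsG h1.1.le hk.2.1 (by omega) (by omega)
    exact ⟨p, b, hp, hf.union h2, h3, hb⟩

/-- A LOW player: node and sign after the match. -/
theorem LoR.after (h : B.LoR t a b) : ∃ g p, S.Kl t g p ∧ (B.P (t + 1) a g ∨ B.Q (t + 1) a g) ∧
    B.P (t + 1) b p := by
  obtain ⟨⟨g, p, h1 | h1⟩, h2⟩ := h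
  · exact ⟨g, p, h1.1, Or.inl (h1.step_lt h2).1, (h1.step_lt h2).2⟩
  · exact ⟨g, p, h1.1, Or.inr (h1.step_gt h2).1, (h1.step_gt h2).2⟩

theorem LoR.TR (h : B.LoR t a b) : B.TR t a ∧ B.TR t b := by
  obtain ⟨⟨g, p, h1 | h1⟩, h2⟩ := h
  · exact h1.TR
  · exact ⟨h1.TR.2, h1.TR.1⟩

theorem LoR.Up (h : B.LoR t a b) : B.UpR t a b ∨ B.UpR t b a := by
  obtain ⟨⟨g, p, h1 | h1⟩, h2⟩ := h
  · exact Or.inr h1.Up
  · exact Or.inl h1.Up

theorem LoR.right_unique {b' : ℕ} (h : B.LoR t a b) (h' : B.LoR t a b') : b = b' := by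
  obtain ⟨⟨g, p, h1 | h1⟩, h2⟩ := h <;> obtain ⟨⟨g', p', h1' | h1'⟩, h2'⟩ := h'
  · exact (h1.eq h1' (Or.inl rfl)).2.2.2
  · have := h1.eq h1' (Or.inr (Or.inl rfl))
    have e1 := this.2.2.1
    have e2 := this.2.2.2
    rw [e2] at h2
    omega
  · have := h1.eq h1' (Or.inr (Or.inr (Or.inl rfl)))
    have e1 := this.2.2.1
    rw [e1] at h2
    omega
  · exact (h1.eq h1' (Or.inr (Or.inr (Or.inr rfl)))).2.2.1

theorem LoR.left_unique {a' : ℕ} (h : B.LoR t a b) (h' : B.LoR t a' b) : a = a' := by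
  obtain ⟨⟨g, p, h1 | h1⟩, h2⟩ := h <;> obtain ⟨⟨g', p', h1' | h1'⟩, h2'⟩ := h'
  · exact (h1.eq h1' (Or.inr (Or.inr (Or.inr rfl)))).2.2.1
  · have := h1.eq h1' (Or.inr (Or.inr (Or.inl rfl)))
    have e1 := this.2.2.1
    have e2 := this.2.2.2
    rw [e1, e2] at h2
    omega
  · have := h1.eq h1' (Or.inr (Or.inl rfl))
    have e1 := this.2.2.1
    have e2 := this.2.2.2
    rw [e1, e2] at h2
    omega
  · exact (h1.eq h1' (Or.inl rfl)).2.2.2

theorem LoR.not_low {c : ℕ} (h : B.LoR t a b) (h' : B.LoR t b c) : False := by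
  obtain ⟨⟨g, p, h1 | h1⟩, h2⟩ := h <;> obtain ⟨⟨g', p', h1' | h1'⟩, h2'⟩ := h'
  · have := h1.eq h1' (Or.inr (Or.inr (Or.inl rfl)))
    have e1 := this.2.2.1
    have e2 := this.2.2.2
    rw [e1, e2] at h2
    omega
  · have := h1.eq h1' (Or.inr (Or.inr (Or.inr rfl)))
    have e1 := this.2.2.1
    rw [← e1] at h2'
    omega
  · have := h1.eq h1' (Or.inl rfl)
    have e2 := this.2.2.2
    rw [← e2] at h2'
    omega
  · have := h1.eq h1' (Or.inr (Or.inl rfl))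
    have e2 := this.2.2.2
    rw [e2] at h2
    omega

end Blk

end Pool.Agent.SplPl
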