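import Pool.Agent.SplPl.First
import Pool.Agent.SplPl.Cnt74
import Pool.Agent.SplPl.HCount
import Pool.Agent.SplLog.Alt

set_option autoImplicit false

/-!
# I8. Theorem A

The arithmetic: the counting theorem, applied to the heap system of a block process, bounds the
number of matches, and with it the number of kills and of changes of side.
-/

namespace Pool.Agent.SplPl

open Pool.Agent.SplLog

theorem card_K (S : Sys) : S.K.card ≤ S.top := by
  have h : S.K ⊆ Finset.range S.top := by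
    intro v hv
    rw [Finset.mem_range]
    exact (S.key v hv).2
  have := Finset.card_le_card h
  rwa [Finset.card_range] at this

theorem card_gs (S : Sys) : (Blk.gs S).card ≤ S.top := by
  unfold Blk.gs
  rw [Nat.card_Ioo]
  omega

/-- Theorem A from the statements about the heap system. -/
theorem thA_of {S : Sys} (B : Blk S) {D M e t n r p q : ℕ} (hM : 1 ≤ M)
    (hk : S.KR ≤ S.NR + S.CR + S.CL + S.m)
    (hk' : S.mir.KR ≤ S.mir.NR + S.mir.CR + S.mir.CL + S.m)
    (hr : r ≤ 5 * B.tot) (hp : p ≤ 2 * B.tot) (hq : q ≤ 2 * B.tot)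
    (he : e ≤ 4 * r + 2 * S.m + 2 * B.tot)
    (hQR : S.QR ≤ S.K.card + S.m + 2 * B.tot + n + r)
    (hQL : S.QL ≤ S.K.card + S.m + 2 * B.tot + n + r)
    (hN : S.NR + S.mir.NR ≤ n + 2 * B.tot)
    (ht : t ≤ (S.NR + S.KR) + (S.mir.NR + S.mir.KR))
    (hc : r ≤ 94 * (S.top + S.m + B.tot) → p ≤ 94 * (S.top + S.m + B.tot) →
      q ≤ 94 * (S.top + S.m + B.tot) → e ≤ 94 * (S.top + S.m + B.tot) →
      t ≤ 94 * (n + (S.top + S.m + B.tot)) → n ≤ D * M * (S.top + S.m + B.tot)) :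
    S.NR + S.mir.NR + S.CR + S.CL ≤ (7 * D + 46) * M * (S.top + S.m + B.tot) := by
  have a3 := S.alt
  have a4 := S.mir.alt
  rw [Sys.mir_CR, Sys.mir_QR, Sys.mir_QL] at a4
  change _ ≤ S.m + _ + _ at a4
  rw [Sys.mir_CR, Sys.mir_CL] at hk'
  have hK := card_K S
  generalize S.NR = N1 at *
  generalize S.mir.NR = N2 at *
  generalize S.KR = K1 at *
  generalize S.mir.KR = K2 at *
  generalize S.CR = C1 at *
  generalize S.CL = C2 at *
  generalize S.QR = Q1 at *
  generalize S.QL = Q2 at *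
  generalize S.K.card = kk at *
  generalize S.top = top at *
  generalize S.m = m at *
  generalize B.tot = tot at *
  have h := hc (by omega) (by omega) (by omega) (by omega) (by omega)
  have h1 : N1 + N2 + C1 + C2 ≤ 7 * n + 46 * (top + m + tot) := by omega
  have h2 : top + m + tot ≤ M * (top + m + tot) := Nat.le_mul_of_pos_left _ hM
  have h3 : (7 * D + 46) * M * (top + m + tot) =
      7 * (D * M * (top + m + tot)) + 46 * (M * (top + m + tot)) := by ring
  rw [h3]
  omega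

/-- I8. THEOREM A. -/
theorem theoremA : ∃ C : ℕ, ∀ (S : Sys) (B : Blk S), S.KR ≤ S.NR + S.CR + S.CL + S.m →
    S.mir.KR ≤ S.mir.NR + S.mir.CR + S.mir.CL + S.m →
    S.NR + S.mir.NR + S.CR + S.CL ≤ C * (Nat.log 2 (B.H + 1) + 1) ^ 6 * (S.top + S.m + B.tot) := by
  obtain ⟨C, hC⟩ := HS.count
  refine ⟨7 * C 94 + 46, ?_⟩
  intro S B hk hk'
  obtain ⟨E, hE, hE'⟩ := B.first
  have hM : 1 ≤ (Nat.log 2 (B.H + 1) + 1) ^ 6 := Nat.one_le_pow _ _ (Nat.succ_pos _)
  have hT : S.QR ≤ S.K.card + S.m + 2 * B.tot + B.heap.N + B.heap.NRs ∧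
    S.QL ≤ S.K.card + S.m + 2 * B.tot + B.heap.N + B.heap.NRs := Blk.ct_turns B
  refine thA_of B (r := B.heap.NRs) (p := B.heap.NTop) (q := B.heap.NBot) (n := B.heap.N)
    (t := B.heap.NTc) hM hk hk' (Blk.ct_Rs B) (Blk.ct_top B) (Blk.ct_bot B) hE' hT.1 hT.2
    (Blk.ct_kills B) (Blk.ct_Tc B) ?_
  intro h1 h2 h3 h4 h5
  refine hC B.heap B.sg E (S.top + S.m + B.tot) 94 hE ?_ h1 h2 h3 h4 h5
  have := card_gs S
  change (Blk.gs S).card ≤ _
  omega

end Pool.Agent.SplPl
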