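import Pool.Agent.SplPl.First
import Pool.Agent.SplPl.Cnt74
import Pool.Agent.SplPl.HCount2
import Pool.Agent.SplLog.Alt

set_option autoImplicit false

/-!
# The sharp form of Theorem A
-/

namespace Pool.Agent.SplPl

open Pool.Agent.SplLog

private theorem card_K2 (S : Sys) : S.K.card ≤ S.top := by
  have h : S.K ⊆ Finset.range S.top := by
    intro v hv
    rw [Finset.mem_range]
    exact (S.key v hv).2
  have := Finset.card_le_card h
  rwa [Finset.card_range] at this

/-- **Theorem A, sharp form.** -/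
theorem theoremA2 : ∃ C : ℕ, ∀ (S : Sys) (B : Blk S), HalfS S → HalfS S.mir →
    S.KR ≤ S.NR + S.CR + S.CL + S.m →
    S.mir.KR ≤ S.mir.NR + S.mir.CR + S.mir.CL + S.m →
    S.NR + S.mir.NR + S.CR + S.CL ≤
      C * ((Nat.log 2 (B.H + 1) + 1) * (Nat.log 2 (Nat.log 2 (B.H + 1) + 1) + 1) ^ 2) *
        (S.top + S.m + B.tot) := by
  obtain ⟨C, hC⟩ := HS.count2
  refine ⟨7 * C 94 + 46, ?_⟩
  intro S B hS hS' hk hk'
  obtain ⟨E, hE, hE'⟩ := B.first
  have b1 : B.heap.NRs ≤ 5 * B.tot := Blk.ct_Rs B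
  have b2 : B.heap.NTop ≤ 2 * B.tot := Blk.ct_top B
  have b3 : B.heap.NBot ≤ 2 * B.tot := Blk.ct_bot B
  have b4 : S.QR ≤ S.K.card + S.m + 2 * B.tot + B.heap.N + B.heap.NRs ∧
    S.QL ≤ S.K.card + S.m + 2 * B.tot + B.heap.N + B.heap.NRs := Blk.ct_turns B
  have b5 : S.NR + S.mir.NR ≤ B.heap.N + 2 * B.tot := Blk.ct_kills B
  have b6 : (Blk.gs S).card ≤ S.top := by
    unfold Blk.gs
    rw [Nat.card_Ioo]
    omega
  have h := hC B.heap B.sg E (S.top + S.m + B.tot) 94 (Blk.half hS hS') hE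
    (by change (Blk.gs S).card ≤ _; omega) (by omega) (by omega) (by omega) (by omega)
  have hMv : B.heap.Mv = Nat.log 2 (B.H + 1) + 1 := rfl
  rw [hMv] at h
  have a3 := S.alt
  have a4 := S.mir.alt
  rw [Sys.mir_CR, Sys.mir_QR, Sys.mir_QL] at a4
  change _ ≤ S.m + _ + _ at a4
  rw [Sys.mir_CR, Sys.mir_CL] at hk'
  have hK := card_K2 S
  set M := Nat.log 2 (B.H + 1) + 1 with hMdef
  set R := Nat.log 2 M + 1 with hRdef
  have hM : 1 ≤ M * R ^ 2 := Nat.one_le_iff_ne_zero.2 (by positivity)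
  generalize B.heap.N = n at *
  generalize B.heap.NRs = r at *
  generalize S.NR = N1 at *
  generalize S.mir.NR = N2 at *
  generalize S.KR = K1 at *
  generalize S.mir.KR = K2 at *
  generalize S.CR = C1 at *
  generalize S.CL = C2 at *
  generalize S.QR = Q1 at *
  generalize S.QL = Q2 at *
  generalize S.K.card = kk at *
  generalize S.top = top at *
  generalize S.m = m at *
  generalize B.tot = tot at *
  have h1 : N1 + N2 + C1 + C2 ≤ 7 * n + 46 * (top + m + tot) := by omega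
  have h2 : top + m + tot ≤ M * R ^ 2 * (top + m + tot) := Nat.le_mul_of_pos_left _ hM
  have h3 : (7 * C 94 + 46) * (M * R ^ 2) * (top + m + tot) =
      7 * (C 94 * M * R ^ 2 * (top + m + tot)) + 46 * (M * R ^ 2 * (top + m + tot)) := by ring
  rw [h3]
  omega

end Pool.Agent.SplPl
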