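import Pool.Agent.SplPl.Defs
import Pool.Agent.SplLog.Basic

set_option autoImplicit false

/-!
# Toolbox for block processes (T1 - T11)
-/

namespace Pool.Agent.SplPl

open Pool.Agent.SplLog

namespace Blk

variable {S : Sys} {B : Blk S} {t u v w s r a b g p u' v' s' : ℕ}

/-! ### highest gaps -/

theorem IsG.le (h : B.IsG t u v s) : u ≤ s := h.1

theorem IsG.lt (h : B.IsG t u v s) : s < v := h.2.1

theorem IsG.max (h : B.IsG t u v s) (h1 : u ≤ r) (h2 : r < v) : B.om t r ≤ B.om t s := by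
  by_cases e : r = s
  · rw [e]
  · exact (h.2.2 r h1 h2 e).le

/-- T2 -/
theorem IsG.unique (h : B.IsG t u v s) (h' : B.IsG t u v s') : s = s' := by
  by_contra e
  have h1 := h.2.2 s' h'.1 h'.2.1 (fun e' => e e'.symm)
  have h2 := h'.2.2 s h.1 h.2.1 e
  omega

/-- T3 -/
theorem IsG.sub (h : B.IsG t u v s) (h1 : u ≤ u') (h2 : u' ≤ s) (h3 : s < v') (h4 : v' ≤ v) :
    B.IsG t u' v' s :=
  ⟨h2, h3, fun r hr1 hr2 hr3 => h.2.2 r (by omega) (by omega) hr3⟩

/-- T1 -/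
theorem exists_IsG (B : Blk S) (ht : t ≤ S.m) (huv : u < v) (hv : v ≤ S.top)
    (hn : ¬ (u = 0 ∧ v = S.top)) : ∃ s, B.IsG t u v s := by
  obtain ⟨s, hs, hmax⟩ := Finset.exists_max_image (Finset.Ico u v) (B.om t)
    ⟨u, Finset.mem_Ico.2 ⟨le_rfl, huv⟩⟩
  rw [Finset.mem_Ico] at hs
  refine ⟨s, hs.1, hs.2, ?_⟩
  intro r hr1 hr2 hne
  have h1 := hmax r (Finset.mem_Ico.2 ⟨hr1, hr2⟩)
  rcases lt_or_eq_of_le h1 with h2 | h2
  · exact h2
  · exfalso
    rcases Nat.lt_or_gt_of_ne hne with h3 | h3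
    · rcases B.uniq t ht r s h3 (by omega) h2 with h4 | ⟨q, h5, h6, h7⟩
      · omega
      · have := hmax q (Finset.mem_Ico.2 ⟨by omega, by omega⟩)
        omega
    · rcases B.uniq t ht s r h3 (by omega) h2.symm with h4 | ⟨q, h5, h6, h7⟩
      · omega
      · have := hmax q (Finset.mem_Ico.2 ⟨by omega, by omega⟩)
        omega

/-- T4 -/
theorem IsG.join_lt (h1 : B.IsG t u w a) (h2 : B.IsG t w v b) (h : B.om t a < B.om t b) :
    B.IsG t u v b := by
  have hwb := h2.1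
  have hbv := h2.2.1
  have hua := h1.1
  have haw := h1.2.1
  refine ⟨by omega, hbv, ?_⟩
  intro r hr1 hr2 hne
  by_cases hr : r < w
  · exact lt_of_le_of_lt (h1.max hr1 hr) h
  · exact h2.2.2 r (by omega) hr2 hne

/-- T4 -/
theorem IsG.join_gt (h1 : B.IsG t u w a) (h2 : B.IsG t w v b) (h : B.om t b < B.om t a) :
    B.IsG t u v a := by
  have hwb := h2.1
  have hbv := h2.2.1
  have hua := h1.1
  have haw := h1.2.1
  refine ⟨hua, by omega, ?_⟩
  intro r hr1 hr2 hne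
  by_cases hr : r < w
  · exact h1.2.2 r hr1 hr hne
  · exact lt_of_le_of_lt (h2.max (by omega) hr2) h

/-- T4 -/
theorem IsG.om_ne (ht : t ≤ S.m) (hv : v ≤ S.top) (h1 : B.IsG t u w a) (h2 : B.IsG t w v b)
    (hn : ¬ (u = 0 ∧ v = S.top)) : B.om t a ≠ B.om t b := by
  intro e
  have hwb := h2.1
  have hbv := h2.2.1
  have hua := h1.1
  have haw := h1.2.1
  rcases B.uniq t ht a b (by omega) (by omega) e with h4 | ⟨q, h5, h6, h7⟩
  · omega
  · by_cases hq : q < w
    · have := h1.max (r := q) (by omega) hq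
      omega
    · have := h2.max (r := q) (by omega) (by omega)
      omega

/-! ### free intervals -/

theorem Fr.mono (h : B.Fr t u v) (h1 : u ≤ u') (h2 : v' ≤ v) : B.Fr t u' v' :=
  fun r hr1 hr2 => h r (by omega) (by omega)

theorem Fr.union (h : B.Fr t u w) (h' : B.Fr t w v) : B.Fr t u v := by
  intro r hr1 hr2
  by_cases hr : r < w
  · exact h r hr1 hr
  · exact h' r (by omega) hr2

theorem not_Fr (h : ¬ B.Fr t u v) : ∃ q ∈ B.tau t, u ≤ q ∧ q < v := by
  by_contra h1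
  apply h
  intro r hr1 hr2 hr3
  exact h1 ⟨r, hr3, hr1, hr2⟩

/-- the nearest touched gap on the left -/
theorem near_left (h : ∃ q ∈ B.tau t, w ≤ q ∧ q < u) :
    ∃ q ∈ B.tau t, w ≤ q ∧ q < u ∧ ∀ r, q < r → r < u → r ∉ B.tau t := by
  classical
  obtain ⟨q, h1, h2, h3⟩ := h
  have hne : ((B.tau t).filter (fun q => q < u)).Nonempty := ⟨q, by simp [h1, h3]⟩
  refine ⟨((B.tau t).filter (fun q => q < u)).max' hne, ?_, ?_, ?_, ?_⟩
  · exact (Finset.mem_filter.1 (Finset.max'_mem _ hne)).1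
  · have := Finset.le_max' ((B.tau t).filter (fun q => q < u)) q (by simp [h1, h3])
    omega
  · exact (Finset.mem_filter.1 (Finset.max'_mem _ hne)).2
  · intro r hr1 hr2 hr3
    have := Finset.le_max' ((B.tau t).filter (fun q => q < u)) r (by simp [hr2, hr3])
    omega

/-- the nearest touched gap on the right -/
theorem near_right (h : ∃ q ∈ B.tau t, v ≤ q ∧ q < w) :
    ∃ q ∈ B.tau t, v ≤ q ∧ q < w ∧ ∀ r, v ≤ r → r < q → r ∉ B.tau t := by
  classical
  obtain ⟨q, h1, h2, h3⟩ := h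
  have hne : ((B.tau t).filter (fun q => v ≤ q)).Nonempty := ⟨q, by simp [h1, h2]⟩
  refine ⟨((B.tau t).filter (fun q => v ≤ q)).min' hne, ?_, ?_, ?_, ?_⟩
  · exact (Finset.mem_filter.1 (Finset.min'_mem _ hne)).1
  · exact (Finset.mem_filter.1 (Finset.min'_mem _ hne)).2
  · have := Finset.min'_le ((B.tau t).filter (fun q => v ≤ q)) q (by simp [h1, h2])
    omega
  · intro r hr1 hr2 hr3
    have := Finset.min'_le ((B.tau t).filter (fun q => v ≤ q)) r (by simp [hr1, hr3])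
    omega

/-- T7, left side: the nearest touched gap to the left of a free interval is higher than the
interval, before and after the request. -/
theorem Fr.high_left (ht : t < S.m) (hv : v ≤ S.top) (h : B.Fr t u v)
    (hq : ∃ q ∈ B.tau t, w ≤ q ∧ q < u) :
    ∃ q ∈ B.tau t, w ≤ q ∧ q < u ∧ (∀ r, q < r → r < v → r ∉ B.tau t) ∧
      ∀ s, u ≤ s → s < v → B.om t s < B.om t q ∧ B.om (t + 1) s < B.om (t + 1) q := by
  obtain ⟨q, h1, h2, h3, h4⟩ := near_left hq
  have h5 : ∀ r, q < r → r < v → r ∉ B.tau t := by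
    intro r hr1 hr2
    by_cases hr : r < u
    · exact h4 r hr1 hr
    · exact h r (by omega) hr2
  refine ⟨q, h1, h2, h3, h5, ?_⟩
  intro s hs1 hs2
  refine B.hole t ht s (by omega) (h s hs1 hs2) q h1 ?_
  rintro r (⟨hr1, hr2⟩ | ⟨hr1, hr2⟩)
  · omega
  · exact h5 r hr1 (by omega)

/-- T7, right side -/
theorem Fr.high_right (ht : t < S.m) (hv : v ≤ S.top) (h : B.Fr t u v)
    (hq : ∃ q ∈ B.tau t, v ≤ q ∧ q < w) :
    ∃ q ∈ B.tau t, v ≤ q ∧ q < w ∧ (∀ r, u ≤ r → r < q → r ∉ B.tau t) ∧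
      ∀ s, u ≤ s → s < v → B.om t s < B.om t q ∧ B.om (t + 1) s < B.om (t + 1) q := by
  obtain ⟨q, h1, h2, h3, h4⟩ := near_right hq
  have h5 : ∀ r, u ≤ r → r < q → r ∉ B.tau t := by
    intro r hr1 hr2
    by_cases hr : r < v
    · exact h r hr1 hr
    · exact h4 r (by omega) hr2
  refine ⟨q, h1, h2, h3, h5, ?_⟩
  intro s hs1 hs2
  refine B.hole t ht s (by omega) (h s hs1 hs2) q h1 ?_
  rintro r (⟨hr1, hr2⟩ | ⟨hr1, hr2⟩)
  · exact h5 r (by omega) hr2
  · omega

/-- T5: an interval whose highest gap (before the request) is untouched is free. -/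
theorem IsG.free (ht : t < S.m) (hv : v ≤ S.top) (h : B.IsG t u v s) (hs : s ∉ B.tau t) :
    B.Fr t u v := by
  have hus := h.1
  have hsv := h.2.1
  have h1 : B.Fr t s (s + 1) := by
    intro r hr1 hr2
    have : r = s := by omega
    rwa [this]
  intro r hr1 hr2 hr3
  rcases lt_trichotomy r s with h2 | h2 | h2
  · obtain ⟨q, h3, h4, h5, _, h6⟩ := h1.high_left ht (by omega) ⟨r, hr3, hr1, h2⟩
    have h7 := (h6 s le_rfl (by omega)).1
    have h8 := h.max (r := q) h4 (by omega)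
    omega
  · rw [h2] at hr3
    exact hs hr3
  · obtain ⟨q, h3, h4, h5, _, h6⟩ := h1.high_right ht (by omega) ⟨r, hr3, by omega, hr2⟩
    have h7 := (h6 s le_rfl (by omega)).1
    have h8 := h.max (r := q) (by omega) h5
    omega

/-- T5: an interval whose highest gap (after the request) is untouched is free. -/
theorem IsG.free' (ht : t < S.m) (hv : v ≤ S.top) (h : B.IsG (t + 1) u v s)
    (hs : s ∉ B.tau t) : B.Fr t u v := by
  have hus := h.1
  have hsv := h.2.1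
  have h1 : B.Fr t s (s + 1) := by
    intro r hr1 hr2
    have : r = s := by omega
    rwa [this]
  intro r hr1 hr2 hr3
  rcases lt_trichotomy r s with h2 | h2 | h2
  · obtain ⟨q, h3, h4, h5, _, h6⟩ := h1.high_left ht (by omega) ⟨r, hr3, hr1, h2⟩
    have h7 := (h6 s le_rfl (by omega)).2
    have h8 := h.max (r := q) h4 (by omega)
    omega
  · rw [h2] at hr3
    exact hs hr3
  · obtain ⟨q, h3, h4, h5, _, h6⟩ := h1.high_right ht (by omega) ⟨r, hr3, by omega, hr2⟩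
    have h7 := (h6 s le_rfl (by omega)).2
    have h8 := h.max (r := q) (by omega) h5
    omega

/-- T6 -/
theorem Fr.om_eq (ht : t < S.m) (hv : v ≤ S.top) (h : B.Fr t u v) (h1 : u ≤ r) (h2 : r < v) :
    B.om (t + 1) r = B.om t r :=
  B.keep t ht r (by omega) (h r h1 h2)

/-- T6 -/
theorem Fr.IsG_iff (ht : t < S.m) (hv : v ≤ S.top) (h : B.Fr t u v) :
    B.IsG (t + 1) u v s ↔ B.IsG t u v s := by
  constructor
  · rintro ⟨h1, h2, h3⟩
    refine ⟨h1, h2, fun r hr1 hr2 hr3 => ?_⟩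
    have := h3 r hr1 hr2 hr3
    rwa [h.om_eq ht hv hr1 hr2, h.om_eq ht hv h1 h2] at this
  · rintro ⟨h1, h2, h3⟩
    refine ⟨h1, h2, fun r hr1 hr2 hr3 => ?_⟩
    have := h3 r hr1 hr2 hr3
    rwa [h.om_eq ht hv hr1 hr2, h.om_eq ht hv h1 h2]

/-- The request is not in a free interval (nor at its right end). -/
theorem Fr.X_notMem (ht : t < S.m) (h : B.Fr t u v) : S.X t < u ∨ v < S.X t ∨
    (S.X t = u ∧ v ≤ u) ∨ (S.X t = v ∧ v ≤ u) := by
  have h1 := B.tau_X t ht
  have h0 := S.key _ (S.req t ht)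
  by_contra hc
  have h2 : ¬ (u ≤ S.X t ∧ S.X t < v) := fun h3 => h _ h3.1 h3.2 h1.2
  have h3 : ¬ (u ≤ S.X t - 1 ∧ S.X t - 1 < v) := fun h3 => h _ h3.1 h3.2 h1.1
  omega

/-! ### players -/

theorem rho_le (ht : t ≤ S.m) (hv : v ∈ S.K) : S.rho t v ≤ S.top := S.rho_le_top ht hv

/-- The player of a node is an inner gap. -/
theorem P.inner (ht : t ≤ S.m) (h : B.P t s v) : 0 < s ∧ s + 1 < S.top := by
  obtain ⟨hv, h1, r, h2, h3, h4⟩ := h
  have hk := S.key v hv
  have h5 := rho_le ht hv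
  have h6 := h1.1
  have h7 := h1.2.1
  refine ⟨by omega, ?_⟩
  by_contra hc
  have e : s = S.top - 1 := by omega
  have h8 := B.om_last t ht
  rw [e, h8] at h4
  by_cases hr : r = 0
  · rw [hr, B.om_zero t ht] at h4
    omega
  · have := B.om_le t ht r (by omega) (by omega)
    omega

theorem Q.inner (ht : t ≤ S.m) (h : B.Q t s v) : 0 < s ∧ s + 1 < S.top := by
  obtain ⟨hv, h1, r, h2, h3, h4⟩ := h
  have hk := S.key v hv
  have h5 := rho_le ht hv
  have h6 := h1.1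
  have h7 := h1.2.1
  refine ⟨?_, by omega⟩
  by_contra hc
  have e : s = 0 := by omega
  have h8 := B.om_zero t ht
  rw [e, h8] at h4
  by_cases hr : r = S.top - 1
  · rw [hr, B.om_last t ht] at h4
    omega
  · have := B.om_le t ht r (by omega) (by omega)
    omega

theorem P.gs (ht : t ≤ S.m) (h : B.P t s v) : s ∈ gs S := by
  have := h.inner ht
  simp only [Blk.gs, Finset.mem_Ioo]
  omega

theorem Q.gs (ht : t ≤ S.m) (h : B.Q t s v) : s ∈ gs S := by
  have := h.inner ht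
  simp only [Blk.gs, Finset.mem_Ioo]
  omega

/-- T10 -/
theorem P.inj (ht : t ≤ S.m) (h : B.P t s v) (h' : B.P t s v') : v = v' := by
  have key : ∀ {v v' : ℕ}, B.P t s v → B.P t s v' → ¬ v < v' := by
    intro v v' h h' hlt
    obtain ⟨hv, h1, _⟩ := h
    obtain ⟨hv', h1', r, h2, h3, h4⟩ := h'
    have a1 := h1.2.1
    have a2 := h1'.1
    rcases S.lamin t ht v hv v' hv' hlt with ⟨c1, c2, c3⟩ | ⟨c1, c2, c3⟩ | c1
    · have := h1.max (r := r) (by omega) (by omega)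
      omega
    · omega
    · have := S.lam_lt t ht v' hv'
      omega
  have := key h h'
  have := key h' h
  omega

/-- T10 -/
theorem Q.inj (ht : t ≤ S.m) (h : B.Q t s v) (h' : B.Q t s v') : v = v' := by
  have key : ∀ {v v' : ℕ}, B.Q t s v → B.Q t s v' → ¬ v < v' := by
    intro v v' h h' hlt
    obtain ⟨hv, h1, r, h2, h3, h4⟩ := h
    obtain ⟨hv', h1', _⟩ := h'
    have a1 := h1.2.1
    have a2 := h1'.1
    rcases S.lamin t ht v hv v' hv' hlt with ⟨c1, c2, c3⟩ | ⟨c1, c2, c3⟩ | c1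
    · omega
    · have := h1'.max (r := r) (by omega) (by omega)
      omega
    · have := S.lt_rho t ht v hv
      omega
  have := key h h'
  have := key h' h
  omega

/-- T10 -/
theorem P.not_Q (ht : t ≤ S.m) (h : B.P t s v) (h' : B.Q t s v') : False := by
  obtain ⟨hv, h1, r, h2, h3, h4⟩ := h
  obtain ⟨hv', h1', r', h2', h3', h4'⟩ := h'
  have a1 := h1.1
  have a2 := h1.2.1
  have a3 := h1'.1
  have a4 := h1'.2.1
  rcases S.lamin t ht v hv v' hv' (by omega) with ⟨c1, c2, c3⟩ | ⟨c1, c2, c3⟩ | c1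
  · have := h1.max (r := r') (by omega) (by omega)
    omega
  · have := h1'.max (r := r) (by omega) (by omega)
    omega
  · omega

/-- T10 -/
theorem PQ.inj (ht : t ≤ S.m) (h : B.P t s v ∨ B.Q t s v) (h' : B.P t s v' ∨ B.Q t s v') :
    v = v' := by
  rcases h with h | h <;> rcases h' with h' | h'
  · exact h.inj ht h'
  · exact (h.not_Q ht h').elim
  · exact (h'.not_Q ht h).elim
  · exact h.inj ht h'

/-- the player of a node is unique -/
theorem PQ.unique (_ht : t ≤ S.m) (h : B.P t s v ∨ B.Q t s v) (h' : B.P t s' v ∨ B.Q t s' v) :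
    s = s' := by
  have key : ∀ {s s' : ℕ}, B.P t s v → B.Q t s' v → False := by
    intro s s' h h'
    obtain ⟨hv, h1, r, h2, h3, h4⟩ := h
    obtain ⟨hv', h1', r', h2', h3', h4'⟩ := h'
    have := h1.max h2' h3'
    have := h1'.max h2 h3
    omega
  rcases h with h | h <;> rcases h' with h' | h'
  · exact h.2.1.unique h'.2.1
  · exact (key h h').elim
  · exact (key h' h).elim
  · exact h.2.1.unique h'.2.1

/-- T11 -/
theorem exists_PQ (B : Blk S) (ht : t ≤ S.m) (hv : v ∈ S.K)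
    (hn : ¬ (S.lam t v = 0 ∧ S.rho t v = S.top)) : ∃ s, B.P t s v ∨ B.Q t s v := by
  have h1 := S.lam_lt t ht v hv
  have h2 := S.lt_rho t ht v hv
  have h3 := rho_le ht hv
  have h4 := S.key v hv
  obtain ⟨a, ha⟩ := B.exists_IsG ht h1 (by omega) (by omega)
  obtain ⟨b, hb⟩ := B.exists_IsG ht h2 h3 (by omega)
  have h5 := IsG.om_ne ht h3 ha hb hn
  rcases Nat.lt_or_gt_of_ne h5 with h6 | h6
  · exact ⟨a, Or.inr ⟨hv, ha, b, hb.1, hb.2.1, h6⟩⟩
  · exact ⟨b, Or.inl ⟨hv, hb, a, ha.1, ha.2.1, h6⟩⟩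

/-- T8: the gap `X t` is touched and lies in `[lam v, v)`. -/
theorem R_tau (h : S.R t v) : ∃ q ∈ B.tau t, S.lam t v ≤ q ∧ q < v :=
  ⟨S.X t, (B.tau_X t h.1).2, h.2.2.2.le, h.2.2.1⟩

/-- T8 -/
theorem R_P (h : S.R t v) (hf : B.Fr t v (S.rho t v)) (hs : B.IsG t v (S.rho t v) s) :
    B.P t s v := by
  refine ⟨h.2.1, hs, ?_⟩
  obtain ⟨q, h1, h2, h3, _, h4⟩ := hf.high_left h.1 (rho_le h.1.le h.2.1) (R_tau (B := B) h)
  exact ⟨q, h2, h3, (h4 s hs.1 hs.2.1).1⟩

/-- T8 -/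
theorem R_free (h : S.R t v) (hp : B.P t s v ∨ B.Q t s v) (hs : s ∉ B.tau t) :
    B.P t s v ∧ B.Fr t v (S.rho t v) ∧ B.IsG t v (S.rho t v) s := by
  rcases hp with hp | hp
  · exact ⟨hp, hp.2.1.free h.1 (rho_le h.1.le h.2.1) hs, hp.2.1⟩
  · exfalso
    have h1 := S.key v h.2.1
    have h2 := hp.2.1.free h.1 (by omega) hs
    obtain ⟨q, h3, h4, h5⟩ := R_tau (B := B) h
    exact h2 q h4 h5 h3

/-- T9 -/
theorem P.X_notMem (ht : t < S.m) (h : B.P t s v) (hs : s ∉ B.tau t) :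
    S.X t < v ∨ S.rho t v < S.X t := by
  have h1 := h.2.1.free ht (rho_le ht.le h.1) hs
  have h2 := h1.X_notMem ht
  have h3 := S.lt_rho t ht.le v h.1
  omega

/-- T9 -/
theorem Q.X_notMem (ht : t < S.m) (h : B.Q t s v) (hs : s ∉ B.tau t) :
    S.X t < S.lam t v ∨ v < S.X t := by
  have h0 := S.key v h.1
  have h1 := h.2.1.free ht (by omega) hs
  have h2 := h1.X_notMem ht
  have h3 := S.lam_lt t ht.le v h.1
  omega

/-- T9 -/
theorem P.E_R (h : B.P t s v) (hs : s ∉ B.tau t) (he : S.E t v) : S.R t v := by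
  have ht := Sys.E_lt he
  have h1 := h.X_notMem ht hs
  have h2 := Sys.E_int he
  exact ⟨ht, h.1, by omega, h2.1⟩

/-- T9 -/
theorem Q.E_L (h : B.Q t s v) (hs : s ∉ B.tau t) (he : S.E t v) : S.L t v := by
  have ht := Sys.E_lt he
  have h1 := h.X_notMem ht hs
  have h2 := Sys.E_int he
  exact ⟨ht, h.1, by omega, h2.2⟩

end Blk

end Pool.Agent.SplPl
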